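import Mathlib
import Pool.Agent.H33.Q1.Refl

set_option autoImplicit false

/-! # Removable chords (Route W)

A function which is continuous on an open set and holomorphic off finitely many lines (or segments) is
holomorphic; finitely many exceptional points, near which the function is only bounded, are removable. -/

namespace Pool.Agent.H98.W

open Complex Set Metric Filter Topology

/-- A function which is continuous on an open set and holomorphic off one line is holomorphic. -/
theorem glue_one {U : Set ℂ} (hU : IsOpen U) {f : ℂ → ℂ} (hf : ContinuousOn f U) {u : ℂ} {a : ℝ}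
    (hu : u ≠ 0) (hd : ∀ z ∈ U, (z * u).re ≠ a → DifferentiableAt ℂ f z) :
    DifferentiableOn ℂ f U := by
  -- rotate: `z = w / (I * u) * ... `
  set v : ℂ := I * u with hv
  have hv0 : v ≠ 0 := mul_ne_zero I_ne_zero hu
  set U' : Set ℂ := {w | w * v⁻¹ ∈ U} with hU'
  have hU'o : IsOpen U' := hU.preimage (by fun_prop)
  have hc : ContinuousOn (fun w => f (w * v⁻¹)) U' :=
    hf.comp (by fun_prop) fun w hw => hw
  have him : ∀ w, (w * v⁻¹ * u).re = w.im := by
    intro w
    have h1 : w * v⁻¹ * u = w * I⁻¹ := by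
      rw [hv, mul_inv, mul_assoc, mul_assoc, inv_mul_cancel₀ hu, mul_one]
    rw [h1, inv_I]
    simp
  have hdd := H33.Q1.glue_line hU'o (a := a) hc (by
    intro w hw hne
    have h2 : DifferentiableAt ℂ f (w * v⁻¹) := hd _ hw (by rw [him]; exact hne)
    exact h2.comp w (by fun_prop))
  intro z hz
  have hz' : z * v ∈ U' := by
    show z * v * v⁻¹ ∈ U
    rw [mul_assoc, mul_inv_cancel₀ hv0, mul_one]
    exact hz
  have h3 : DifferentiableAt ℂ (fun w => f (w * v⁻¹)) (z * v) :=
    hdd.differentiableAt (hU'o.mem_nhds hz')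
  have h4 : DifferentiableAt ℂ ((fun w => f (w * v⁻¹)) ∘ fun x => x * v) z :=
    DifferentiableAt.comp z (f := fun x => x * v) h3 (by fun_prop)
  have h5 : ((fun w => f (w * v⁻¹)) ∘ fun x => x * v) = f := by
    ext x
    show f (x * v * v⁻¹) = f x
    rw [mul_assoc, mul_inv_cancel₀ hv0, mul_one]
  rw [h5] at h4
  exact h4.differentiableWithinAt

/-- A function which is continuous on an open set and holomorphic off finitely many lines is
holomorphic. The line of `l` is `Re (z * l.1) = l.2`. -/
theorem glue_lines {f : ℂ → ℂ} (L : Finset (ℂ × ℝ)) (hL : ∀ l ∈ L, l.1 ≠ 0) {U : Set ℂ}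
    (hU : IsOpen U) (hf : ContinuousOn f U)
    (hd : ∀ z ∈ U, (∀ l ∈ L, (z * l.1).re ≠ l.2) → DifferentiableAt ℂ f z) :
    DifferentiableOn ℂ f U := by
  classical
  induction L using Finset.induction_on generalizing U with
  | empty =>
    intro z hz
    exact (hd z hz fun l hl => absurd hl (Finset.notMem_empty l)).differentiableWithinAt
  | insert l L _ ih =>
    have hl0 : l.1 ≠ 0 := hL l (Finset.mem_insert_self l L)
    apply glue_one hU hf hl0 (a := l.2)
    intro z hz hne
    have hopen : IsOpen {z : ℂ | (z * l.1).re ≠ l.2} :=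
      isOpen_ne_fun (by fun_prop) continuous_const
    have hUo : IsOpen (U ∩ {z : ℂ | (z * l.1).re ≠ l.2}) := hU.inter hopen
    have h1 := ih (fun l' hl' => hL l' (Finset.mem_insert_of_mem hl')) hUo
      (hf.mono inter_subset_left) (by
        intro w hw hw'
        apply hd w hw.1
        intro l' hl'
        rcases Finset.mem_insert.mp hl' with rfl | h
        · exact hw.2
        · exact hw' l' h)
    exact h1.differentiableAt (hUo.mem_nhds ⟨hz, hne⟩)

/-- the line through a segment -/
noncomputable def segLine (s : ℂ × ℂ) : ℂ × ℝ :=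
  if s.1 = s.2 then (1, s.1.re) else
    (I * (starRingEnd ℂ) (s.2 - s.1), (s.1 * (I * (starRingEnd ℂ) (s.2 - s.1))).re)

lemma segLine_ne (s : ℂ × ℂ) : (segLine s).1 ≠ 0 := by
  unfold segLine
  split_ifs with h
  · exact one_ne_zero
  · refine mul_ne_zero I_ne_zero ?_
    rw [Ne, map_eq_zero, sub_eq_zero]
    exact fun h' => h h'.symm

lemma segLine_mem {s : ℂ × ℂ} {z : ℂ} (hz : z ∈ segment ℝ s.1 s.2) :
    (z * (segLine s).1).re = (segLine s).2 := by
  unfold segLine
  split_ifs with h
  · rw [h, segment_same, mem_singleton_iff] at hz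
    rw [hz, mul_one, h]
  · rw [segment_eq_image'] at hz
    obtain ⟨t, _, rfl⟩ := hz
    have h1 : (s.1 + t • (s.2 - s.1)) * (I * (starRingEnd ℂ) (s.2 - s.1)) =
        s.1 * (I * (starRingEnd ℂ) (s.2 - s.1)) +
          ((t * Complex.normSq (s.2 - s.1) : ℝ) : ℂ) * I := by
      have h2 := Complex.mul_conj (s.2 - s.1)
      rw [real_smul]
      push_cast
      rw [← h2]
      ring
    show ((s.1 + t • (s.2 - s.1)) * (I * (starRingEnd ℂ) (s.2 - s.1))).re = _
    rw [h1, add_re]
    simp

/-- **Removable chords.** A function which is continuous on an open set and holomorphic off finitely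
many segments is holomorphic. -/
theorem glue_segments {f : ℂ → ℂ} (S : Finset (ℂ × ℂ)) {U : Set ℂ} (hU : IsOpen U)
    (hf : ContinuousOn f U)
    (hd : ∀ z ∈ U, (∀ s ∈ S, z ∉ segment ℝ s.1 s.2) → DifferentiableAt ℂ f z) :
    DifferentiableOn ℂ f U := by
  classical
  apply glue_lines (S.image segLine) ?_ hU hf
  · intro z hz h
    apply hd z hz
    intro s hs hzs
    exact h _ (Finset.mem_image_of_mem _ hs) (segLine_mem hzs)
  · intro l hl
    obtain ⟨s, _, rfl⟩ := Finset.mem_image.mp hl
    exact segLine_ne s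

/-- Finitely many points are removable, when the function is bounded near them. -/
theorem remove_points (F : Finset ℂ) {f : ℂ → ℂ} {U : Set ℂ} (hU : IsOpen U)
    (hd : DifferentiableOn ℂ f (U \ F))
    (hb : ∀ c ∈ F, c ∈ U → ∃ r > 0, ∃ C, ∀ z ∈ U \ F, dist z c < r → ‖f z‖ ≤ C) :
    ∃ g : ℂ → ℂ, DifferentiableOn ℂ g U ∧ EqOn g f (U \ F) := by
  classical
  induction F using Finset.induction_on generalizing f with
  | empty =>
    refine ⟨f, ?_, fun _ _ => rfl⟩
    simpa using hd
  | insert c F hc ih =>
    by_cases hcU : c ∈ U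
    · -- first remove `c`
      obtain ⟨r, hr, C, hC⟩ := hb c (Finset.mem_insert_self c F) hcU
      have hopen : IsOpen (U \ (F : Set ℂ)) := hU.sdiff F.finite_toSet.isClosed
      have hcm : c ∈ U \ (F : Set ℂ) := ⟨hcU, by simpa using hc⟩
      have hset : (U \ (F : Set ℂ)) \ {c} = U \ ((insert c F : Finset ℂ) : Set ℂ) := by
        ext z
        simp only [Set.mem_sdiff, Finset.mem_coe, Finset.mem_insert, mem_singleton_iff]
        tauto
      have hd1 : DifferentiableOn ℂ f ((U \ (F : Set ℂ)) \ {c}) := by
        rw [hset]; exact hd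
      have hbd : ∃ V ∈ 𝓝 c, V ⊆ U \ (F : Set ℂ) ∧ BddAbove (norm ∘ f '' (V \ {c})) := by
        refine ⟨ball c r ∩ (U \ (F : Set ℂ)), ?_, inter_subset_right, C, ?_⟩
        · exact inter_mem (ball_mem_nhds c hr) (hopen.mem_nhds hcm)
        · rintro _ ⟨z, ⟨⟨hz1, hz2⟩, hz3⟩, rfl⟩
          apply hC z _ hz1
          rw [← hset]
          exact ⟨hz2, hz3⟩
      obtain ⟨V, hV, hVU, hVb⟩ := hbd
      have hdV : DifferentiableOn ℂ f (V \ {c}) :=
        hd1.mono (Set.sdiff_subset_sdiff_left hVU)
      have h1 := Complex.differentiableOn_update_limUnder_of_bddAbove hV hdV hVb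
      set g := Function.update f c (limUnder (𝓝[≠] c) f) with hg
      have hgd : DifferentiableOn ℂ g (U \ (F : Set ℂ)) := by
        intro z hz
        by_cases hzc : z = c
        · subst hzc
          exact (h1.differentiableAt hV).differentiableWithinAt
        · have h2 : DifferentiableAt ℂ f z := by
            apply hd1.differentiableAt
            apply (hopen.sdiff isClosed_singleton).mem_nhds
            exact ⟨hz, hzc⟩
          have h3 : g =ᶠ[𝓝 z] f := by
            have : {w : ℂ | w ≠ c} ∈ 𝓝 z := isOpen_ne.mem_nhds hzc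
            filter_upwards [this] with w hw
            exact Function.update_of_ne hw _ _
          exact (h2.congr_of_eventuallyEq h3).differentiableWithinAt
      obtain ⟨g', h2, h3⟩ := ih hgd (by
        intro c' hc' hc'U
        obtain ⟨r', hr', C', hC'⟩ := hb c' (Finset.mem_insert_of_mem hc') hc'U
        refine ⟨r', hr', max C' ‖g c‖, ?_⟩
        intro z hz hzr
        by_cases hzc : z = c
        · subst hzc
          exact le_max_right _ _
        · have : g z = f z := Function.update_of_ne hzc _ _
          rw [this]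
          refine le_trans (hC' z ?_ hzr) (le_max_left _ _)
          rw [← hset]
          exact ⟨hz, hzc⟩)
      refine ⟨g', h2, ?_⟩
      intro z hz
      rw [← hset] at hz
      rw [h3 hz.1]
      exact Function.update_of_ne hz.2 _ _
    · have hset : U \ (F : Set ℂ) = U \ ((insert c F : Finset ℂ) : Set ℂ) := by
        ext z
        simp only [Set.mem_sdiff, Finset.mem_coe, Finset.mem_insert]
        constructor
        · rintro ⟨h1, h2⟩
          refine ⟨h1, ?_⟩
          rintro (rfl | h)
          · exact hcU h1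
          · exact h2 h
        · rintro ⟨h1, h2⟩
          exact ⟨h1, fun h => h2 (Or.inr h)⟩
      obtain ⟨g, h1, h2⟩ := ih (f := f) (by rw [hset]; exact hd) (by
        intro c' hc' hc'U
        obtain ⟨r', hr', C', hC'⟩ := hb c' (Finset.mem_insert_of_mem hc') hc'U
        refine ⟨r', hr', C', ?_⟩
        rw [hset]
        exact hC')
      refine ⟨g, h1, ?_⟩
      rw [← hset]
      exact h2

/-- **Removable chords and points.** A function which is continuous on an open set `U` off a finite set
`F`, bounded near the points of `F`, and holomorphic off finitely many segments, extends to a function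
holomorphic on `U`. -/
theorem glue_segments_points {f : ℂ → ℂ} (S : Finset (ℂ × ℂ)) (F : Finset ℂ) {U : Set ℂ}
    (hU : IsOpen U) (hf : ContinuousOn f (U \ F))
    (hd : ∀ z ∈ U \ F, (∀ s ∈ S, z ∉ segment ℝ s.1 s.2) → DifferentiableAt ℂ f z)
    (hb : ∀ c ∈ F, c ∈ U → ∃ r > 0, ∃ C, ∀ z ∈ U \ F, dist z c < r → ‖f z‖ ≤ C) :
    ∃ g : ℂ → ℂ, DifferentiableOn ℂ g U ∧ EqOn g f (U \ F) :=
  remove_points F hU (glue_segments S (hU.sdiff F.finite_toSet.isClosed) hf hd) hb

/-- the union of finitely many segments -/
def segU (S : Finset (ℂ × ℂ)) : Set ℂ := ⋃ s ∈ S, segment ℝ s.1 s.2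

lemma isClosed_segU (S : Finset (ℂ × ℂ)) : IsClosed (segU S) := by
  unfold segU
  apply Set.Finite.isClosed_biUnion S.finite_toSet
  intro s _
  rw [segment_eq_image']
  exact (isCompact_Icc.image (by fun_prop)).isClosed

lemma mem_segU {S : Finset (ℂ × ℂ)} {z : ℂ} : z ∈ segU S ↔ ∃ s ∈ S, z ∈ segment ℝ s.1 s.2 := by
  unfold segU
  simp only [mem_iUnion, exists_prop]

/-- Limits: holomorphic off finitely many segments, locally uniform convergence there, and the limit is
continuous across the segments; then the limit is holomorphic. -/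
theorem glue_limit {ι : Type*} {φ : Filter ι} [NeBot φ] (S : Finset (ℂ × ℂ)) {U : Set ℂ}
    (hU : IsOpen U) {Fn : ι → ℂ → ℂ} {f : ℂ → ℂ}
    (hlim : TendstoLocallyUniformlyOn Fn f φ (U \ segU S))
    (hd : ∀ᶠ n in φ, DifferentiableOn ℂ (Fn n) (U \ segU S)) (hf : ContinuousOn f U) :
    DifferentiableOn ℂ f U := by
  have hopen : IsOpen (U \ segU S) := hU.sdiff (isClosed_segU S)
  have h1 : DifferentiableOn ℂ f (U \ segU S) := hlim.differentiableOn hd hopen
  apply glue_segments S hU hf
  intro z hz h
  apply h1.differentiableAt (hopen.mem_nhds ⟨hz, ?_⟩)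
  rw [mem_segU]
  rintro ⟨s, hs, hzs⟩
  exact h s hs hzs

end Pool.Agent.H98.W
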