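import Mathlib
import Pool.Agent.H69.NC.Osss
import Pool.Agent.H99.NC.Prob

set_option autoImplicit false

/-! # Worlds: product measure on bits and an increasing map to configurations (Route W)

A world is a finite set `E` of independent bits (bit `e` is present with probability `q e`) together
with an increasing map `ψ` from sets of bits to configurations (sets of open edges, or of black tiles).
A plate is a block of edges governed by one bit. -/

namespace Pool.Agent.H98.W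

open Finset
open Pool.Agent.H75.Perc Pool.Agent.H69.NC Pool.Agent.H69.NC.Osss84

variable {α β : Type*} [DecidableEq α] [DecidableEq β]

/-- Worlds. -/
structure World (β α : Type*) [DecidableEq β] [DecidableEq α] where
  E : Finset β
  q : β → ℝ
  wt : Wt q
  ψ : Finset β → Finset α
  mono : ∀ ζ ζ', ζ ⊆ ζ' → ψ ζ ⊆ ψ ζ'

namespace World

/-- probability of an event in a world -/
noncomputable def P (w : World β α) (A : Finset α → Prop) : ℝ := PQ w.q w.E (fun ζ => A (w.ψ ζ))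

variable (w : World β α) {A B C : Finset α → Prop}

lemma P_nonneg (A : Finset α → Prop) : 0 ≤ w.P A := PQ_nonneg w.wt _ _

lemma P_le_one (A : Finset α → Prop) : w.P A ≤ 1 := PQ_le_one w.wt _ _

lemma P_true : w.P (fun _ => True) = 1 := PQ_true w.q w.E

lemma P_not (A : Finset α → Prop) : w.P (fun ω => ¬ A ω) = 1 - w.P A := PQ_not w.q w.E _

lemma P_mono (h : ∀ ζ, ζ ⊆ w.E → A (w.ψ ζ) → B (w.ψ ζ)) : w.P A ≤ w.P B := PQ_mono w.wt h

lemma P_mono' (h : ∀ ω, A ω → B ω) : w.P A ≤ w.P B := w.P_mono fun _ _ => h _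

lemma P_congr (h : ∀ ζ, ζ ⊆ w.E → (A (w.ψ ζ) ↔ B (w.ψ ζ))) : w.P A = w.P B := PQ_congr h

lemma P_or_le (A B : Finset α → Prop) : w.P (fun ω => A ω ∨ B ω) ≤ w.P A + w.P B :=
  PQ_or_le w.wt _ _ _

lemma P_exists_le {ι : Type*} (I : Finset ι) (A : ι → Finset α → Prop) :
    w.P (fun ω => ∃ i ∈ I, A i ω) ≤ ∑ i ∈ I, w.P (A i) :=
  PQ_exists_le w.wt w.E I (fun i ζ => A i (w.ψ ζ))

lemma inc_comp (hA : Inc A) : Inc (fun ζ => A (w.ψ ζ)) := fun ζ ζ' h h' => hA _ _ (w.mono ζ ζ' h) h'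

/-- Harris' inequality in a world. -/
lemma harris (hA : Inc A) (hB : Inc B) : w.P A * w.P B ≤ w.P (fun ω => A ω ∧ B ω) :=
  PQ_harris w.wt w.E (w.inc_comp hA) (w.inc_comp hB)

lemma harris_prod {ι : Type*} (I : Finset ι) (A : ι → Finset α → Prop) (hA : ∀ i ∈ I, Inc (A i)) :
    ∏ i ∈ I, w.P (A i) ≤ w.P (fun ω => ∀ i ∈ I, A i ω) :=
  PQ_harris_prod w.wt w.E I (fun i ζ => A i (w.ψ ζ)) fun i hi => w.inc_comp (hA i hi)

/-- decreasing events -/
lemma harris_dec (hA : Inc (fun ω => ¬ A ω)) (hB : Inc (fun ω => ¬ B ω)) :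
    w.P A * w.P B ≤ w.P (fun ω => A ω ∧ B ω) := by
  have h1 := w.harris hA hB
  have hA' := w.P_not A
  have hB' := w.P_not B
  have h2 : w.P (fun ω => ¬ A ω ∧ ¬ B ω) = 1 - w.P (fun ω => A ω ∨ B ω) := by
    rw [← w.P_not]
    exact w.P_congr fun ζ _ => not_or.symm
  have h3 : w.P (fun ω => A ω ∨ B ω) + w.P (fun ω => A ω ∧ B ω) = w.P A + w.P B := by
    classical
    unfold P
    simp only [PQ_eq_ex]
    rw [← ex_add, ← ex_add]
    refine ex_congr fun ζ _ => ?_
    by_cases ha : A (w.ψ ζ) <;> by_cases hb : B (w.ψ ζ) <;> simp [ha, hb]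
  rw [hA', hB', h2] at h1
  nlinarith

/-- an increasing and a decreasing event are negatively correlated -/
lemma harris_neg (hA : Inc A) (hB : Inc (fun ω => ¬ B ω)) :
    w.P (fun ω => A ω ∧ B ω) ≤ w.P A * w.P B := by
  have h1 := w.harris hA hB
  rw [w.P_not] at h1
  have h3 : w.P (fun ω => A ω ∧ B ω) + w.P (fun ω => A ω ∧ ¬ B ω) = w.P A := by
    classical
    unfold P
    simp only [PQ_eq_ex]
    rw [← ex_add]
    refine ex_congr fun ζ _ => ?_
    by_cases ha : A (w.ψ ζ) <;> by_cases hb : B (w.ψ ζ) <;> simp [ha, hb]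
  nlinarith

end World

/-! ### Comparison of two worlds on the same bits -/

lemma pivB_congr {A : Finset α → Prop} {B η η' : Finset α} (h : η \ B = η' \ B) :
    PivB A B η ↔ PivB A B η' := by
  have h1 : η ∪ B = η' ∪ B := by
    rw [← sdiff_union_self_eq_union, h, sdiff_union_self_eq_union]
  unfold PivB
  rw [h, h1]

/-- Two maps that agree off the block `B` give probabilities of an increasing event that differ at
most by the probability that `B` is pivotal. -/
theorem diff_le_piv {q : β → ℝ} (hq : Wt q) {E : Finset β} {ψ ψ' : Finset β → Finset α}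
    {B : Finset α} (h : ∀ ζ, ζ ⊆ E → ψ ζ \ B = ψ' ζ \ B) {A : Finset α → Prop} (hA : Inc A) :
    |PQ q E (fun ζ => A (ψ ζ)) - PQ q E (fun ζ => A (ψ' ζ))| ≤
      PQ q E (fun ζ => PivB A B (ψ ζ)) := by
  classical
  simp only [PQ_eq_ex]
  have h1 : ∀ ζ, ζ ⊆ E → |(if A (ψ ζ) then (1 : ℝ) else 0) - (if A (ψ' ζ) then 1 else 0)| ≤
      if PivB A B (ψ ζ) then 1 else 0 := by
    intro ζ hζ
    have h2 := abs_le_piv hA B (h ζ hζ)
    simp only [pivB_congr (A := A) (h ζ hζ)]
    exact h2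
  rw [abs_le]
  constructor
  · have h2 : ex q E (fun ζ => if A (ψ' ζ) then (1 : ℝ) else 0) ≤
        ex q E (fun ζ => (if A (ψ ζ) then (1 : ℝ) else 0) + if PivB A B (ψ ζ) then 1 else 0) :=
      ex_mono hq fun ζ hζ => by
        have := (abs_le.mp (h1 ζ hζ)).1
        linarith
    rw [ex_add] at h2
    linarith
  · have h2 : ex q E (fun ζ => if A (ψ ζ) then (1 : ℝ) else 0) ≤
        ex q E (fun ζ => (if A (ψ' ζ) then (1 : ℝ) else 0) + if PivB A B (ψ ζ) then 1 else 0) :=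
      ex_mono hq fun ζ hζ => by
        have := (abs_le.mp (h1 ζ hζ)).2
        linarith
    rw [ex_add] at h2
    linarith

/-- **Telescoping.** -/
theorem telescope {q : β → ℝ} (hq : Wt q) {E : Finset β} (ψ : ℕ → Finset β → Finset α)
    (B : ℕ → Finset α) (n : ℕ) (h : ∀ k < n, ∀ ζ, ζ ⊆ E → ψ k ζ \ B k = ψ (k + 1) ζ \ B k)
    {A : Finset α → Prop} (hA : Inc A) :
    |PQ q E (fun ζ => A (ψ 0 ζ)) - PQ q E (fun ζ => A (ψ n ζ))| ≤
      ∑ k ∈ range n, PQ q E (fun ζ => PivB A (B k) (ψ k ζ)) := by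
  induction n with
  | zero => simp
  | succ n ih =>
    rw [sum_range_succ]
    have h1 := ih fun k hk => h k (by omega)
    have h2 := diff_le_piv hq (h n (Nat.lt_succ_self n)) hA
    have h3 := abs_sub_le (PQ q E (fun ζ => A (ψ 0 ζ))) (PQ q E (fun ζ => A (ψ n ζ)))
      (PQ q E (fun ζ => A (ψ (n + 1) ζ)))
    linarith

/-! ### Plates -/

section plates
variable {κ : Type*} [DecidableEq κ]

open Classical in
/-- Configuration with the plates `k ∈ K`: the block `blk k` is open iff the bit `inr k` is present,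
the edges off these blocks are open iff their own bit is present. -/
noncomputable def plate (blk : κ → Finset α) (E : Finset α) (K : Finset κ) (ζ : Finset (α ⊕ κ)) :
    Finset α :=
  E.filter (fun e => (∃ k ∈ K, e ∈ blk k ∧ Sum.inr k ∈ ζ) ∨
    ((∀ k ∈ K, e ∉ blk k) ∧ Sum.inl e ∈ ζ))

variable {blk : κ → Finset α} {E : Finset α} {K : Finset κ}

lemma mem_plate {ζ : Finset (α ⊕ κ)} {e : α} : e ∈ plate blk E K ζ ↔
    e ∈ E ∧ ((∃ k ∈ K, e ∈ blk k ∧ Sum.inr k ∈ ζ) ∨ ((∀ k ∈ K, e ∉ blk k) ∧ Sum.inl e ∈ ζ)) := by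
  unfold plate
  rw [mem_filter]

lemma plate_mono {ζ ζ' : Finset (α ⊕ κ)} (h : ζ ⊆ ζ') : plate blk E K ζ ⊆ plate blk E K ζ' := by
  intro e he
  rw [mem_plate] at he ⊢
  refine ⟨he.1, ?_⟩
  rcases he.2 with ⟨k, hk, h1, h2⟩ | ⟨h1, h2⟩
  · exact Or.inl ⟨k, hk, h1, h h2⟩
  · exact Or.inr ⟨h1, h h2⟩

lemma plate_subset (ζ : Finset (α ⊕ κ)) : plate blk E K ζ ⊆ E := by
  unfold plate
  exact filter_subset _ _

/-- adding the plate `k` changes the configuration only in its block -/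
lemma plate_insert (k : κ) (ζ : Finset (α ⊕ κ)) :
    plate blk E K ζ \ blk k = plate blk E (insert k K) ζ \ blk k := by
  ext e
  simp only [mem_sdiff, mem_plate, mem_insert]
  constructor
  · rintro ⟨⟨h0, h1 | h1⟩, h2⟩
    · obtain ⟨k', hk', h3, h4⟩ := h1
      exact ⟨⟨h0, Or.inl ⟨k', Or.inr hk', h3, h4⟩⟩, h2⟩
    · refine ⟨⟨h0, Or.inr ⟨?_, h1.2⟩⟩, h2⟩
      rintro k' (rfl | hk')
      · exact h2
      · exact h1.1 k' hk'
  · rintro ⟨⟨h0, h1 | h1⟩, h2⟩
    · obtain ⟨k', hk' | hk', h3, h4⟩ := h1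
      · exact absurd (hk' ▸ h3) h2
      · exact ⟨⟨h0, Or.inl ⟨k', hk', h3, h4⟩⟩, h2⟩
    · exact ⟨⟨h0, Or.inr ⟨fun k' hk' => h1.1 k' (Or.inr hk'), h1.2⟩⟩, h2⟩

/-- adding the plates of `K'`, all of whose blocks lie in `B`, changes the configuration only in `B` -/
lemma plate_union {K' : Finset κ} {B : Finset α} (h : ∀ k ∈ K', blk k ⊆ B) (ζ : Finset (α ⊕ κ)) :
    plate blk E K ζ \ B = plate blk E (K ∪ K') ζ \ B := by
  ext e
  simp only [mem_sdiff, mem_plate, mem_union]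
  constructor
  · rintro ⟨⟨h0, h1 | h1⟩, h2⟩
    · obtain ⟨k', hk', h3, h4⟩ := h1
      exact ⟨⟨h0, Or.inl ⟨k', Or.inl hk', h3, h4⟩⟩, h2⟩
    · refine ⟨⟨h0, Or.inr ⟨?_, h1.2⟩⟩, h2⟩
      rintro k' (hk' | hk')
      · exact h1.1 k' hk'
      · exact fun h3 => h2 (h k' hk' h3)
  · rintro ⟨⟨h0, h1 | h1⟩, h2⟩
    · obtain ⟨k', hk' | hk', h3, h4⟩ := h1
      · exact ⟨⟨h0, Or.inl ⟨k', hk', h3, h4⟩⟩, h2⟩
      · exact absurd (h k' hk' h3) h2
    · exact ⟨⟨h0, Or.inr ⟨fun k' hk' => h1.1 k' (Or.inl hk'), h1.2⟩⟩, h2⟩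

/-- the world with the plates of `K`; the plate `k` is open with probability `r k` -/
noncomputable def plateWorld (blk : κ → Finset α) (E : Finset α) (J K : Finset κ) (q : α → ℝ)
    (hq : Wt q) (r : κ → ℝ) (hr : Wt r) : World (α ⊕ κ) α where
  E := E.disjSum J
  q := Sum.elim q r
  wt := by
    rintro (e | k)
    · exact hq e
    · exact hr k
  ψ := plate blk E K
  mono := fun _ _ h => plate_mono h

/-- **Comparison of the natural world with a plates world**, in `n` steps: in the step `k` the plates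
`L k`, whose blocks lie in the chunk `B k`, are added. -/
theorem plates_telescope (blk : κ → Finset α) (E : Finset α) (J : Finset κ) (q : α → ℝ)
    (hq : Wt q) (r : κ → ℝ) (hr : Wt r) (K0 : Finset κ) (L : ℕ → Finset κ) (B : ℕ → Finset α)
    (n : ℕ) (hB : ∀ k < n, ∀ j ∈ L k, blk j ⊆ B k) {A : Finset α → Prop} (hA : Inc A) :
    |(plateWorld blk E J K0 q hq r hr).P A -
        (plateWorld blk E J (K0 ∪ (range n).biUnion L) q hq r hr).P A| ≤
      ∑ k ∈ range n,
        (plateWorld blk E J (K0 ∪ (range k).biUnion L) q hq r hr).P (PivB A (B k)) := by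
  have h := telescope (q := Sum.elim q r) (plateWorld blk E J K0 q hq r hr).wt
    (E := E.disjSum J) (fun k => plate blk E (K0 ∪ (range k).biUnion L)) B n (by
      intro k hk ζ _
      have h1 : K0 ∪ (range (k + 1)).biUnion L = (K0 ∪ (range k).biUnion L) ∪ L k := by
        rw [range_add_one, biUnion_insert]
        ext j
        simp only [mem_union]
        tauto
      show plate blk E (K0 ∪ (range k).biUnion L) ζ \ B k =
        plate blk E (K0 ∪ (range (k + 1)).biUnion L) ζ \ B k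
      rw [h1]
      exact plate_union (hB k hk) ζ) hA
  have h0 : K0 ∪ (range 0).biUnion L = K0 := by simp
  simp only [h0] at h
  exact h

end plates

/-! ### Independence -/

/-- events read in pairwise disjoint sets of bits are independent -/
theorem PQ_indep_fin {ι : Type*} {q : β → ℝ} {E : Finset β} (I : Finset ι)
    (D : ι → Finset β) (hD : ∀ i ∈ I, D i ⊆ E)
    (hd : ∀ i ∈ I, ∀ j ∈ I, i ≠ j → Disjoint (D i) (D j)) (A : ι → Finset β → Prop) :
    PQ q E (fun ζ => ∀ i ∈ I, A i (ζ ∩ D i)) = ∏ i ∈ I, PQ q E (fun ζ => A i (ζ ∩ D i)) := by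
  classical
  induction I using Finset.induction_on with
  | empty => simpa using PQ_true q E
  | insert i I hi ih =>
    rw [prod_insert hi, ← ih (fun j hj => hD j (mem_insert_of_mem hj))
      (fun j hj k hk => hd j (mem_insert_of_mem hj) k (mem_insert_of_mem hk))]
    set D2 : Finset β := I.biUnion D with hD2
    have h1 : D i ⊆ E := hD i (mem_insert_self i I)
    have h2 : D2 ⊆ E := by
      rw [hD2, biUnion_subset]
      exact fun j hj => hD j (mem_insert_of_mem hj)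
    have h12 : Disjoint (D i) D2 := by
      rw [hD2, disjoint_biUnion_right]
      intro j hj
      exact hd i (mem_insert_self i I) j (mem_insert_of_mem hj) fun h => hi (h ▸ hj)
    have key : ∀ ζ : Finset β, ∀ j ∈ I, ζ ∩ D2 ∩ D j = ζ ∩ D j := by
      intro ζ j hj
      rw [inter_assoc, inter_eq_right.mpr (subset_biUnion_of_mem D hj)]
    have e1 : PQ q E (fun ζ => ∀ j ∈ insert i I, A j (ζ ∩ D j)) =
        PQ q E (fun ζ => A i (ζ ∩ D i) ∧ (fun η => ∀ j ∈ I, A j (η ∩ D j)) (ζ ∩ D2)) := by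
      refine PQ_congr fun ζ _ => ?_
      constructor
      · intro h
        refine ⟨h i (mem_insert_self i I), fun j hj => ?_⟩
        rw [key ζ j hj]
        exact h j (mem_insert_of_mem hj)
      · rintro ⟨h3, h4⟩ j hj
        rcases mem_insert.mp hj with rfl | hj
        · exact h3
        · have := h4 j hj
          rwa [key ζ j hj] at this
    have e2 : PQ q E (fun ζ => ∀ j ∈ I, A j (ζ ∩ D j)) =
        PQ q E (fun ζ => (fun η => ∀ j ∈ I, A j (η ∩ D j)) (ζ ∩ D2)) := by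
      refine PQ_congr fun ζ _ => ?_
      constructor
      · intro h j hj
        show A j (ζ ∩ D2 ∩ D j)
        rw [key ζ j hj]
        exact h j hj
      · intro h j hj
        have := h j hj
        rwa [key ζ j hj] at this
    rw [e1, e2, PQ_indep h1 h2 h12 (A i) (fun η => ∀ j ∈ I, A j (η ∩ D j)), PQ_restrict h1,
      PQ_restrict h2 (fun η => ∀ j ∈ I, A j (η ∩ D j))]

namespace World

/-- **Independence in a world.** The event `A i` is read in the bits of `D i`; the sets `D i` are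
pairwise disjoint. -/
theorem indep {ι : Type*} (w : World β α) (I : Finset ι) (D : ι → Finset β)
    (hD : ∀ i ∈ I, D i ⊆ w.E) (hd : ∀ i ∈ I, ∀ j ∈ I, i ≠ j → Disjoint (D i) (D j))
    (A : ι → Finset α → Prop)
    (hA : ∀ i ∈ I, ∀ ζ, ζ ⊆ w.E → (A i (w.ψ ζ) ↔ A i (w.ψ (ζ ∩ D i)))) :
    w.P (fun ω => ∀ i ∈ I, A i ω) = ∏ i ∈ I, w.P (A i) := by
  have e1 : w.P (fun ω => ∀ i ∈ I, A i ω) =
      PQ w.q w.E (fun ζ => ∀ i ∈ I, (fun η => A i (w.ψ η)) (ζ ∩ D i)) := by
    refine PQ_congr fun ζ hζ => ?_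
    exact ⟨fun h i hi => (hA i hi ζ hζ).mp (h i hi), fun h i hi => (hA i hi ζ hζ).mpr (h i hi)⟩
  have e2 : ∀ i ∈ I, w.P (A i) = PQ w.q w.E (fun ζ => (fun η => A i (w.ψ η)) (ζ ∩ D i)) := by
    intro i hi
    exact PQ_congr fun ζ hζ => hA i hi ζ hζ
  rw [e1, PQ_indep_fin I D hD hd (fun i η => A i (w.ψ η))]
  exact (prod_congr rfl e2).symm

end World

section plates2
variable {κ : Type*} [DecidableEq κ] {blk : κ → Finset α} {E : Finset α} {J K : Finset κ}

open Classical in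
/-- the bits that govern the region `R` -/
noncomputable def bitsOf (blk : κ → Finset α) (E : Finset α) (J K : Finset κ) (R : Finset α) :
    Finset (α ⊕ κ) :=
  (E ∩ R).disjSum (J.filter fun k => k ∈ K ∧ ¬ Disjoint (blk k) R)

lemma bitsOf_subset (R : Finset α) : bitsOf blk E J K R ⊆ E.disjSum J := by
  intro x hx
  unfold bitsOf at hx
  rcases x with e | k
  · rw [inl_mem_disjSum] at hx ⊢
    exact (mem_inter.mp hx).1
  · rw [inr_mem_disjSum] at hx ⊢
    exact (mem_filter.mp hx).1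

lemma plate_inter (R : Finset α) {ζ : Finset (α ⊕ κ)} (hζ : ζ ⊆ E.disjSum J) :
    plate blk E K ζ ∩ R = plate blk E K (ζ ∩ bitsOf blk E J K R) ∩ R := by
  ext e
  simp only [mem_inter, mem_plate]
  constructor
  · rintro ⟨⟨h0, h1 | h1⟩, h2⟩
    · obtain ⟨k, hk, h3, h4⟩ := h1
      refine ⟨⟨h0, Or.inl ⟨k, hk, h3, h4, ?_⟩⟩, h2⟩
      unfold bitsOf
      rw [inr_mem_disjSum, mem_filter]
      have h5 := hζ h4
      rw [inr_mem_disjSum] at h5
      exact ⟨h5, hk, Finset.not_disjoint_iff.mpr ⟨e, h3, h2⟩⟩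
    · refine ⟨⟨h0, Or.inr ⟨h1.1, h1.2, ?_⟩⟩, h2⟩
      unfold bitsOf
      rw [inl_mem_disjSum, mem_inter]
      exact ⟨h0, h2⟩
  · rintro ⟨⟨h0, h1 | h1⟩, h2⟩
    · obtain ⟨k, hk, h3, h4, _⟩ := h1
      exact ⟨⟨h0, Or.inl ⟨k, hk, h3, h4⟩⟩, h2⟩
    · exact ⟨⟨h0, Or.inr ⟨h1.1, h1.2.1⟩⟩, h2⟩

lemma disjoint_bitsOf {R R' : Finset α} (hR : Disjoint R R')
    (hK : ∀ k ∈ K, Disjoint (blk k) R ∨ Disjoint (blk k) R') :
    Disjoint (bitsOf blk E J K R) (bitsOf blk E J K R') := by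
  rw [Finset.disjoint_left]
  intro x hx hx'
  unfold bitsOf at hx hx'
  rcases x with e | k
  · rw [inl_mem_disjSum, mem_inter] at hx hx'
    exact Finset.disjoint_left.mp hR hx.2 hx'.2
  · rw [inr_mem_disjSum, mem_filter] at hx hx'
    rcases hK k hx.2.1 with h | h
    · exact hx.2.2 h
    · exact hx'.2.2 h

/-- **Independence of the contents of disjoint regions**, no plate meeting two of them. -/
theorem plates_indep {ι : Type*} (q : α → ℝ) (hq : Wt q) (r : κ → ℝ) (hr : Wt r) (I : Finset ι)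
    (R : ι → Finset α) (hR : ∀ i ∈ I, ∀ j ∈ I, i ≠ j → Disjoint (R i) (R j))
    (hK : ∀ k ∈ K, ∀ i ∈ I, ∀ j ∈ I, i ≠ j → Disjoint (blk k) (R i) ∨ Disjoint (blk k) (R j))
    (A : ι → Finset α → Prop) (hA : ∀ i ∈ I, ∀ ω, A i ω ↔ A i (ω ∩ R i)) :
    (plateWorld blk E J K q hq r hr).P (fun ω => ∀ i ∈ I, A i ω) =
      ∏ i ∈ I, (plateWorld blk E J K q hq r hr).P (A i) := by
  apply World.indep (plateWorld blk E J K q hq r hr) I (fun i => bitsOf blk E J K (R i))
    (fun i _ => bitsOf_subset (R i))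
    (fun i hi j hj hij => disjoint_bitsOf (hR i hi j hj hij) fun k hk => hK k hk i hi j hj hij) A
  intro i hi ζ hζ
  show A i (plate blk E K ζ) ↔ A i (plate blk E K (ζ ∩ bitsOf blk E J K (R i)))
  rw [hA i hi (plate blk E K ζ), plate_inter (R i) hζ, ← hA i hi]

/-- **Decay**: the events `A i` are read in disjoint regions, no plate meets two of them, and each has
probability at least `c`; then the probability that none occurs is at most `(1 - c) ^ #I`. -/
theorem plates_decay {ι : Type*} (q : α → ℝ) (hq : Wt q) (r : κ → ℝ) (hr : Wt r) (I : Finset ι)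
    (R : ι → Finset α) (hR : ∀ i ∈ I, ∀ j ∈ I, i ≠ j → Disjoint (R i) (R j))
    (hK : ∀ k ∈ K, ∀ i ∈ I, ∀ j ∈ I, i ≠ j → Disjoint (blk k) (R i) ∨ Disjoint (blk k) (R j))
    (A : ι → Finset α → Prop) (hA : ∀ i ∈ I, ∀ ω, A i ω ↔ A i (ω ∩ R i)) {c : ℝ}
    (hc : ∀ i ∈ I, c ≤ (plateWorld blk E J K q hq r hr).P (A i)) :
    (plateWorld blk E J K q hq r hr).P (fun ω => ∀ i ∈ I, ¬ A i ω) ≤ (1 - c) ^ I.card := by
  rw [plates_indep q hq r hr I R hR hK (fun i ω => ¬ A i ω) fun i hi ω => not_congr (hA i hi ω)]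
  calc ∏ i ∈ I, (plateWorld blk E J K q hq r hr).P (fun ω => ¬ A i ω)
      ≤ ∏ _i ∈ I, (1 - c) := by
        refine prod_le_prod (fun i _ => World.P_nonneg _ _) fun i hi => ?_
        rw [World.P_not]
        linarith [hc i hi]
    _ = (1 - c) ^ I.card := by rw [prod_const]

/-- the law of an event read in a region without plates is the natural one -/
theorem plates_natural (q : α → ℝ) (hq : Wt q) (r : κ → ℝ) (hr : Wt r) {R : Finset α}
    (hRE : R ⊆ E) (hK : ∀ k ∈ K, Disjoint (blk k) R) {A : Finset α → Prop}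
    (hA : ∀ ω, A ω ↔ A (ω ∩ R)) :
    (plateWorld blk E J K q hq r hr).P A = PQ q R A := by
  have h1 : ∀ ζ : Finset (α ⊕ κ), ζ ⊆ E.disjSum J → plate blk E K ζ ∩ R =
      (E.filter fun e => Sum.inl e ∈ ζ) ∩ R := by
    intro ζ _
    ext e
    simp only [mem_inter, mem_plate, mem_filter]
    constructor
    · rintro ⟨⟨h0, h1 | h1⟩, h2⟩
      · obtain ⟨k, hk, h3, _⟩ := h1
        exact absurd h2 (Finset.disjoint_left.mp (hK k hk) h3)
      · exact ⟨⟨h0, h1.2⟩, h2⟩
    · rintro ⟨⟨h0, h1⟩, h2⟩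
      exact ⟨⟨h0, Or.inr ⟨fun k hk h3 => Finset.disjoint_left.mp (hK k hk) h3 h2, h1⟩⟩, h2⟩
  set Em : Finset (α ⊕ κ) := R.map Function.Embedding.inl with hEm
  have hEmE : Em ⊆ E.disjSum J := by
    intro x hx
    rw [hEm, mem_map] at hx
    obtain ⟨e, he, rfl⟩ := hx
    rw [Function.Embedding.inl_apply, inl_mem_disjSum]
    exact hRE he
  have h2 : (plateWorld blk E J K q hq r hr).P A = PQ (Sum.elim q r) (E.disjSum J)
      (fun ζ => (fun η => A ((R.filter fun e => Sum.inl e ∈ η))) (ζ ∩ Em)) := by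
    refine PQ_congr fun ζ hζ => ?_
    show A (plate blk E K ζ) ↔ A (R.filter fun e => Sum.inl e ∈ ζ ∩ Em)
    rw [hA (plate blk E K ζ), h1 ζ hζ]
    have h3 : (E.filter fun e => Sum.inl e ∈ ζ) ∩ R = R.filter fun e => Sum.inl e ∈ ζ ∩ Em := by
      ext e
      simp only [mem_inter, mem_filter, hEm, mem_map, Function.Embedding.inl_apply]
      constructor
      · rintro ⟨⟨_, h4⟩, h5⟩
        exact ⟨h5, h4, e, h5, rfl⟩
      · rintro ⟨h5, h4, _⟩
        exact ⟨⟨hRE h5, h4⟩, h5⟩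
    rw [h3]
  rw [h2, PQ_restrict hEmE (fun η => A ((R.filter fun e => Sum.inl e ∈ η))), hEm, PQ_map]
  refine PQ_congr fun ω hω => ?_
  have h3 : (R.filter fun e => Sum.inl e ∈ ω.map (Function.Embedding.inl : α ↪ α ⊕ κ)) = ω := by
    ext e
    simp only [mem_filter, mem_map, Function.Embedding.inl_apply, Sum.inl.injEq, exists_eq_right]
    exact ⟨fun h => h.2, fun h => ⟨hω h, h⟩⟩
  rw [h3]

end plates2

end Pool.Agent.H98.W
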