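import Mathlib
import Pool.Agent.H98.W.World
import Pool.Agent.H33.Q1.A.Local

set_option autoImplicit false
open Finset

/-! # Pivotal blocks near the boundary (Route W, group W-E)

`piv_arm` : a block `B` of labels near `z`, pivotal for the connection of two far vertices `s`, `t` in
`ω ∪ W`, where near `z` the wired labels `W` belong to one wired arc (or there are none): then there is an
open arm of `ω \ B` from distance `ρ` to distance `R`.
`piv_block_le` : its probability in a plates world whose annulus is natural. -/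

namespace Pool.Agent.H98.W

open Pool.Agent.H75.Perc hiding WL CT hh
open Pool.Agent.H75.TwoArm Pool.Agent.H75.Four Pool.Agent.H69.Q1 Pool.Agent.Q1
open Pool.Agent.H60.Q1 Pool.Agent.H20.Q1 Pool.Agent.H33.Q1 Pool.Agent.H69.NC

/-- a connection that uses the labels of `B` reaches an end of such a label without them -/
lemma co_split {w0 B : Finset (ℤ × ℤ)} {s t : ℤ × ℤ} (h : Co (w0 ∪ B) s t) :
    Co w0 s t ∨ ∃ p p', Co w0 s p ∧ IsUnit4 (p' - p) ∧ p + p' ∈ B := by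
  induction h with
  | refl => exact Or.inl (Co.refl _ _)
  | @tail b c _ hbc ih =>
    rcases ih with ih | ih
    · rcases mem_union.1 hbc.2 with h1 | h1
      · exact Or.inl (ih.tail ⟨hbc.1, h1⟩)
      · exact Or.inr ⟨b, c, ih, hbc.1, h1⟩
    · exact Or.inr ih

/-- **Pivotal block ⇒ one arm.** -/
theorem piv_arm {W ω B : Finset (ℤ × ℤ)} {z s t : ℤ × ℤ} {ρ R : ℤ}
    (hodd : ∀ l ∈ ω ∪ W, (l.1 + l.2) % 2 = 1) (hρR : ρ < R) (hB : B ⊆ BZ z ρ)
    (hs : Far z R s) (ht : Far z R t) {K : ℤ × ℤ → Prop} (hK : ∀ x y, K x → K y → Co W x y)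
    (hW : ∀ x y, IsUnit4 (y - x) → x + y ∈ W → x + y ∈ BZ z R → K x)
    (h1 : Co ((ω ∪ B) ∪ W) s t) (h2 : ¬ Co ((ω \ B) ∪ W) s t) : OA z ρ R (ω \ B) := by
  set w0 : Finset (ℤ × ℤ) := (ω \ B) ∪ W with hw0
  have hsub : (ω ∪ B) ∪ W ⊆ w0 ∪ B := by
    intro l hl
    simp only [hw0, mem_union, mem_sdiff] at hl ⊢
    tauto
  have h3 : Co (w0 ∪ B) s t := h1.mono hsub
  have hodd0 : ∀ l ∈ w0, (l.1 + l.2) % 2 = 1 := by
    intro l hl
    apply hodd
    simp only [hw0, mem_union, mem_sdiff] at hl ⊢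
    tauto
  rcases co_split h3 with h4 | ⟨p, p', hp1, hp2, hp3⟩
  · exact absurd h4 h2
  rcases co_split h3.symm with h4 | ⟨q, q', hq1, hq2, hq3⟩
  · exact absurd h4.symm h2
  have hpn : Near z ρ p := (near_of_bz hp2 (hB hp3)).1
  have hqn : Near z ρ q := (near_of_bz hq2 (hB hq3)).1
  by_contra hA
  rcases ball_local (K := K) hodd0 hpn hqn hρR (fun x y hx hy => (hK x y hx hy).mono (by
      rw [hw0]; exact subset_union_right)) (fun x y hxy hl hb _ => by
      rcases mem_union.1 hl with h5 | h5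
      · exact Or.inl h5
      · exact Or.inr (hW x y hxy h5 hb)) hA with h5 | h5 | h5
  · exact h2 ((hp1.trans h5).trans hq1.symm)
  · exact h5 t hq1.symm ht
  · exact h5 s hp1.symm hs

/-- an arm stays in the annulus -/
theorem OA_local {ω : Finset (ℤ × ℤ)} (hodd : ∀ l ∈ ω, (l.1 + l.2) % 2 = 1) {z : ℤ × ℤ} {ρ R : ℤ}
    (hρR : ρ < R) (h : OA z ρ R ω) : OA z ρ R (ω ∩ (BZ z R \ BZ z ρ)) := by
  obtain ⟨u, v, hu, hv, huv⟩ := h
  have hu' : ¬ Far z R u := near_or_far hρR hu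
  obtain ⟨x', h1, h2⟩ := first_far hodd huv hu' hv
  obtain ⟨b, h3, h4, h5⟩ := co_exit h2 hu (fun h6 => near_or_far hρR h6 h1)
  refine ⟨b, x', h3, h1, h5.mono ?_⟩
  intro l hl
  simp only [mem_inter, mem_sdiff] at hl ⊢
  exact ⟨hl.1.1, hl.1.2, hl.2⟩

lemma OA_mono {ω ω' : Finset (ℤ × ℤ)} (h : ω ⊆ ω') {z : ℤ × ℤ} {ρ R : ℤ} (hA : OA z ρ R ω) :
    OA z ρ R ω' := by
  obtain ⟨u, v, hu, hv, huv⟩ := hA
  exact ⟨u, v, hu, hv, huv.mono h⟩

variable {κ : Type*} [DecidableEq κ]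

/-- **One arm in a plates world whose annulus is natural.** `δ` is the universal constant of `OA_le`. -/
theorem OA_plates_le : ∃ δ : ℝ, 0 < δ ∧ δ < 1 ∧ ∀ (κ : Type) [DecidableEq κ]
    (blk : κ → Finset (ℤ × ℤ)) (E : Finset (ℤ × ℤ)) (J K : Finset κ) (q : ℤ × ℤ → ℝ) (hq : Wt q)
    (r : κ → ℝ) (hr : Wt r), (∀ e ∈ E, (e.1 + e.2) % 2 = 1) → (∀ e ∈ E, q e = 1 / 2) →
    ∀ (z : ℤ × ℤ) (ρ R : ℤ) (k : ℕ), 1 ≤ ρ → 4 ^ k * ρ ≤ R → ρ < R →
    (∀ j ∈ K, Disjoint (blk j) (BZ z R \ BZ z ρ)) →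
    (plateWorld blk E J K q hq r hr).P (OA z ρ R) ≤ (1 - δ) ^ k := by
  obtain ⟨δ, h0, h1, h⟩ := OA_le
  refine ⟨δ, h0, h1, ?_⟩
  intro κ _ blk E J K q hq r hr hE hqh z ρ R k hρ hR hρR hK
  set A : Finset (ℤ × ℤ) := E ∩ (BZ z R \ BZ z ρ) with hA
  have hAE : A ⊆ E := inter_subset_left
  have e1 : (plateWorld blk E J K q hq r hr).P (OA z ρ R) ≤
      (plateWorld blk E J K q hq r hr).P (fun ω => OA z ρ R (ω ∩ A)) := by
    apply World.P_mono
    intro ζ _ h2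
    have h3 : plate blk E K ζ ⊆ E := plate_subset ζ
    have h4 := OA_local (fun l hl => hE l (h3 hl)) hρR (show OA z ρ R (plate blk E K ζ) from h2)
    show OA z ρ R (plate blk E K ζ ∩ A)
    refine OA_mono ?_ h4
    intro l hl
    rw [hA]
    simp only [mem_inter] at hl ⊢
    exact ⟨hl.1, h3 hl.1, hl.2⟩
  have e2 : (plateWorld blk E J K q hq r hr).P (fun ω => OA z ρ R (ω ∩ A)) =
      PQ q A (fun ω => OA z ρ R (ω ∩ A)) := by
    apply plates_natural q hq r hr hAE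
    · intro j hj
      exact (hK j hj).mono_right inter_subset_right
    · intro ω
      rw [inter_assoc, inter_self]
  have e3 : PQ q A (fun ω => OA z ρ R (ω ∩ A)) = Pr A (OA z ρ R) := by
    rw [PQ_half fun e he => hqh e (hAE he)]
    refine Pr_congr fun ω hω => ?_
    rw [inter_eq_left.2 hω]
  rw [e2, e3] at e1
  exact e1.trans (h A (fun e he => hE e (hAE he)) z ρ R k hρ hR)

end Pool.Agent.H98.W
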