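import Mathlib
import Pool.Agent.H98.W.EndBlk
import Pool.Agent.H42.FM.Open
import Pool.Agent.H33.FM.Band
import Pool.Agent.H33.FM.Four

set_option autoImplicit false
open Finset

/-! # End blocks of a shape (Route W, group W-E)

A block of labels near a vertex `n` of the boundary walk of a shape, pivotal for the crossing `TT`, gives
an open arm around the vertex: `piv_end`. -/

namespace Pool.Agent.H98.W

open Pool.Agent.H75.Perc hiding WL CT hh EE sh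
open Pool.Agent.H75.TwoArm Pool.Agent.H75.Four Pool.Agent.H69.Q1 Pool.Agent.Q1
open Pool.Agent.Q1.M4 (Cell Good IsSide nextSide tail head PType Adj4 Conn4)
open Pool.Agent.H60.Q1 Pool.Agent.H20.Q1 Pool.Agent.H33.Q1 Pool.Agent.H69.NC
open Pool.Agent.H21.FM
open Pool.Agent.H42.FM (wv_far W0_LY arc_co1 arc_co3 v1_N side_N)

variable {S : Shape} {h : ℕ}

lemma wv0 (h : ℕ) (s : Cell × ℤ) : wv h s 0 = rvS h s := by
  unfold wv rvS
  simp

/-- the cells near a grid vertex -/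
lemma ct_near (hh : 0 < h) (s : Cell × ℤ) {l : ℤ × ℤ} (hl : l ∈ BZ (wv h s 0) h) :
    ((tail s).1 - 1 ≤ (ct (2 * h) (tt l)).1 ∧ (ct (2 * h) (tt l)).1 ≤ (tail s).1) ∧
      (tail s).2 - 1 ≤ (ct (2 * h) (tt l)).2 ∧ (ct (2 * h) (tt l)).2 ≤ (tail s).2 := by
  have hz : (0 : ℤ) < h := by exact_mod_cast hh
  have hn : (0 : ℤ) < 2 * h := by positivity
  rw [wv0] at hl
  unfold rvS at hl
  rw [mem_Bx] at hl
  simp only at hl
  obtain ⟨⟨a1, a2⟩, ⟨b1, b2⟩, ho⟩ := hl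
  set v := tail s
  obtain ⟨X, hX⟩ : ∃ X, l.1 + l.2 = 2 * X + 1 := ⟨(l.1 + l.2) / 2, by omega⟩
  obtain ⟨Y, hY⟩ : ∃ Y, l.2 - l.1 = 2 * Y + 1 := ⟨(l.2 - l.1) / 2, by omega⟩
  have ht : tt l = (X, Y) := by
    unfold tt
    refine Prod.ext ?_ ?_ <;> simp only <;> omega
  rw [ht]
  unfold ct
  simp only
  have e1 : (h : ℤ) * (v.1 - v.2) = h * v.1 - h * v.2 := by ring
  have e2 : (h : ℤ) * (v.1 + v.2) = h * v.1 + h * v.2 := by ring
  rw [e1] at a1 a2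
  rw [e2] at b1 b2
  refine ⟨⟨?_, ?_⟩, ?_, ?_⟩
  · rw [Int.le_ediv_iff_mul_le hn]
    have : (v.1 - 1) * (2 * (h : ℤ)) = 2 * (h * v.1) - 2 * h := by ring
    rw [this]; omega
  · rw [← Int.lt_add_one_iff, Int.ediv_lt_iff_lt_mul hn]
    have : (v.1 + 1) * (2 * (h : ℤ)) = 2 * (h * v.1) + 2 * h := by ring
    rw [this]; omega
  · rw [Int.le_ediv_iff_mul_le hn]
    have : (v.2 - 1) * (2 * (h : ℤ)) = 2 * (h * v.2) - 2 * h := by ring
    rw [this]; omega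
  · rw [← Int.lt_add_one_iff, Int.ediv_lt_iff_lt_mul hn]
    have : (v.2 + 1) * (2 * (h : ℤ)) = 2 * (h * v.2) + 2 * h := by ring
    rw [this]; omega

/-- a side between two cells near a grid vertex ends there -/
lemma side_vert {s' : Cell × ℤ} {v : ℤ × ℤ}
    (h1 : (v.1 - 1 ≤ s'.1.1 ∧ s'.1.1 ≤ v.1) ∧ v.2 - 1 ≤ s'.1.2 ∧ s'.1.2 ≤ v.2)
    (h2 : (v.1 - 1 ≤ (s'.1 + dir (s'.2 - 1)).1 ∧ (s'.1 + dir (s'.2 - 1)).1 ≤ v.1) ∧
      v.2 - 1 ≤ (s'.1 + dir (s'.2 - 1)).2 ∧ (s'.1 + dir (s'.2 - 1)).2 ≤ v.2) :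
    tail s' = v ∨ head s' = v := by
  obtain ⟨⟨a, b⟩, k⟩ := s'
  obtain ⟨v1, v2⟩ := v
  unfold head
  unfold tail
  simp only at h1 h2 ⊢
  rcases dir_cases k with ⟨i, e⟩ | ⟨i, e⟩ | ⟨i, e⟩ | ⟨i, e⟩ <;>
  rcases dir_cases (k - 1) with ⟨j, f⟩ | ⟨j, f⟩ | ⟨j, f⟩ | ⟨j, f⟩ <;>
  first
  | (exfalso; omega)
  | (rw [f] at h2
     rw [e]
     simp [i] at h2 ⊢
     omega)

/-- **the outer layers near a grid vertex** -/
theorem LY_vert (hh : 0 < h) {s s' : Cell × ℤ} {l : ℤ × ℤ} (hl : l ∈ LY (2 * h) s')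
    (hB : l ∈ BZ (wv h s 0) (h - 1)) : tail s' = tail s ∨ head s' = tail s := by
  have hn : (0 : ℤ) < 2 * h := by positivity
  rw [mem_LY hn] at hl
  obtain ⟨hodd, e1, e2⟩ := hl
  set l' := l + Pool.Agent.H42.FM.sh (-dir (s'.2 - 1)) with hl'
  have ht' : tt l' = tt l - dir (s'.2 - 1) := by
    rw [hl', Pool.Agent.H42.FM.tt_sh hodd]
    exact (sub_eq_add_neg _ _).symm
  have hl'B : l' ∈ BZ (wv h s 0) h := Pool.Agent.H44.FM.BR_sh hB _
  have hlB : l ∈ BZ (wv h s 0) h := Pool.Agent.H20.Q1.BR_mono (by omega) hB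
  have c1 := ct_near hh s hlB
  have c2 := ct_near hh s hl'B
  rw [ht', e2] at c2
  rw [e1] at c1
  exact side_vert c2 c1

/-- the index of a side at a vertex of the walk -/
lemma idx_vert {i n : ℕ} (hi : i < S.N) (hn0 : 0 < n) (hn : n < S.N)
    (h : tail (S.P.side i) = tail (S.P.side n) ∨ head (S.P.side i) = tail (S.P.side n)) :
    i = n ∨ i + 1 = n := by
  rcases h with h | h
  · have h2 := Pool.Agent.Q1.M4.tail_inj S.P.good (isSide_side' S.P i) (isSide_side' S.P n) h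
    exact Or.inl (S.P.inj _ hi _ hn h2.1 h2.2)
  · right
    rw [← Pool.Agent.Q1.M4.head_eq_tail_next (Q := S.P.Q), ← side_succ'] at h
    have h2 := Pool.Agent.Q1.M4.tail_inj S.P.good (isSide_side' S.P (i + 1)) (isSide_side' S.P n) h
    by_cases h3 : i + 1 < S.N
    · exact S.P.inj _ h3 _ hn h2.1 h2.2
    · exfalso
      have h4 : i + 1 = S.N := by omega
      have h6 : S.P.side (i + 1) = S.P.side S.P.N := by rw [h4]
      have h7 : S.P.side S.P.N = ((S.P.side 0).1, (S.P.side 0).2 + 4) := side_N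
      obtain ⟨h8, h9⟩ := h2
      rw [h6, h7] at h8 h9
      simp only at h8 h9
      have hN : 0 < S.P.N := (Nat.zero_le _).trans_lt S.P.hmN
      have h10 : ((S.P.side 0).2 - (S.P.side n).2) % 4 = 0 := by omega
      have := S.P.inj 0 hN n hn h8 h10
      omega

/-- an end of a label of a wired layer is connected to the tail of the side -/
lemma LY_co {W : Finset (ℤ × ℤ)} {s : Cell × ℤ} (hh : 0 < h) (hW : LY (2 * h) s ⊆ W) {x y : ℤ × ℤ}
    (hu : IsUnit4 (y - x)) (hl : x + y ∈ LY (2 * h) s) : Co W (wv h s 0) x := by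
  have hn : (0 : ℤ) < 2 * h := by positivity
  obtain ⟨j, ⟨h0, h1⟩, he⟩ := (mem_LY' hn).1 hl
  have h2 := co_tail_ot hW h0 h1
  have h3 : lt (ot (2 * h) s j) ∈ W := by rw [← he]; exact hW hl
  rw [wv0]
  refine h2.trans (co_self h3 (Or.inl rfl) ?_)
  rw [← he]
  rcases ends_of_add hu rfl with g | g
  · exact Or.inl g.1
  · exact Or.inr g.1

/-- the vertex of the walk at which an end block is placed: the two sides there are of one arc -/
def Reg (S : Shape) (n : ℕ) : Prop :=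
  (0 < n ∧ n < S.N) ∧ ((S.Fr (n - 1) ∧ S.Fr n) ∨ (S.m2 < n ∧ n < S.m3) ∨ S.m4 < n)

/-- the vertices at which the wired labels end -/
def Kn (S : Shape) (h n : ℕ) (x : ℤ × ℤ) : Prop :=
  (S.m2 < n ∧ n < S.m3 ∧ Co (W0 S h) x (v3 S h)) ∨ (S.m4 < n ∧ Co (W0 S h) x (v1 S h))

lemma Kn_co {n : ℕ} {x y : ℤ × ℤ} (hx : Kn S h n x) (hy : Kn S h n y) : Co (W0 S h) x y := by
  have h34 : S.m3 < S.m4 := S.h34
  rcases hx with ⟨a1, a2, a3⟩ | ⟨a1, a2⟩ <;> rcases hy with ⟨b1, b2, b3⟩ | ⟨b1, b2⟩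
  · exact a3.trans b3.symm
  · omega
  · omega
  · exact a2.trans b2.symm

theorem Kn_of {n : ℕ} (hh : 0 < h) (hn : Reg S n) {x y : ℤ × ℤ} (hu : IsUnit4 (y - x))
    (hW : x + y ∈ W0 S h) (hB : x + y ∈ BZ (wv h (S.P.side n) 0) (h - 1)) : Kn S h n x := by
  obtain ⟨i, hi, hl⟩ := Pool.Agent.H42.FM.mem_W0.1 hW
  have h02 := S.h02
  have h23 := S.h23
  have h34 : S.m3 < S.m4 := S.h34
  have hmN : S.m4 < S.N := S.P.hmN
  obtain ⟨⟨n0, n1⟩, hn⟩ := hn
  have hiN : i < S.N := by omega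
  have hx := idx_vert hiN n0 n1 (LY_vert hh hl hB)
  have hc := LY_co (W := W0 S h) hh (W0_LY hi) hu hl
  rcases hn with ⟨h1, h2⟩ | h1 | h1
  · exfalso
    unfold Shape.Fr at h1 h2
    omega
  · refine Or.inl ⟨h1.1, h1.2, hc.symm.trans ?_⟩
    exact arc_co3 hh (by omega) (by omega) (Nat.zero_le _)
  · refine Or.inr ⟨h1, hc.symm.trans ?_⟩
    exact arc_co1 hh (by omega) (by omega) (Nat.zero_le _)

/-- **An end block that is pivotal for the crossing of a shape has an open arm.** -/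
theorem piv_end {n : ℕ} (hh : 0 < h) (hn : Reg S n) {B ω : Finset (ℤ × ℤ)} (hω : ω ⊆ EE S h)
    {ρ R : ℤ} (hρR : ρ < R) (hR : R ≤ h - 1) (hB : B ⊆ BZ (wv h (S.P.side n) 0) ρ)
    (h1 : PivB (TT S h) B ω) : OA (wv h (S.P.side n) 0) ρ R (ω \ B) := by
  have h02 := S.h02
  have h23 := S.h23
  have h34 : S.m3 < S.m4 := S.h34
  have hmN : S.m4 < S.N := S.P.hmN
  have hnn := hn
  obtain ⟨⟨n0, n1⟩, hn⟩ := hn
  have hhz : (0 : ℤ) < 2 * h := by positivity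
  have hf : ∀ i, i < S.N → i ≠ n → Far (wv h (S.P.side n) 0) R (wv h (S.P.side i) 0) := by
    intro i hi hne
    have := wv_far hh (S := S) (i := n) (j := i) n1 hi (Ne.symm hne)
    unfold Far at this ⊢
    omega
  have h3n : S.m3 ≠ n := by
    rintro rfl
    rcases hn with ⟨a, b⟩ | a | a
    · unfold Shape.Fr at a b; omega
    · omega
    · omega
  refine piv_arm (W := W0 S h) (s := v3 S h) (t := v1 S h) (K := Kn S h n) ?_ hρR hB
    (hf _ (by omega) h3n) (hf _ (by omega) (by omega)) (fun x y hx hy => Kn_co hx hy) ?_ h1.1 h1.2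
  · intro l hl
    rcases mem_union.1 hl with h2 | h2
    · exact ((mem_TL hhz).1 (hω h2)).1
    · obtain ⟨i, -, h3⟩ := Pool.Agent.H42.FM.mem_W0.1 h2
      exact ((mem_LY hhz).1 h3).1
  · intro x y hu hW hb
    exact Kn_of hh hnn hu hW (Pool.Agent.H20.Q1.BR_mono hR hb)

end Pool.Agent.H98.W
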