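import Mathlib
import Pool.Agent.H98.W.EndBlk2
import Pool.Agent.H58.W.Coin

set_option autoImplicit false
open Finset

/-! # End blocks in coin models (Route W, group W-E)

`PB_prod` : independence of finitely many sets without common blocks.
`PB_OA_prod` : one arm through finitely many separated annuli.
`PB_OA_nat` : one arm through a natural annulus.
`PB_piv_end` : a pivotal end block of a shape has an arm. -/

namespace Pool.Agent.H98.W

open Pool.Agent.H75.Perc hiding WL CT hh EE sh PB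
open Pool.Agent.H75.TwoArm Pool.Agent.H75.Four Pool.Agent.H69.Q1 Pool.Agent.Q1
open Pool.Agent.Q1.M4 (Cell Good IsSide nextSide tail head PType Adj4 Conn4)
open Pool.Agent.H60.Q1 Pool.Agent.H20.Q1 Pool.Agent.H33.Q1 Pool.Agent.H69.NC
open Pool.Agent.H21.FM Pool.Agent.H58.W

section coin

variable {α β : Type*} [DecidableEq α] [DecidableEq β]

/-- **Independence** of finitely many sets of labels without common blocks. -/
theorem PB_prod {ι : Type*} [DecidableEq ι] {E : Finset α} {b : α → β} (F : ι → Finset α)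
    (A : ι → Finset α → Prop) (I : Finset ι) (hF : ∀ i ∈ I, F i ⊆ E)
    (hs : ∀ i ∈ I, ∀ j ∈ I, i ≠ j → Sep b (F i) (F j)) :
    PB E b (fun ω => ∀ i ∈ I, A i (ω ∩ F i)) = ∏ i ∈ I, PB (F i) b (A i) := by
  induction I using Finset.induction_on with
  | empty => simp
  | insert i I hi ih =>
    rw [prod_insert hi, ← ih (fun j hj => hF j (mem_insert_of_mem hj))
      (fun j hj k hk => hs j (mem_insert_of_mem hj) k (mem_insert_of_mem hk))]
    set G : Finset α := I.biUnion F with hG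
    have hGE : G ⊆ E := by
      intro x hx
      obtain ⟨j, hj, h⟩ := mem_biUnion.1 hx
      exact hF j (mem_insert_of_mem hj) h
    have hsep : Sep b (F i) G := by
      intro l hl l' hl'
      obtain ⟨j, hj, h⟩ := mem_biUnion.1 hl'
      exact hs i (mem_insert_self _ _) j (mem_insert_of_mem hj) (fun e => hi (e ▸ hj)) l hl l' h
    have e1 : PB E b (fun ω => ∀ j ∈ insert i I, A j (ω ∩ F j)) =
        PB E b (fun ω => A i (ω ∩ F i) ∧ (fun η => ∀ j ∈ I, A j (η ∩ F j)) (ω ∩ G)) := by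
      refine PB_congr fun ω _ => ?_
      have e2 : ∀ j ∈ I, ω ∩ G ∩ F j = ω ∩ F j := by
        intro j hj
        rw [inter_assoc, inter_eq_right.2 (show F j ⊆ G from subset_biUnion_of_mem F hj)]
      constructor
      · intro h
        refine ⟨h i (mem_insert_self _ _), fun j hj => ?_⟩
        rw [e2 j hj]
        exact h j (mem_insert_of_mem hj)
      · rintro ⟨h1, h2⟩ j hj
        rcases mem_insert.1 hj with rfl | hj
        · exact h1
        · have := h2 j hj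
          rwa [e2 j hj] at this
    have e3 : PB E b (fun ω => ∀ j ∈ I, A j (ω ∩ F j)) =
        PB G b (fun η => ∀ j ∈ I, A j (η ∩ F j)) := by
      rw [← PB_restrict hGE]
      refine PB_congr fun ω _ => ?_
      refine forall₂_congr fun j hj => ?_
      rw [inter_assoc, inter_eq_right.2 (show F j ⊆ G from subset_biUnion_of_mem F hj)]
    rw [e1, e3]
    exact PB_indep (hF i (mem_insert_self _ _)) hGE hsep (A i) (fun η => ∀ j ∈ I, A j (η ∩ F j))

theorem PB_prod_le {ι : Type*} [DecidableEq ι] {E : Finset α} {b : α → β} (F : ι → Finset α)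
    (A : ι → Finset α → Prop) (I : Finset ι) (hF : ∀ i ∈ I, F i ⊆ E)
    (hs : ∀ i ∈ I, ∀ j ∈ I, i ≠ j → Sep b (F i) (F j)) {c : ℝ}
    (hc : ∀ i ∈ I, PB (F i) b (A i) ≤ c) :
    PB E b (fun ω => ∀ i ∈ I, A i (ω ∩ F i)) ≤ c ^ I.card := by
  rw [PB_prod F A I hF hs, ← prod_const]
  exact prod_le_prod (fun i _ => PB_nonneg _ _ _) hc

end coin

/-! ### Arms -/

/-- the labels of an annulus -/
noncomputable abbrev An (z : ℤ × ℤ) (ρ R : ℤ) : Finset (ℤ × ℤ) := BZ z R \ BZ z ρ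

lemma OA_radii {z : ℤ × ℤ} {ρ R r r' : ℤ} (h1 : ρ ≤ r) (h2 : r' ≤ R) {ω : Finset (ℤ × ℤ)}
    (h : OA z ρ R ω) : OA z r r' ω := by
  obtain ⟨u, v, hu, hv, huv⟩ := h
  refine ⟨u, v, ?_, ?_, huv⟩
  · unfold Near at hu ⊢
    omega
  · unfold Far at hv ⊢
    omega

variable {β : Type*} [DecidableEq β]

/-- **One arm through separated annuli.** -/
theorem PB_OA_prod {ι : Type*} [DecidableEq ι] {E : Finset (ℤ × ℤ)} {b : ℤ × ℤ → β}
    (hE : ∀ e ∈ E, (e.1 + e.2) % 2 = 1) {z : ℤ × ℤ} {ρ R : ℤ} (I : Finset ι) (r r' : ι → ℤ)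
    (hr : ∀ i ∈ I, ρ ≤ r i ∧ r i < r' i ∧ r' i ≤ R)
    (hs : ∀ i ∈ I, ∀ j ∈ I, i ≠ j → Sep b (E ∩ An z (r i) (r' i)) (E ∩ An z (r j) (r' j)))
    {c : ℝ} (hc : ∀ i ∈ I, PB (E ∩ An z (r i) (r' i)) b (OA z (r i) (r' i)) ≤ c) :
    PB E b (OA z ρ R) ≤ c ^ I.card := by
  refine le_trans (PB_mono ?_) (PB_prod_le (fun i => E ∩ An z (r i) (r' i))
    (fun i => OA z (r i) (r' i)) I (fun i _ => inter_subset_left) hs hc)
  intro ω hω h i hi
  obtain ⟨h1, h2, h3⟩ := hr i hi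
  have h4 := OA_local (fun l hl => hE l (hω hl)) h2 (OA_radii h1 h3 h)
  refine OA_mono ?_ h4
  intro l hl
  rw [mem_inter] at hl
  rw [mem_inter, mem_inter]
  exact ⟨hl.1, hω hl.1, hl.2⟩

/-- **One arm through a natural annulus.** -/
theorem PB_OA_nat : ∃ δ : ℝ, 0 < δ ∧ δ < 1 ∧ ∀ (β : Type) [DecidableEq β] (E : Finset (ℤ × ℤ))
    (b : ℤ × ℤ → β), (∀ e ∈ E, (e.1 + e.2) % 2 = 1) →
    ∀ (z : ℤ × ℤ) (ρ R : ℤ) (k : ℕ), 1 ≤ ρ → 4 ^ k * ρ ≤ R → ρ < R →
    (∀ e ∈ E ∩ An z ρ R, ∀ e' ∈ E ∩ An z ρ R, b e = b e' → e = e') →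
    PB E b (OA z ρ R) ≤ (1 - δ) ^ k := by
  obtain ⟨δ, h0, h1, h⟩ := OA_le
  refine ⟨δ, h0, h1, ?_⟩
  intro β _ E b hE z ρ R k hρ hR hρR hK
  set A : Finset (ℤ × ℤ) := E ∩ An z ρ R with hA
  have hAE : A ⊆ E := inter_subset_left
  have e1 : PB E b (OA z ρ R) ≤ PB E b (fun ω => OA z ρ R (ω ∩ A)) := by
    refine PB_mono fun ω hω h2 => ?_
    refine OA_mono ?_ (OA_local (fun l hl => hE l (hω hl)) hρR h2)
    intro l hl
    rw [mem_inter] at hl
    rw [hA, mem_inter, mem_inter]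
    exact ⟨hl.1, hω hl.1, hl.2⟩
  rw [PB_restrict hAE, PB_inj hK] at e1
  exact e1.trans (h A (fun e he => hE e (hAE he)) z ρ R k hρ hR)

/-- **A pivotal end block of a shape has an arm.** -/
theorem PB_piv_end {S : Shape} {h n : ℕ} (hh : 0 < h) (hn : Reg S n) (b : ℤ × ℤ → β)
    {B : Finset (ℤ × ℤ)} {ρ R : ℤ} (hρR : ρ < R) (hR : R ≤ h - 1)
    (hB : B ⊆ BZ (wv h (S.P.side n) 0) ρ) :
    PB (EE S h) b (PivB (TT S h) B) ≤ PB (EE S h) b (OA (wv h (S.P.side n) 0) ρ R) :=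
  PB_mono fun _ hω h1 => OA_mono sdiff_subset (piv_end hh hn hω hρR hR hB h1)

/-- **End block, natural annulus.** -/
theorem PB_end_nat : ∃ δ : ℝ, 0 < δ ∧ δ < 1 ∧ ∀ (β : Type) [DecidableEq β] (S : Shape) (h n : ℕ)
    (b : ℤ × ℤ → β) (B : Finset (ℤ × ℤ)) (ρ R : ℤ) (k : ℕ), 0 < h → Reg S n → 1 ≤ ρ →
    4 ^ k * ρ ≤ R → ρ < R → R ≤ h - 1 → B ⊆ BZ (wv h (S.P.side n) 0) ρ →
    (∀ e ∈ EE S h ∩ An (wv h (S.P.side n) 0) ρ R, ∀ e' ∈ EE S h ∩ An (wv h (S.P.side n) 0) ρ R,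
      b e = b e' → e = e') →
    PB (EE S h) b (PivB (TT S h) B) ≤ (1 - δ) ^ k := by
  obtain ⟨δ, h0, h1, h⟩ := PB_OA_nat
  refine ⟨δ, h0, h1, ?_⟩
  intro β _ S h' n b B ρ R k hh hn hρ hk hρR hR hB hb
  refine (PB_piv_end hh hn b hρR hR hB).trans (h β _ b ?_ _ ρ R k hρ hk hρR hb)
  intro e he
  exact ((mem_TL (by positivity)).1 he).1

end Pool.Agent.H98.W
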