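import Mathlib
import Pool.Agent.H98.W.EndBlk2

set_option autoImplicit false
open Finset

/-! # Regular boundary vertices of a shape (Route W, group W-E)

`exists_reg` : a grid vertex with at least two of its four cells inside and at least one outside of the
polygon is a vertex of the boundary walk, and it is not a mark. -/

namespace Pool.Agent.H98.W

open Pool.Agent.H75.Perc hiding WL CT hh EE sh PB
open Pool.Agent.H75.TwoArm Pool.Agent.H75.Four Pool.Agent.H69.Q1 Pool.Agent.Q1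
open Pool.Agent.Q1.M4 (Cell Good IsSide nextSide tail head PType Adj4 Conn4)
open Pool.Agent.H33.Q1 Pool.Agent.H21.FM
open Pool.Agent.H44.FM (Cv cv_side)

/-- the cell `c` is one of the four cells around the grid vertex `v` -/
def Ard (v c : ℤ × ℤ) : Prop := (v.1 - 1 ≤ c.1 ∧ c.1 ≤ v.1) ∧ (v.2 - 1 ≤ c.2 ∧ c.2 ≤ v.2)

lemma ard_four {s : Cell × ℤ} {c : Cell} (h : Ard (tail s) c) :
    c = s.1 ∨ c = s.1 - dir (s.2 + 1) ∨ c = s.1 - dir s.2 ∨ c = s.1 - dir (s.2 + 1) - dir s.2 := by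
  obtain ⟨⟨a, b⟩, k⟩ := s
  obtain ⟨c1, c2⟩ := c
  unfold Ard tail at h
  simp only at h ⊢
  rcases dir_cases k with ⟨i, e⟩ | ⟨i, e⟩ | ⟨i, e⟩ | ⟨i, e⟩ <;>
  rcases dir_cases (k + 1) with ⟨j, f⟩ | ⟨j, f⟩ | ⟨j, f⟩ | ⟨j, f⟩ <;>
  first
  | (exfalso; omega)
  | (rw [e, f]
     simp [i, Prod.ext_iff] at h ⊢
     omega)

/-- a vertex with a cell inside and a cell outside is the tail of a side -/
theorem exists_side {Q : Finset Cell} {v c c' : Cell} (h : Ard v c) (h' : Ard v c') (hc : c ∈ Q)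
    (hc' : c' ∉ Q) : ∃ s, IsSide Q s ∧ tail s = v := by
  obtain ⟨v1, v2⟩ := v
  have key : ∀ k : ℤ, ∀ d : Cell, tail (d, k) = (v1, v2) → d ∈ Q → d + dir (k - 1) ∉ Q →
      ∃ s, IsSide Q s ∧ tail s = (v1, v2) := fun k d h1 h2 h3 => ⟨(d, k), ⟨h2, h3⟩, h1⟩
  have t0 : tail (((v1, v2) : Cell), (0 : ℤ)) = (v1, v2) := by simp [tail]
  have t1 : tail (((v1 - 1, v2) : Cell), (1 : ℤ)) = (v1, v2) := by simp [tail]
  have t2 : tail (((v1 - 1, v2 - 1) : Cell), (2 : ℤ)) = (v1, v2) := by simp [tail]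
  have t3 : tail (((v1, v2 - 1) : Cell), (3 : ℤ)) = (v1, v2) := by simp [tail]
  have d0 : ((v1, v2) : Cell) + dir (0 - 1) = (v1, v2 - 1) := by
    rcases dir_cases (0 - 1 : ℤ) with ⟨i, e⟩ | ⟨i, e⟩ | ⟨i, e⟩ | ⟨i, e⟩
    · exfalso; omega
    · exfalso; omega
    · exfalso; omega
    · rw [e]; simp [Prod.ext_iff]; omega
  have d1 : ((v1 - 1, v2) : Cell) + dir (1 - 1) = (v1, v2) := by
    rcases dir_cases (1 - 1 : ℤ) with ⟨i, e⟩ | ⟨i, e⟩ | ⟨i, e⟩ | ⟨i, e⟩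
    · rw [e]; simp [Prod.ext_iff]
    · exfalso; omega
    · exfalso; omega
    · exfalso; omega
  have d2 : ((v1 - 1, v2 - 1) : Cell) + dir (2 - 1) = (v1 - 1, v2) := by
    rcases dir_cases (2 - 1 : ℤ) with ⟨i, e⟩ | ⟨i, e⟩ | ⟨i, e⟩ | ⟨i, e⟩
    · exfalso; omega
    · rw [e]; simp [Prod.ext_iff]
    · exfalso; omega
    · exfalso; omega
  have d3 : ((v1, v2 - 1) : Cell) + dir (3 - 1) = (v1 - 1, v2 - 1) := by
    rcases dir_cases (3 - 1 : ℤ) with ⟨i, e⟩ | ⟨i, e⟩ | ⟨i, e⟩ | ⟨i, e⟩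
    · exfalso; omega
    · exfalso; omega
    · rw [e]; simp [Prod.ext_iff]; omega
    · exfalso; omega
  have k0 := key 0 (v1, v2) t0
  have k1 := key 1 (v1 - 1, v2) t1
  have k2 := key 2 (v1 - 1, v2 - 1) t2
  have k3 := key 3 (v1, v2 - 1) t3
  rw [d0] at k0
  rw [d1] at k1
  rw [d2] at k2
  rw [d3] at k3
  have hin : ∀ d : Cell, Ard (v1, v2) d → d = (v1, v2) ∨ d = (v1 - 1, v2) ∨ d = (v1 - 1, v2 - 1) ∨
      d = (v1, v2 - 1) := by
    rintro ⟨d1, d2⟩ hd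
    unfold Ard at hd
    simp only [Prod.ext_iff] at hd ⊢
    omega
  by_contra hcon
  have n0 : ((v1, v2) : Cell) ∈ Q → ((v1, v2 - 1) : Cell) ∈ Q := fun a => by
    by_contra b; exact hcon (k0 a b)
  have n1 : ((v1 - 1, v2) : Cell) ∈ Q → ((v1, v2) : Cell) ∈ Q := fun a => by
    by_contra b; exact hcon (k1 a b)
  have n2 : ((v1 - 1, v2 - 1) : Cell) ∈ Q → ((v1 - 1, v2) : Cell) ∈ Q := fun a => by
    by_contra b; exact hcon (k2 a b)
  have n3 : ((v1, v2 - 1) : Cell) ∈ Q → ((v1 - 1, v2 - 1) : Cell) ∈ Q := fun a => by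
    by_contra b; exact hcon (k3 a b)
  rcases hin c h with rfl | rfl | rfl | rfl <;> rcases hin c' h' with rfl | rfl | rfl | rfl <;>
    tauto

/-- **Regular vertices.** -/
theorem exists_reg (S : Shape) {v c c' c'' : Cell} (h1 : Ard v c) (h2 : Ard v c') (h3 : Ard v c'')
    (hc : c ∈ S.P.Q) (hc' : c' ∈ S.P.Q) (hne : c ≠ c') (hc'' : c'' ∉ S.P.Q) :
    ∃ n, Reg S n ∧ tail (S.P.side n) = v := by
  obtain ⟨s, hs, hsv⟩ := exists_side h1 h3 hc hc''
  obtain ⟨n, hn, e1, e2⟩ := S.P.all s hs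
  have e1' : (S.P.side n).1 = s.1 := e1
  have e2' : ((S.P.side n).2 - s.2) % 4 = 0 := e2
  have ht : tail (S.P.side n) = v := by
    rw [← hsv]
    unfold tail
    have : (S.P.side n).2 % 4 = s.2 % 4 := by omega
    rw [e1', this]
  refine ⟨n, ?_, ht⟩
  -- no mark
  have hno : ∀ t : Cell × ℤ, Cv S.P.Q t → tail t = v → False := by
    intro t hC htv
    have key : ∀ d : Cell, Ard v d → d ∈ S.P.Q → d = t.1 := by
      intro d hd hdQ
      rw [← htv] at hd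
      rcases ard_four hd with g | g | g | g
      · exact g
      · exact absurd (g ▸ hdQ) hC.c2
      · exact absurd (g ▸ hdQ) hC.c3
      · exact absurd (g ▸ hdQ) hC.c4
    exact hne ((key c h1 hc).trans (key c' h2 hc').symm)
  have h02 := S.h02
  have h23 := S.h23
  have h34 : S.m3 < S.m4 := S.h34
  have hmN : S.m4 < S.N := S.P.hmN
  have hN : S.N = S.P.N := rfl
  have hm4 : S.m4 = S.P.m := rfl
  have n0 : n ≠ 0 := by
    rintro rfl
    have g1 := S.cvx (S.P.N - 1) (Or.inr (Or.inr (Or.inr (by omega))))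
    have g2 := cv_side S.P g1
    have g3 : S.P.N - 1 + 1 = S.P.N := by omega
    rw [g3] at g2
    refine hno _ g2 ?_
    rw [← ht, Pool.Agent.H42.FM.side_N]
    unfold tail
    have : ((S.P.side 0).2 + 4) % 4 = (S.P.side 0).2 % 4 := by omega
    simp only [this]
  have nm : ∀ m, (m = S.m2 ∨ m = S.m3 ∨ m = S.m4) → n ≠ m := by
    rintro m hm rfl
    have g1 := S.cvx (n - 1) (by omega)
    have g2 := cv_side S.P g1
    have g3 : n - 1 + 1 = n := by omega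
    rw [g3] at g2
    exact hno _ g2 ht
  have a2 := nm S.m2 (Or.inl rfl)
  have a3 := nm S.m3 (Or.inr (Or.inl rfl))
  have a4 := nm S.m4 (Or.inr (Or.inr rfl))
  refine ⟨⟨by omega, by omega⟩, ?_⟩
  unfold Shape.Fr
  omega

end Pool.Agent.H98.W
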