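import Mathlib
import Pool.Agent.H98.W.RegV
import Pool.Agent.H98.W.EndBlk3
import Pool.Agent.H58.W.NP
import Pool.Agent.H6.W.JDef

set_option autoImplicit false
open Finset

/-! # The end blocks of the chords (Route W, group W-E, module E8)

`left_end` : the left end blocks (natural neighbourhood), `right_end` : the right end blocks, from the
one arm bound `RS`. -/

namespace Pool.Agent.H98.W

open Pool.Agent.H75.Perc hiding WL CT hh EE sh PB
open Pool.Agent.H75.TwoArm Pool.Agent.H75.Four Pool.Agent.H69.Q1 Pool.Agent.Q1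
open Pool.Agent.Q1.M4 (Cell Good IsSide nextSide tail head PType Adj4 Conn4)
open Pool.Agent.H60.Q1 Pool.Agent.H20.Q1 Pool.Agent.H33.Q1 Pool.Agent.H69.NC
open Pool.Agent.H21.FM Pool.Agent.H58.W Pool.Agent.H50.W Pool.Agent.H6.W

/-! ### Cells and labels around a grid vertex -/

/-- the cell `c` is in the box of radius `A` around the vertex `d` -/
def InA (d : Cell) (A : ℤ) (c : Cell) : Prop :=
  (d.1 - A ≤ c.1 ∧ c.1 < d.1 + A) ∧ (d.2 - A ≤ c.2 ∧ c.2 < d.2 + A)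

variable {h : ℕ} {d : Cell} {A a : ℤ}

lemma TL_sub_BZ (hh : 0 < h) {U : Finset Cell} (hU : ∀ c ∈ U, InA d a c) :
    TL U (2 * (h : ℤ)) ⊆ BZ (tv' h d) (2 * h * a) := by
  intro e he
  have hz : (0 : ℤ) < h := by exact_mod_cast hh
  have hn : (0 : ℤ) < 2 * h := by positivity
  rw [mem_TL hn] at he
  obtain ⟨ho, hc⟩ := he
  obtain ⟨⟨u1, u2⟩, u3, u4⟩ := hU _ hc
  set c := ct (2 * (h : ℤ)) (tt e) with hcd
  obtain ⟨⟨a1, a2⟩, a3, a4⟩ := (ct_eq hn).1 hcd.symm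
  have t1 : (tt e).1 = (e.1 + e.2 - 1) / 2 := rfl
  have t2 : (tt e).2 = (e.2 - e.1 - 1) / 2 := rfl
  set X := (tt e).1
  set Y := (tt e).2
  have hX : e.1 + e.2 = 2 * X + 1 := by omega
  have hY : e.2 - e.1 = 2 * Y + 1 := by omega
  have b1 : (d.1 - a) * (2 * (h : ℤ)) ≤ c.1 * (2 * h) := mul_le_mul_of_nonneg_right u1 hn.le
  have b2 : (c.1 + 1) * (2 * (h : ℤ)) ≤ (d.1 + a) * (2 * h) :=
    mul_le_mul_of_nonneg_right (by omega) hn.le
  have b3 : (d.2 - a) * (2 * (h : ℤ)) ≤ c.2 * (2 * h) := mul_le_mul_of_nonneg_right u3 hn.le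
  have b4 : (c.2 + 1) * (2 * (h : ℤ)) ≤ (d.2 + a) * (2 * h) :=
    mul_le_mul_of_nonneg_right (by omega) hn.le
  rw [mem_Bx]
  unfold tv'
  simp only
  refine ⟨⟨?_, ?_⟩, ⟨?_, ?_⟩, ho⟩ <;> nlinarith

lemma BZ_cells (hh : 0 < h) {e : ℤ × ℤ} (he : e ∈ BZ (tv' h d) (h * A - 1)) :
    InA d A (ct (2 * (h : ℤ)) (tt e)) := by
  have hz : (0 : ℤ) < h := by exact_mod_cast hh
  have hn : (0 : ℤ) < 2 * h := by positivity
  rw [mem_Bx] at he
  unfold tv' at he
  simp only at he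
  obtain ⟨⟨a1, a2⟩, ⟨a3, a4⟩, ho⟩ := he
  have t1 : (tt e).1 = (e.1 + e.2 - 1) / 2 := rfl
  have t2 : (tt e).2 = (e.2 - e.1 - 1) / 2 := rfl
  set X := (tt e).1
  set Y := (tt e).2
  have hX : e.1 + e.2 = 2 * X + 1 := by omega
  have hY : e.2 - e.1 = 2 * Y + 1 := by omega
  unfold InA ct
  simp only
  refine ⟨⟨?_, ?_⟩, ?_, ?_⟩
  · rw [Int.le_ediv_iff_mul_le hn]
    nlinarith
  · rw [Int.ediv_lt_iff_lt_mul hn]
    nlinarith
  · rw [Int.le_ediv_iff_mul_le hn]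
    nlinarith
  · rw [Int.ediv_lt_iff_lt_mul hn]
    nlinarith

/-! ### The hybrids near the ends of the chords -/

section chd

variable (D : Chd)

lemma I_lo {x k : ℤ} : k ≤ D.I x ↔ k * D.l ≤ x := by
  have hl : (0 : ℤ) < D.l := by exact_mod_cast D.hl
  unfold Chd.I
  exact Int.le_ediv_iff_mul_le hl

lemma I_hi {x k : ℤ} : D.I x < k ↔ x < k * D.l := by
  have hl : (0 : ℤ) < D.l := by exact_mod_cast D.hl
  unfold Chd.I
  exact Int.ediv_lt_iff_lt_mul hl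

lemma M_int : (D.M : ℤ) = D.N1 * D.l := by rw [D.M_eq]; push_cast; ring

lemma el_le : 2 * (D.e * D.l : ℤ) ≤ D.M := by
  rw [M_int]
  have h1 : 2 * (D.e : ℤ) ≤ D.N1 := by exact_mod_cast D.heN
  have hl : (0 : ℤ) < D.l := by exact_mod_cast D.hl
  nlinarith

lemma lt_of_M {i j : ℤ} (h : D.M * i < D.M * j + D.M) : i < j + 1 := by
  have hM : (0 : ℤ) < D.M := by exact_mod_cast D.hM
  have h2 : (D.M : ℤ) * i < D.M * (j + 1) := by rw [mul_add, mul_one]; exact h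
  exact lt_of_mul_lt_mul_left h2 hM.le

lemma Y_box {y x2 : ℤ} (hA : 2 * A ≤ D.M) (h1 : D.M * y - A ≤ x2) (h2 : x2 < D.M * y + A) :
    D.Y x2 = y := by
  have hM : (0 : ℤ) < D.M := by exact_mod_cast D.hM
  unfold Chd.Y
  rw [dv hM]
  omega

/-- near a left end the hybrid before the block is natural -/
theorem hy_left {Q : Finset Cell} {i y : ℤ} {c : Cell} (hA : 2 * A ≤ D.M)
    (hc : InA (D.M * i, D.M * y) A c) : D.hy Q (Chd.bl 0 i y) c = none := by
  obtain ⟨⟨c1, c2⟩, c3, c4⟩ := hc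
  simp only at c1 c2 c3 c4
  have hY := Y_box D hA c3 c4
  have hel := el_le D
  have hMi := M_int D
  unfold Chd.hy hyb
  refine rst_neg ?_
  rintro ⟨β', hβ', hlt, hU⟩
  rw [D.mem_U] at hU
  unfold Chd.B at hβ'
  rw [mem_union, mem_union] at hβ'
  rcases hβ' with (hβ' | hβ') | hβ'
  · obtain ⟨i', y', -, -, rfl⟩ := D.mem_BL.1 hβ'
    obtain ⟨-, hy, h2⟩ := D.inU_bl.1 hU.2
    have hlt' := Chd.bl_lt.1 hlt
    rw [hY] at hy
    subst hy
    have h3 : D.N1 * i' ≤ D.I c.1 ∧ D.I c.1 < D.N1 * i' + D.e := by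
      rcases h2 with h2 | h2 | h2
      · exact h2.2
      · exact absurd h2.1 (by norm_num)
      · exact absurd h2.1 (by norm_num)
    rw [I_lo, I_hi] at h3
    have e1 : (D.N1 : ℤ) * i' * D.l = D.M * i' := by rw [hMi]; ring
    have e2 : ((D.N1 : ℤ) * i' + D.e) * D.l = D.M * i' + D.e * D.l := by rw [hMi]; ring
    rw [e1, e2] at h3
    have g1 : i' < i + 1 := lt_of_M D (by omega)
    have g2 : i < i' + 1 := lt_of_M D (by omega)
    omega
  · obtain ⟨i', y', -, rfl⟩ := D.mem_BI.1 hβ'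
    have := Chd.bl_lt.1 hlt
    omega
  · obtain ⟨i', y', -, -, rfl⟩ := D.mem_BR.1 hβ'
    have := Chd.bl_lt.1 hlt
    omega

/-- near a right end, off the block, the hybrid before the block is the family of fine plates -/
theorem hy_right {Q : Finset Cell} {i y : ℤ} {c : Cell} (hA : 2 * A ≤ D.M)
    (hc : InA (D.M * (i + 1), D.M * y) A c) (hQ : c ∈ Q) (hU : c ∉ D.U Q (Chd.bl 2 i y)) :
    D.hy Q (Chd.bl 2 i y) c = D.fine c := by
  obtain ⟨⟨c1, c2⟩, c3, c4⟩ := hc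
  simp only at c1 c2 c3 c4
  have hY := Y_box D hA c3 c4
  have hel := el_le D
  have hMi := M_int D
  unfold Chd.hy hyb
  by_cases hf : D.fine c = none
  · rw [hf]
    by_cases h3 : ∃ b' ∈ D.B, b' < Chd.bl 2 i y ∧ c ∈ D.U Q b'
    · rw [rst_pos h3, hf]
    · rw [rst_neg h3]
  · obtain ⟨β', hβ', hUβ⟩ := D.cover hQ hf
    refine rst_pos ⟨β', hβ', ?_, hUβ⟩
    have hU' := D.mem_U.1 hUβ
    unfold Chd.B at hβ'
    rw [mem_union, mem_union] at hβ'
    rcases hβ' with (hβ' | hβ') | hβ'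
    · obtain ⟨i', y', -, -, rfl⟩ := D.mem_BL.1 hβ'
      rw [Chd.bl_lt]; omega
    · obtain ⟨i', y', -, rfl⟩ := D.mem_BI.1 hβ'
      rw [Chd.bl_lt]; omega
    · obtain ⟨i', y', -, -, rfl⟩ := D.mem_BR.1 hβ'
      exfalso
      obtain ⟨-, hy, h2⟩ := D.inU_bl.1 hU'.2
      rw [hY] at hy
      subst hy
      have h3 : D.N1 * (i' + 1) - D.e ≤ D.I c.1 ∧ D.I c.1 < D.N1 * (i' + 1) := by
        rcases h2 with h2 | h2 | h2
        · exact absurd h2.1 (by norm_num)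
        · exact absurd h2.1 (by norm_num)
        · exact h2.2
      rw [I_lo, I_hi] at h3
      have e1 : (D.N1 : ℤ) * (i' + 1) * D.l = D.M * i' + D.M := by rw [hMi]; ring
      have e2 : ((D.N1 : ℤ) * (i' + 1) - D.e) * D.l = D.M * i' + D.M - D.e * D.l := by
        rw [hMi]; ring
      have e3 : (D.M : ℤ) * (i + 1) = D.M * i + D.M := by ring
      rw [e1, e2] at h3
      rw [e3] at c1 c2
      have g1 : i' < i + 1 := lt_of_M D (by omega)
      have g2 : i < i' + 1 := lt_of_M D (by omega)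
      have g3 : i' = i := by omega
      subst g3
      exact hU hUβ

/-- the shifted chain at a right end -/
def chR (i y : ℤ) (τ : ℕ) (c : Cell) : Option ℕ :=
  chn 0 D.M' τ (c - (D.M * (i + 1), D.M * y))

lemma ediv_neg' {x : ℤ} {m : ℤ} (hm : 0 < m) : x / m = -((-x - 1) / m) - 1 := by
  have h1 := Int.mul_ediv_add_emod (-x - 1) m
  have h2 := Int.emod_nonneg (-x - 1) hm.ne'
  have h3 := Int.emod_lt_of_pos (-x - 1) hm
  set k := (-x - 1) / m
  rw [dv hm]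
  constructor <;> nlinarith

/-- **the fine plates near a right end are the chain** -/
theorem fine_right {i y : ℤ} {c : Cell} {τ : ℕ} (hA : 2 * A ≤ D.M)
    (hG : (i, y) ∈ D.G) (hG' : (i + 1, y) ∉ D.G) (hτ : (τ : ℤ) = D.N1 * D.m * (D.b - i - 1) + 1)
    (hc : InA (D.M * (i + 1), D.M * y) A c) :
    D.fine c = (chR D i y τ c).map (fun k : ℕ => ((D.N1 : ℤ) * D.m * (i + 1) - 1 - (k : ℤ), y)) := by
  obtain ⟨⟨c1, c2⟩, c3, c4⟩ := hc
  simp only at c1 c2 c3 c4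
  have hM : (0 : ℤ) < D.M := by exact_mod_cast D.hM
  have hM' : (0 : ℤ) < D.M' := by exact_mod_cast D.hM'
  have hY := Y_box D hA c3 c4
  unfold chR chn Chd.fine
  rw [hY]
  simp only [Prod.fst_sub, Prod.snd_sub]
  set x := c.1 - D.M * (i + 1) with hx
  by_cases h0 : x < 0
  · have hX : D.X c.1 = i := by
      unfold Chd.X
      rw [dv hM]
      have e3 : (D.M : ℤ) * (i + 1) = D.M * i + D.M := by ring
      rw [e3] at hx c1
      omega
    have hK : D.K c.1 = D.N1 * D.m * (i + 1) + x / D.M' := by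
      unfold Chd.K
      have e1 : c.1 = x + D.M' * (D.N1 * D.m * (i + 1)) := by
        have e2 : (D.M : ℤ) = D.N1 * (D.m * D.M') := by unfold Chd.M; push_cast; ring
        rw [hx, e2]; ring
      rw [e1, Int.add_mul_ediv_left _ _ hM'.ne']
      ring
    have hk := ediv_neg' (x := x) hM'
    have hk0 : 0 ≤ (-x - 1) / (D.M' : ℤ) := Int.ediv_nonneg (by omega) hM'.le
    have e4 : ((((0 : ℤ) - x - 1) / (D.M' : ℤ)).toNat : ℤ) = (-x - 1) / D.M' := by
      rw [Int.toNat_of_nonneg (by rw [zero_sub]; exact hk0), zero_sub]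
    have hhw : D.hw (D.K c.1) = τ + (-x - 1) / D.M' := by
      unfold Chd.hw
      rw [hK, hk, hτ]
      ring
    rw [hX, hhw, if_pos h0]
    simp only [hG, true_and, e4]
    split_ifs with h5
    · simp only [Option.map_some, Option.some.injEq, Prod.mk.injEq, and_true]
      rw [hK, hk, e4]
      ring
    · rfl
  · have hX : D.X c.1 = i + 1 := by
      unfold Chd.X
      rw [dv hM]
      omega
    rw [hX, if_neg h0, if_neg (fun h => hG' h.1)]
    rfl

end chd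

/-! ### The two bounds -/

/-- geometry of the chords: both cells of a cut side are inside, a chord ends at the boundary -/
structure ChG (S : Shape) (G : Finset Cell) : Prop where
  ins : ∀ c ∈ G, c ∈ S.P.Q ∧ (c.1, c.2 - 1) ∈ S.P.Q
  lef : ∀ i y, (i, y) ∈ G → (i - 1, y) ∉ G → (i - 1, y) ∉ S.P.Q ∨ (i - 1, y - 1) ∉ S.P.Q
  rig : ∀ i y, (i, y) ∈ G → (i + 1, y) ∉ G → (i + 1, y) ∉ S.P.Q ∨ (i + 1, y - 1) ∉ S.P.Q

lemma ChG.left {S : Shape} {G : Finset Cell} (hG : ChG S G) {i y : ℤ} (h1 : (i, y) ∈ G)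
    (h2 : (i - 1, y) ∉ G) : ∃ n, Reg S n ∧ tail (S.P.side n) = (i, y) := by
  obtain ⟨a1, a2⟩ := hG.ins _ h1
  have b1 : Ard ((i, y) : ℤ × ℤ) (i, y) := by unfold Ard; simp
  have b2 : Ard ((i, y) : ℤ × ℤ) (i, y - 1) := by unfold Ard; simp
  have hne : ((i, y) : Cell) ≠ (i, y - 1) := by
    intro h
    have := congrArg Prod.snd h
    simp only at this
    omega
  rcases hG.lef i y h1 h2 with h3 | h3
  · exact exists_reg S b1 b2 (show Ard ((i, y) : ℤ × ℤ) (i - 1, y) by unfold Ard; simp) a1 a2 hne h3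
  · exact exists_reg S b1 b2 (show Ard ((i, y) : ℤ × ℤ) (i - 1, y - 1) by unfold Ard; simp) a1 a2
      hne h3

lemma ChG.right {S : Shape} {G : Finset Cell} (hG : ChG S G) {i y : ℤ} (h1 : (i, y) ∈ G)
    (h2 : (i + 1, y) ∉ G) : ∃ n, Reg S n ∧ tail (S.P.side n) = (i + 1, y) := by
  obtain ⟨a1, a2⟩ := hG.ins _ h1
  have b1 : Ard ((i + 1, y) : ℤ × ℤ) (i, y) := by unfold Ard; simp
  have b2 : Ard ((i + 1, y) : ℤ × ℤ) (i, y - 1) := by unfold Ard; simp
  have hne : ((i, y) : Cell) ≠ (i, y - 1) := by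
    intro h
    have := congrArg Prod.snd h
    simp only at this
    omega
  rcases hG.rig i y h1 h2 with h3 | h3
  · exact exists_reg S b1 b2 (show Ard ((i + 1, y) : ℤ × ℤ) (i + 1, y) by unfold Ard; simp) a1 a2
      hne h3
  · exact exists_reg S b1 b2 (show Ard ((i + 1, y) : ℤ × ℤ) (i + 1, y - 1) by unfold Ard; simp) a1
      a2 hne h3

lemma pP_eq (S : Shape) (D : Chd) {h : ℕ} (hh : 0 < h) (β : Chd.Bl) :
    pP S D h β = PB (EE S (D.M * h)) (bk (2 * (h : ℤ)) (D.hy (rf S D.M D.hM).P.Q β))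
      (PivB (TT S (D.M * h)) (TL (D.U (rf S D.M D.hM).P.Q β) (2 * (h : ℤ)))) := by
  unfold pP
  rw [EE_rf S D.hM hh]
  refine PB_congr fun ω _ => ?_
  unfold Pv PivB
  rw [TT_rf S D.hM hh, TT_rf S D.hM hh]

lemma wv_tv' (S : Shape) (D : Chd) (h n : ℕ) {v : Cell} (hv : tail (S.P.side n) = v) :
    wv (D.M * h) (S.P.side n) 0 = tv' h (D.M * v.1, D.M * v.2) := by
  rw [wv0]
  unfold rvS tv'
  rw [hv]
  refine Prod.ext ?_ ?_ <;> simp only <;> push_cast <;> ring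

lemma l_int (D : Chd) : (D.l : ℤ) = D.m * D.M' := by unfold Chd.l; push_cast; ring

/-- the cells of a left block -/
lemma U_left (D : Chd) {Q : Finset Cell} {i y : ℤ} (hT : D.N1 * (D.b - i) ≤ D.e * D.M') {c : Cell}
    (hc : c ∈ D.U Q (Chd.bl 0 i y)) : InA (D.M * i, D.M * y) (D.e * D.l) c := by
  have hM' : (0 : ℤ) < D.M' := by exact_mod_cast D.hM'
  have hm : (0 : ℤ) < D.m := by exact_mod_cast D.hm
  have hMi := M_int D
  have hl := l_int D
  obtain ⟨hf, hy, h2⟩ := D.inU_bl.1 (D.mem_U.1 hc).2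
  have h3 : D.N1 * i ≤ D.I c.1 ∧ D.I c.1 < D.N1 * i + D.e := by
    rcases h2 with h2 | h2 | h2
    · exact h2.2
    · exact absurd h2.1 (by norm_num)
    · exact absurd h2.1 (by norm_num)
  rw [I_lo, I_hi] at h3
  have e1 : (D.N1 : ℤ) * i * D.l = D.M * i := by rw [hMi]; ring
  have e2 : ((D.N1 : ℤ) * i + D.e) * D.l = D.M * i + D.e * D.l := by rw [hMi]; ring
  rw [e1, e2] at h3
  have hg := (D.fine_ne_none.1 hf).2
  rw [hy] at hg
  have hK : D.N1 * D.m * i ≤ D.K c.1 := by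
    unfold Chd.K
    rw [Int.le_ediv_iff_mul_le hM']
    have : (D.N1 : ℤ) * D.m * i * D.M' = D.M * i := by rw [hMi, hl]; ring
    rw [this]; exact h3.1
  have hw : D.hw (D.K c.1) ≤ D.e * D.l := by
    unfold Chd.hw
    have : (D.N1 : ℤ) * (D.b - i) * D.m ≤ D.e * D.M' * D.m := mul_le_mul_of_nonneg_right hT hm.le
    rw [hl]
    nlinarith
  have hel : 0 ≤ (D.e : ℤ) * D.l := by positivity
  unfold InA
  simp only
  omega

/-- the cells of a right block -/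
lemma U_right (D : Chd) {Q : Finset Cell} {i y : ℤ} (hT : D.N1 * (D.b - i) ≤ D.e * D.M')
    {c : Cell} (hc : c ∈ D.U Q (Chd.bl 2 i y)) : InA (D.M * (i + 1), D.M * y) (D.e * D.l) c := by
  have hM' : (0 : ℤ) < D.M' := by exact_mod_cast D.hM'
  have hm : (0 : ℤ) < D.m := by exact_mod_cast D.hm
  have hMi := M_int D
  have hl := l_int D
  have hel2 := el_le D
  obtain ⟨hf, hy, h2⟩ := D.inU_bl.1 (D.mem_U.1 hc).2
  have h3 : D.N1 * (i + 1) - D.e ≤ D.I c.1 ∧ D.I c.1 < D.N1 * (i + 1) := by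
    rcases h2 with h2 | h2 | h2
    · exact absurd h2.1 (by norm_num)
    · exact absurd h2.1 (by norm_num)
    · exact h2.2
  rw [I_lo, I_hi] at h3
  have e1 : (D.N1 : ℤ) * (i + 1) * D.l = D.M * (i + 1) := by rw [hMi]; ring
  have e2 : ((D.N1 : ℤ) * (i + 1) - D.e) * D.l = D.M * (i + 1) - D.e * D.l := by rw [hMi]; ring
  rw [e1, e2] at h3
  have hg := (D.fine_ne_none.1 hf).2
  rw [hy] at hg
  have hel : 0 ≤ (D.e : ℤ) * D.l := by positivity
  have hK : D.N1 * D.m * i ≤ D.K c.1 := by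
    unfold Chd.K
    rw [Int.le_ediv_iff_mul_le hM']
    have : (D.N1 : ℤ) * D.m * i * D.M' = D.M * i := by rw [hMi, hl]; ring
    rw [this]
    have e3 : (D.M : ℤ) * (i + 1) = D.M * i + D.M := by ring
    rw [e3] at h3
    omega
  have hw : D.hw (D.K c.1) ≤ D.e * D.l := by
    unfold Chd.hw
    have : (D.N1 : ℤ) * (D.b - i) * D.m ≤ D.e * D.M' * D.m := mul_le_mul_of_nonneg_right hT hm.le
    rw [hl]
    nlinarith
  unfold InA
  simp only
  omega

/-- **Left end blocks.** -/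
theorem left_end : ∃ δ : ℝ, 0 < δ ∧ δ < 1 ∧ ∀ (S : Shape) (D : Chd), ChG S D.G →
    ∀ (i y : ℤ), (i, y) ∈ D.G → (i - 1, y) ∉ D.G → ∀ k : ℕ, (4 * 4 ^ k + 5) * D.e ≤ D.N1 →
    D.N1 * (D.b - i) ≤ D.e * D.M' → ∀ h : ℕ, 0 < h → pP S D h (Chd.bl 0 i y) ≤ (1 - δ) ^ k := by
  obtain ⟨δ, h0, h1, hmain⟩ := PB_end_nat
  refine ⟨δ, h0, h1, ?_⟩
  intro S D hG i y g1 g2 k hk hT h hh
  obtain ⟨n, hn, hv⟩ := hG.left g1 g2
  have hM := D.hM
  have hel0 : 1 ≤ D.e * D.l := Nat.mul_pos D.he D.hl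
  have hell := el_le D
  set a : ℤ := D.e * D.l with ha
  have ha1 : 1 ≤ a := by rw [ha]; exact_mod_cast hel0
  have hh1 : (1 : ℤ) ≤ h := by exact_mod_cast hh
  set A : ℤ := (D.M : ℤ) / 2 with hA
  have hkM : (4 * 4 ^ k + 5) * a ≤ D.M := by
    rw [M_int, ha, ← mul_assoc]
    exact mul_le_mul_of_nonneg_right (by exact_mod_cast hk) (by positivity)
  have h4k : (1 : ℤ) ≤ 4 ^ k := one_le_pow₀ (by norm_num)
  have hA2 : (4 * 4 ^ k + 5) * a - 1 ≤ 2 * A := by omega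
  have hz := wv_tv' S D h n hv
  rw [pP_eq S D hh]
  have hha : (1 : ℤ) ≤ h * a := by nlinarith
  have hhA : h * ((4 * 4 ^ k + 5) * a - 1) ≤ h * (2 * A) := mul_le_mul_of_nonneg_left hA2 (by omega)
  have hkey : 4 ^ k * (2 * h * a) ≤ h * A - 1 := by nlinarith
  refine hmain _ S (D.M * h) n _ _ (2 * h * a) (h * A - 1) k (Nat.mul_pos hM hh) hn
    (by nlinarith) hkey (by nlinarith) ?_ ?_ ?_
  · have : (h : ℤ) * A ≤ h * D.M := mul_le_mul_of_nonneg_left (by omega) (by omega)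
    push_cast
    nlinarith
  · rw [hz]
    exact TL_sub_BZ hh fun c hc => U_left D hT hc
  · rw [hz]
    have key : ∀ e ∈ EE S (D.M * h) ∩ An (tv' h (D.M * i, D.M * y)) (2 * h * a) (h * A - 1),
        bk (2 * (h : ℤ)) (D.hy (rf S D.M D.hM).P.Q (Chd.bl 0 i y)) e = Sum.inl e := by
      intro e he
      have h3 := (mem_sdiff.1 (mem_inter.1 he).2).1
      exact bk_none (hy_left D (A := A) (by omega) (BZ_cells hh h3))
    intro e he e' he' hb
    rw [key e he, key e' he'] at hb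
    exact Sum.inl_injective hb

/-! ### Right ends -/

lemma OA_to_Arm {h : ℕ} {d : Cell} {ρ R : ℤ} {r1 r2 : ℕ} (h1 : 2 * ρ ≤ r1 * (2 * h))
    (h2 : (r2 : ℤ) * (2 * h) ≤ R) {ω : Finset (ℤ × ℤ)}
    (hA : OA (tv' h d) ρ R (ω.map (syT (tv' h d)).G)) : ArmO (2 * h) r1 r2 ω := by
  obtain ⟨u, v, hu, hv, huv⟩ := hA
  set z := tv' h d with hz
  have e1 : Co (ω.map (syT z).G) ((syT z).g (u - z)) ((syT z).g (v - z)) := by
    show Co (ω.map (syT z).G) (u - z + z) (v - z + z)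
    rw [sub_add_cancel, sub_add_cancel]
    exact huv
  rw [Sy.co_iff] at e1
  refine ⟨u - z, v - z, e1, ?_, ?_⟩
  · unfold Near at hu
    unfold tv
    simp only [Prod.fst_sub, Prod.snd_sub]
    rw [abs_le, abs_le] at hu
    rw [abs_le, abs_le]
    omega
  · unfold Far at hv
    unfold tv
    simp only [Prod.fst_sub, Prod.snd_sub]
    rw [le_abs, le_abs] at hv
    rw [le_abs, le_abs]
    omega

/-- **The arm at a right end is an arm in the world of `RS`.** -/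
theorem arm_right (S : Shape) (D : Chd) {i y : ℤ} (g1 : (i, y) ∈ D.G) (g2 : (i + 1, y) ∉ D.G)
    {τ : ℕ} (hτ : (τ : ℤ) = D.N1 * D.m * (D.b - i - 1) + 1)
    (hT : D.N1 * (D.b - i) ≤ D.e * D.M') {A r1 r2 : ℕ} (hA : 2 * A ≤ D.M)
    (hr1 : 2 * (D.e * D.l) ≤ r1) (hr2 : 2 * r2 + 1 ≤ A) (hr : r1 < r2) {h : ℕ} (hh : 0 < h) :
    PB (EE S (D.M * h)) (bk (2 * (h : ℤ)) (D.hy (rf S D.M D.hM).P.Q (Chd.bl 2 i y)))
        (OA (tv' h (D.M * (i + 1), D.M * y)) (2 * h * (D.e * D.l : ℤ)) (h * A - 1)) ≤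
      PB (TL (RC (-A) A (-A) A) (2 * (h : ℤ))) (bk (2 * (h : ℤ)) (chn 0 D.M' τ))
        (ArmO (2 * h) r1 r2) := by
  have hn : (0 : ℤ) < 2 * (h : ℤ) := by positivity
  have hh1 : (1 : ℤ) ≤ h := by exact_mod_cast hh
  set d : Cell := (D.M * (i + 1), D.M * y) with hd
  set z := tv' h d with hz
  set ρ : ℤ := 2 * h * (D.e * D.l : ℤ) with hρ
  set R : ℤ := h * A - 1 with hR
  set β := Chd.bl 2 i y with hβ
  set Q' := (rf S D.M D.hM).P.Q with hQ'
  set a : ℤ := (D.e : ℤ) * D.l with ha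
  have i1 : 2 * a ≤ r1 := by rw [ha]; exact_mod_cast hr1
  have i2 : 2 * (r2 : ℤ) + 1 ≤ A := by exact_mod_cast hr2
  have i3 : (r1 : ℤ) + 1 ≤ r2 := by exact_mod_cast hr
  have i4 : 2 * (A : ℤ) ≤ D.M := by exact_mod_cast hA
  have ha0 : 0 ≤ a := by positivity
  have hρR : ρ < R := by
    rw [hρ, hR]
    have : (h : ℤ) * (2 * a + 2) ≤ h * A := mul_le_mul_of_nonneg_left (by omega) (by omega)
    nlinarith
  have hEE : EE S (D.M * h) = TL Q' (2 * (h : ℤ)) := (EE_rf S D.hM hh).symm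
  have hodd : ∀ e ∈ EE S (D.M * h), (e.1 + e.2) % 2 = 1 := by
    intro e he
    rw [hEE] at he
    exact ((mem_TL hn).1 he).1
  set F : Finset (ℤ × ℤ) := EE S (D.M * h) ∩ An z ρ R with hF
  have hFE : F ⊆ EE S (D.M * h) := inter_subset_left
  have e1 : PB (EE S (D.M * h)) (bk (2 * (h : ℤ)) (D.hy Q' β)) (OA z ρ R) ≤
      PB F (bk (2 * (h : ℤ)) (D.hy Q' β)) (OA z ρ R) := by
    rw [← PB_restrict hFE]
    refine PB_mono fun ω hω h2 => ?_
    refine OA_mono ?_ (OA_local (fun l hl => hodd l (hω hl)) hρR h2)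
    intro l hl
    rw [mem_inter] at hl
    rw [hF, mem_inter, mem_inter]
    exact ⟨hl.1, hω hl.1, hl.2⟩
  -- the plates near the end
  have hcell : ∀ e ∈ F, InA d A (ct (2 * (h : ℤ)) (tt e)) := by
    intro e he
    exact BZ_cells hh (mem_sdiff.1 (mem_inter.1 he).2).1
  have hpl : ∀ e ∈ F, D.hy Q' β (ct (2 * (h : ℤ)) (tt e)) =
      (chR D i y τ (ct (2 * (h : ℤ)) (tt e))).map
        (fun k : ℕ => ((D.N1 : ℤ) * D.m * (i + 1) - 1 - (k : ℤ), y)) := by
    intro e he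
    have h1 := hcell e he
    have hQ : ct (2 * (h : ℤ)) (tt e) ∈ Q' := by
      have := hFE he
      rw [hEE] at this
      exact ((mem_TL hn).1 this).2
    have hU : ct (2 * (h : ℤ)) (tt e) ∉ D.U Q' β := by
      intro hU
      have h3 : e ∈ TL (D.U Q' β) (2 * (h : ℤ)) := (mem_TL hn).2 ⟨hodd e (hFE he), hU⟩
      have h4 := TL_sub_BZ (d := d) (a := a) hh (fun c hc => U_right D hT hc) h3
      exact (mem_sdiff.1 (mem_inter.1 he).2).2 h4
    rw [hy_right D (A := A) i4 h1 hQ hU]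
    exact fine_right D (A := A) i4 g1 g2 hτ h1
  have inj : Function.Injective (Option.map
      (fun k : ℕ => ((D.N1 : ℤ) * D.m * (i + 1) - 1 - (k : ℤ), y))) := by
    apply Option.map_injective
    intro a b hab
    simp only [Prod.mk.injEq, and_true] at hab
    omega
  have e2 : PB F (bk (2 * (h : ℤ)) (D.hy Q' β)) (OA z ρ R) =
      PB F (bk (2 * (h : ℤ)) (chR D i y τ)) (OA z ρ R) := by
    refine PB_pl_congr (fun e he => ?_) (fun e he e' he' _ => ?_) _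
    · rw [hpl e he, Option.map_eq_none_iff]
    · rw [hpl e he, hpl e' he']
      exact inj.eq_iff
  set V : Finset Cell := RC (-A) A (-A) A with hV
  set T' := TL (V.map (addRightEmbedding d)) (2 * (h : ℤ)) with hT'
  have hFT : F ⊆ T' := by
    intro e he
    obtain ⟨⟨c1, c2⟩, c3, c4⟩ := hcell e he
    refine (mem_TL hn).2 ⟨hodd e (hFE he), ?_⟩
    rw [Finset.mem_map]
    refine ⟨ct (2 * (h : ℤ)) (tt e) - d, ?_, ?_⟩
    · rw [hV]
      unfold RC
      rw [mem_product, mem_Ico, mem_Ico]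
      simp only [Prod.fst_sub, Prod.snd_sub]
      omega
    · show ct (2 * (h : ℤ)) (tt e) - d + d = _
      exact sub_add_cancel _ _
  have e3 : PB F (bk (2 * (h : ℤ)) (chR D i y τ)) (OA z ρ R) ≤
      PB T' (bk (2 * (h : ℤ)) (chR D i y τ)) (OA z ρ R) := by
    rw [← PB_restrict hFT]
    exact PB_mono fun ω _ h2 => OA_mono inter_subset_left h2
  have e4 : PB T' (bk (2 * (h : ℤ)) (chR D i y τ)) (OA z ρ R) =
      PB (TL V (2 * (h : ℤ))) (bk (2 * (h : ℤ)) (chn 0 D.M' τ))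
        (fun ω => OA z ρ R (ω.map (syT z).G)) := by
    rw [hT', PB_tr hh]
    have : (fun c => chR D i y τ (c + d)) = chn 0 D.M' τ := by
      funext c
      unfold chR
      rw [← hd, add_sub_cancel_right]
    rw [this]
  rw [e2] at e1
  refine e1.trans (e3.trans ?_)
  rw [e4]
  refine PB_mono fun ω _ h2 => OA_to_Arm ?_ ?_ h2
  · rw [hρ]
    nlinarith
  · rw [hR]
    nlinarith

/-- **Right end blocks.** -/
theorem right_end {C0 : ℕ} {C c : ℝ} (hRS : RS C0 C c) (S : Shape) (D : Chd) (hG : ChG S D.G)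
    {i y : ℤ} (g1 : (i, y) ∈ D.G) (g2 : (i + 1, y) ∉ D.G)
    (hT : D.N1 * (D.b - i) ≤ D.e * D.M') (hT2 : 64 * (D.N1 * D.m * (D.b - i) + 1) ≤ D.M')
    (hm : C0 ≤ D.m) {r2 : ℕ} (hr2 : 4 * r2 + 2 ≤ D.M) (hr : 2 * (D.e * D.l) < r2) :
    ∃ h0 : ℕ, ∀ h : ℕ, h0 ≤ h → 0 < h →
      pP S D h (Chd.bl 2 i y) ≤ C * (((2 * (D.e * D.l) : ℕ) : ℝ) / r2) ^ c := by
  have hb := D.hb _ g1
  simp only at hb
  have hM' : (0 : ℤ) < D.M' := by exact_mod_cast D.hM'
  have hN1 : (0 : ℤ) < D.N1 := by exact_mod_cast D.hN1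
  have hm0 : (0 : ℤ) < D.m := by exact_mod_cast D.hm
  set τ : ℕ := (D.N1 * D.m * (D.b - i - 1) + 1).toNat with hτd
  have hpos : 0 ≤ (D.N1 : ℤ) * D.m * (D.b - i - 1) := by
    have : 0 ≤ D.b - i - 1 := by omega
    positivity
  have hτ : (τ : ℤ) = D.N1 * D.m * (D.b - i - 1) + 1 := Int.toNat_of_nonneg (by omega)
  have hτ0 : 0 < τ := by
    have : (0 : ℤ) < τ := by rw [hτ]; omega
    exact_mod_cast this
  set A : ℕ := D.M / 2 with hA
  have hA2 : 2 * A ≤ D.M := by omega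
  have hA3 : 2 * r2 + 1 ≤ A := by omega
  have hcond : 64 * ((τ : ℝ) + 2 * (A : ℝ) / D.M') ≤ D.M' := by
    have hMr : (0 : ℝ) < D.M' := by exact_mod_cast D.hM'
    have h1 : 2 * (A : ℝ) / D.M' ≤ D.N1 * D.m := by
      rw [div_le_iff₀ hMr]
      have : 2 * A ≤ D.N1 * D.m * D.M' := by
        have e : D.M = D.N1 * D.m * D.M' := by unfold Chd.M; ring
        rw [← e]; exact hA2
      exact_mod_cast this
    have h2 : 64 * ((τ : ℝ) + D.N1 * D.m) ≤ D.M' := by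
      have : 64 * ((τ : ℤ) + D.N1 * D.m) ≤ D.M' := by
        rw [hτ]
        have : (D.N1 : ℤ) * D.m * (D.b - i) = D.N1 * D.m * (D.b - i - 1) + D.N1 * D.m := by ring
        omega
      exact_mod_cast this
    linarith
  obtain ⟨h0, hh0⟩ := hRS A D.M' τ 0 D.hM' hτ0 (dvd_zero _) le_rfl (by positivity) hcond
    (2 * (D.e * D.l)) r2 (by
      have h1 : D.l = D.m * D.M' := rfl
      rw [h1]
      have h2 : C0 * D.M' ≤ D.m * D.M' := Nat.mul_le_mul_right _ hm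
      have h3 : 1 * (D.m * D.M') ≤ D.e * (D.m * D.M') := Nat.mul_le_mul_right _ D.he
      omega) hr.le (by omega) (Or.inl rfl)
  refine ⟨h0, fun h hh hp => ?_⟩
  obtain ⟨n, hn, hv⟩ := hG.right g1 g2
  have hz := wv_tv' S D h n hv
  simp only at hz
  rw [pP_eq S D hp]
  have hh1 : (1 : ℤ) ≤ h := by exact_mod_cast hp
  have k1 : ((2 * (D.e * D.l) : ℕ) : ℤ) + 1 ≤ r2 := by exact_mod_cast hr
  push_cast at k1
  have k2 : 2 * (r2 : ℤ) + 1 ≤ A := by exact_mod_cast hA3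
  have k3 : 2 * (A : ℤ) ≤ D.M := by exact_mod_cast hA2
  have hρR : 2 * (h : ℤ) * (D.e * D.l : ℤ) < h * A - 1 := by
    have : (h : ℤ) * (2 * (D.e * D.l) + 2) ≤ h * A := mul_le_mul_of_nonneg_left (by omega) (by omega)
    nlinarith
  have hRH : (h : ℤ) * A - 1 ≤ ((D.M * h : ℕ) : ℤ) - 1 := by
    have : (h : ℤ) * A ≤ h * D.M := mul_le_mul_of_nonneg_left (by omega) (by omega)
    push_cast
    nlinarith
  have h1 := PB_piv_end (S := S) (h := D.M * h) (n := n) (Nat.mul_pos D.hM hp) hn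
    (bk (2 * (h : ℤ)) (D.hy (rf S D.M D.hM).P.Q (Chd.bl 2 i y)))
    (B := TL (D.U (rf S D.M D.hM).P.Q (Chd.bl 2 i y)) (2 * (h : ℤ))) hρR hRH (by
      rw [hz]
      exact TL_sub_BZ hp fun c hc => U_right D hT hc)
  rw [hz] at h1
  refine h1.trans ((arm_right S D g1 g2 hτ hT hA2 (le_refl _) hA3 hr hp).trans ?_)
  exact (hh0 h hh).1

/-- **Module E8: the end blocks.** -/
theorem endSt {C0 : ℕ} {C c : ℝ} (hRS : RS C0 C c) (hc : 0 < c) (S : Shape) (G : Finset Cell)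
    (b : ℤ) (hb : ∀ c ∈ G, c.1 < b) (hG : ChG S G) : EndSt S G b hb := by
  classical
  intro ε hε
  obtain ⟨δ, hδ0, hδ1, hL⟩ := left_end
  -- choice of `k`
  have h4 := tendsto_pow_atTop_nhds_zero_of_lt_one (show (0 : ℝ) ≤ 1 - δ by linarith)
    (show 1 - δ < 1 by linarith)
  obtain ⟨k, hk⟩ := (h4.eventually (gt_mem_nhds hε)).exists
  -- choice of `x0`
  set x0 : ℝ := (ε / (|C| + 1)) ^ (1 / c) with hx0
  have hx0p : 0 < x0 := by positivity
  have hsmall : ∀ x : ℝ, 0 ≤ x → x ≤ x0 → C * x ^ c ≤ ε := by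
    intro x hx hxx
    have h1 : x ^ c ≤ ε / (|C| + 1) := by
      have h2 := Real.rpow_le_rpow hx hxx hc.le
      rw [hx0, ← Real.rpow_mul (by positivity), one_div_mul_cancel hc.ne', Real.rpow_one] at h2
      exact h2
    have h3 : 0 ≤ x ^ c := Real.rpow_nonneg hx c
    calc C * x ^ c ≤ |C| * (ε / (|C| + 1)) :=
          mul_le_mul (le_abs_self C) h1 h3 (abs_nonneg C)
      _ = ε * (|C| / (|C| + 1)) := by ring
      _ ≤ ε * 1 := by
          refine mul_le_mul_of_nonneg_left ?_ hε.le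
          rw [div_le_one (by positivity)]
          linarith
      _ = ε := mul_one ε
  obtain ⟨q1, hq1⟩ := exists_nat_gt (16 / x0)
  refine ⟨4 * 4 ^ k + 5 + 24 + q1, fun q hq0 hq e he => ⟨C0, fun m hm hm' => ?_⟩⟩
  set Bd : ℕ := ∑ c ∈ G, (b - c.1).natAbs with hBd
  have hBdle : ∀ c ∈ G, b - c.1 ≤ Bd := by
    intro c hc
    have h1 : (b - c.1).natAbs ≤ Bd :=
      single_le_sum (f := fun c : Cell => (b - c.1).natAbs) (fun _ _ => Nat.zero_le _) hc
    have h2 : b - c.1 ≤ ((b - c.1).natAbs : ℤ) := Int.le_natAbs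
    have h3 : (((b - c.1).natAbs : ℕ) : ℤ) ≤ Bd := by exact_mod_cast h1
    omega
  refine ⟨64 * (e * q * m * Bd + 1), fun M' hM0 hM' => ?_⟩
  set D := mkD G b hb q e m M' hq he hm' hM' with hD
  have eG : D.G = G := rfl
  have eN : D.N1 = e * q := rfl
  have ee : D.e = e := rfl
  have em : D.m = m := rfl
  have eM' : D.M' = M' := rfl
  have eb : D.b = b := rfl
  have hT2 : ∀ i y, (i, y) ∈ G → 64 * ((D.N1 : ℤ) * D.m * (D.b - i) + 1) ≤ D.M' := by
    intro i y hi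
    have h1 := hBdle _ hi
    simp only at h1
    rw [eN, em, eb, eM']
    have h2 : ((e * q : ℕ) : ℤ) * m * (b - i) ≤ ((e * q : ℕ) : ℤ) * m * Bd :=
      mul_le_mul_of_nonneg_left h1 (by positivity)
    have h3 : ((64 * (e * q * m * Bd + 1) : ℕ) : ℤ) ≤ M' := by exact_mod_cast hM0
    push_cast at h2 h3 ⊢
    linarith
  have hT : ∀ i y, (i, y) ∈ G → (D.N1 : ℤ) * (D.b - i) ≤ D.e * D.M' := by
    intro i y hi
    have h1 := hT2 i y hi
    have h0 := hb _ hi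
    simp only at h0
    have h2 : 0 ≤ (D.N1 : ℤ) * (D.b - i) := by
      have : 0 ≤ D.b - i := by rw [eb]; omega
      positivity
    have h3 : (1 : ℤ) ≤ D.m := by exact_mod_cast D.hm
    have h4 : (1 : ℤ) ≤ D.e := by exact_mod_cast D.he
    have h5 : (0 : ℤ) < D.M' := by exact_mod_cast D.hM'
    nlinarith
  -- right ends
  have hR : ∀ β ∈ D.BR, ∃ h0 : ℕ, ∀ h ≥ h0, pP S D h β ≤ ε := by
    intro β hβ
    obtain ⟨i, y, g1, g2, rfl⟩ := D.mem_BR.1 hβ
    set w := D.e * D.l with hw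
    have hw1 : 1 ≤ w := Nat.mul_pos D.he D.hl
    have hMw : D.M = q * w := by
      rw [hw, D.M_eq, eN, ee]; ring
    have hq24 : 24 ≤ q := by omega
    have hqw : 24 * w ≤ q * w := Nat.mul_le_mul_right _ hq24
    have hqw' : q ≤ q * w := Nat.le_mul_of_pos_right _ hw1
    set r2 := (D.M - 2) / 4 with hr2
    have hr2' : q * w ≤ 8 * r2 := by omega
    have hr2'' : 2 * w < r2 := by omega
    obtain ⟨h0, hh0⟩ := right_end hRS S D hG g1 g2 (hT i y g1) (hT2 i y g1) (by rw [em]; exact hm)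
      (r2 := r2) (by omega) hr2''
    refine ⟨max h0 1, fun h hh => ?_⟩
    refine (hh0 h (le_trans (le_max_left _ _) hh)
      (lt_of_lt_of_le Nat.one_pos (le_trans (le_max_right _ _) hh))).trans ?_
    have hr2r : (0 : ℝ) < r2 := by
      have : 0 < r2 := by omega
      exact_mod_cast this
    refine hsmall _ (by positivity) ?_
    have hqr : (0 : ℝ) < q := by
      have : 0 < q := by omega
      exact_mod_cast this
    have h5 : ((2 * w : ℕ) : ℝ) / r2 ≤ 16 / q := by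
      rw [div_le_div_iff₀ hr2r hqr]
      have : 2 * w * q ≤ 16 * r2 := by nlinarith
      exact_mod_cast this
    refine h5.trans ?_
    rw [div_le_iff₀ hqr]
    rw [div_lt_iff₀ hx0p] at hq1
    have : (q1 : ℝ) ≤ q := by
      have : q1 ≤ q := by omega
      exact_mod_cast this
    nlinarith
  have hR' : ∃ h0 : ℕ, ∀ h ≥ h0, ∀ β ∈ D.BR, pP S D h β ≤ ε := by
    have h1 : ∀ᶠ h : ℕ in Filter.atTop, ∀ β ∈ D.BR, pP S D h β ≤ ε := by
      rw [Filter.eventually_all_finset]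
      intro β hβ
      exact Filter.eventually_atTop.2 (hR β hβ)
    exact Filter.eventually_atTop.1 h1
  obtain ⟨h0, hh0⟩ := hR'
  refine ⟨max h0 1, fun h hh β hβ => ?_⟩
  rcases mem_union.1 hβ with hβ | hβ
  · obtain ⟨i, y, g1, g2, rfl⟩ := D.mem_BL.1 hβ
    refine (hL S D hG i y g1 g2 k ?_ (hT i y g1) h
      (lt_of_lt_of_le Nat.one_pos (le_trans (le_max_right _ _) hh))).trans hk.le
    rw [ee, eN, mul_comm e q]
    exact Nat.mul_le_mul_right _ (by omega)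
  · exact hh0 h (le_trans (le_max_left _ _) hh) β hβ

end Pool.Agent.H98.W
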