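import Mathlib
import Pool.Agent.H33.Q1.A.Local
import Pool.Agent.H33.FM.Root

set_option autoImplicit false
open Finset

/-! # An open circuit through one plate blocks dual arms (Route W, W-E, module E10)

Left ray: the tiles `(x, 0)`, `x < 0`. `par n K` : number of labels of `n` among the tiles
`(-1, 0), …, (-K, 0)`, mod `2`.
`no_dual_arm` : a cycle `n` of open labels of the annulus with `par n K = 1` excludes dual arms.
`block_arm` : the cycle consists of a path off the left ray and a path off the right half row, its two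
pieces join a vertex above the row to a vertex below it.
`block_plate` : the second piece is a solid rectangle of open tiles. -/

namespace Pool.Agent.H98.W

open Pool.Agent.H75.Perc hiding WL CT hh EE sh PB
open Pool.Agent.H75.TwoArm Pool.Agent.H75.Four Pool.Agent.H75.Four.PivAux
open Pool.Agent.H60.Q1 Pool.Agent.H20.Q1 Pool.Agent.H33.Q1
open Pool.Agent.H69.Q1 (ends_of_add)

/-! ### Constancy along straight lines -/

lemma step_const {g : ℤ → ZMod 2} {a b : ℤ} (hab : a ≤ b)
    (h : ∀ i, a ≤ i → i < b → g i = g (i + 1)) : g a = g b := by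
  induction b, hab using Int.le_induction with
  | base => rfl
  | succ n hn ih =>
    rw [ih fun i h1 h2 => h i h1 (by omega)]
    exact h n hn (by omega)

lemma step_const' {g : ℤ → ZMod 2} {a b : ℤ}
    (h : ∀ i, min a b ≤ i → i < max a b → g i = g (i + 1)) : g a = g b := by
  rcases le_total a b with hab | hab
  · exact step_const hab fun i h1 h2 => h i (by omega) (by omega)
  · exact (step_const hab fun i h1 h2 => h i (by omega) (by omega)).symm

lemma eq_of_add_zero {a b : ZMod 2} (h : a + b = 0) : a = b := by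
  revert a b; decide

/-! ### The ray -/

/-- faces along the left ray -/
def Fr' (k : ℕ) : ℤ × ℤ := (-((k : ℤ) / 2), -(((k : ℤ) - 1) / 2))

lemma Fr'_zero : Fr' 0 = (0, 1) := by
  unfold Fr'
  refine Prod.ext ?_ ?_ <;> simp

lemma Fr'_step (k : ℕ) : IsUnit4 (Fr' (k + 1) - Fr' k) ∧
    Fr' k + Fr' (k + 1) - (1, 1) = lt (-(k : ℤ) - 1, 0) := by
  unfold Fr' lt
  constructor
  · unfold IsUnit4
    simp only [Prod.ext_iff, Prod.fst_sub, Prod.snd_sub]
    push_cast
    omega
  · refine Prod.ext ?_ ?_ <;> simp only [Prod.fst_sub, Prod.snd_sub, Prod.fst_add, Prod.snd_add] <;>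
      push_cast <;> omega

/-- parity of `n` along the first `K` tiles of the left ray -/
def par (n : ℤ × ℤ → ZMod 2) (K : ℕ) : ZMod 2 := ∑ k ∈ range K, n (lt (-(k : ℤ) - 1, 0))

lemma par_add (n m : ℤ × ℤ → ZMod 2) (K : ℕ) :
    par (fun l => n l + m l) K = par n K + par m K := by
  unfold par
  exact sum_add_distrib

lemma par_tele {n S : ℤ × ℤ → ZMod 2}
    (hS : ∀ f g : ℤ × ℤ, IsUnit4 (g - f) → S f + S g = n (f + g - (1, 1))) (K : ℕ) :
    S (0, 1) + S (Fr' K) = par n K := by
  induction K with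
  | zero =>
    rw [Fr'_zero]
    unfold par
    simp only [range_zero, sum_empty]
    exact zmod2_add_self _
  | succ K ih =>
    have h1 := hS _ _ (Fr'_step K).1
    rw [(Fr'_step K).2] at h1
    unfold par at ih ⊢
    rw [sum_range_succ, ← ih, ← h1]
    generalize S (0, 1) = a
    generalize S (Fr' K) = b
    generalize S (Fr' (K + 1)) = c
    revert a b c; decide

/-- **A cycle of open labels which crosses the left ray an odd number of times excludes dual arms.** -/
theorem no_dual_arm {n : ℤ × ℤ → ZMod 2} {ω E : Finset (ℤ × ℤ)} {s t : ℤ} {K : ℕ} (hs : 1 ≤ s)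
    (hK : 2 * t ≤ K) (hst : s < t)
    (hn : ∀ l, n l ≠ 0 → l ∈ ω ∧ l ∈ BZ (0, 0) (t - 1) ∧ l ∉ BZ (0, 0) (s + 1))
    (hd : ∀ w, dg n w = 0) (hpar : par n K = 1) : ¬ OA (0, 0) s t (du E ω) := by
  rintro ⟨f, g, hf, hg, hfg⟩
  have hfin : {l : ℤ × ℤ | n l ≠ 0}.Finite := by
    refine ω.finite_toSet.subset ?_
    intro l hl
    exact (hn l hl).1
  obtain ⟨S, hS⟩ := even_faces n hfin hd
  -- along the dual arm
  have h1 : S f = S g := by
    clear hf hg
    induction hfg with
    | refl => rfl
    | @tail x y _ hxy ih =>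
      rw [ih]
      have h3 := hS x y hxy.1
      have h4 := hxy.2
      unfold du at h4
      rw [Finset.mem_map] at h4
      obtain ⟨l, hl, hlxy⟩ := h4
      have h5 : x + y - (1, 1) = l := by
        rw [← hlxy]
        refine Prod.ext ?_ ?_ <;> simp [sh1]
      rw [mem_sdiff] at hl
      have h6 : n l = 0 := by
        by_contra h7
        exact hl.2 (hn l h7).1
      rw [h5, h6] at h3
      exact eq_of_add_zero h3
  -- steps off the support
  have hH : ∀ i j : ℤ, n (2 * i, 2 * j - 1) = 0 → S (i, j) = S (i + 1, j) := by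
    intro i j h0
    apply eq_of_add_zero
    rw [hS (i, j) (i + 1, j) (by unfold IsUnit4; simp)]
    rw [← h0]
    congr 1
    refine Prod.ext ?_ ?_ <;> simp only [Prod.fst_sub, Prod.snd_sub, Prod.fst_add, Prod.snd_add] <;>
      ring
  have hV : ∀ i j : ℤ, n (2 * i - 1, 2 * j) = 0 → S (i, j) = S (i, j + 1) := by
    intro i j h0
    apply eq_of_add_zero
    rw [hS (i, j) (i, j + 1) (by unfold IsUnit4; simp)]
    rw [← h0]
    congr 1
    refine Prod.ext ?_ ?_ <;> simp only [Prod.fst_sub, Prod.snd_sub, Prod.fst_add, Prod.snd_add] <;>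
      ring
  have hin : ∀ a b : ℤ, (-(2 * (s + 1)) ≤ a ∧ a ≤ 2 * (s + 1)) → (-(2 * (s + 1)) ≤ b ∧
      b ≤ 2 * (s + 1)) → (a + b) % 2 = 1 → n (a, b) = 0 := by
    intro a b ha hb hab
    by_contra h0
    refine (hn _ h0).2.2 ?_
    rw [mem_Bx]
    simp only
    omega
  have hout : ∀ a b : ℤ, (a < -(2 * (t - 1)) ∨ 2 * (t - 1) < a ∨ b < -(2 * (t - 1)) ∨
      2 * (t - 1) < b) → n (a, b) = 0 := by
    intro a b hab
    by_contra h0
    have := (hn _ h0).2.1
    rw [mem_Bx] at this
    simp only at this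
    omega
  -- inner faces
  have h2 : S f = S (0, 1) := by
    unfold Near at hf
    rw [abs_le, abs_le] at hf
    simp only [sub_zero] at hf
    obtain ⟨x, y⟩ := f
    simp only at hf
    have e1 : S (x, y) = S (0, y) := by
      refine step_const' (g := fun i => S (i, y)) fun i h3 h4 => hH i y (hin _ _ ?_ ?_ ?_) <;> omega
    have e2 : S (0, y) = S (0, 1) := by
      refine step_const' (g := fun j => S (0, j)) fun j h3 h4 => hV 0 j (hin _ _ ?_ ?_ ?_) <;> omega
    rw [e1, e2]
  -- outer faces
  have h3 : ∀ g : ℤ × ℤ, Far (0, 0) t g → S g = S (t, t) := by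
    rintro ⟨x, y⟩ hg
    unfold Far at hg
    rw [le_abs, le_abs] at hg
    simp only [sub_zero] at hg
    rcases hg with (hg | hg) | (hg | hg)
    · have e1 : S (x, y) = S (t, y) := by
        refine step_const' (g := fun i => S (i, y)) fun i h3 h4 => hH i y (hout _ _ ?_)
        omega
      have e2 : S (t, y) = S (t, t) := by
        refine step_const' (g := fun j => S (t, j)) fun j h3 h4 => hV t j (hout _ _ ?_)
        omega
      rw [e1, e2]
    · have e1 : S (x, y) = S (-t, y) := by
        refine step_const' (g := fun i => S (i, y)) fun i h3 h4 => hH i y (hout _ _ ?_)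
        omega
      have e2 : S (-t, y) = S (-t, t) := by
        refine step_const' (g := fun j => S (-t, j)) fun j h3 h4 => hV (-t) j (hout _ _ ?_)
        omega
      have e3 : S (-t, t) = S (t, t) := by
        refine step_const' (g := fun i => S (i, t)) fun i h3 h4 => hH i t (hout _ _ ?_)
        omega
      rw [e1, e2, e3]
    · have e1 : S (x, y) = S (x, t) := by
        refine step_const' (g := fun j => S (x, j)) fun j h3 h4 => hV x j (hout _ _ ?_)
        omega
      have e2 : S (x, t) = S (t, t) := by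
        refine step_const' (g := fun i => S (i, t)) fun i h3 h4 => hH i t (hout _ _ ?_)
        omega
      rw [e1, e2]
    · have e1 : S (x, y) = S (x, -t) := by
        refine step_const' (g := fun j => S (x, j)) fun j h3 h4 => hV x j (hout _ _ ?_)
        omega
      have e2 : S (x, -t) = S (t, -t) := by
        refine step_const' (g := fun i => S (i, -t)) fun i h3 h4 => hH i (-t) (hout _ _ ?_)
        omega
      have e3 : S (t, -t) = S (t, t) := by
        refine step_const' (g := fun j => S (t, j)) fun j h3 h4 => hV t j (hout _ _ ?_)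
        omega
      rw [e1, e2, e3]
  have h4 := par_tele hS K
  have h5 : Far (0, 0) t (Fr' K) := by
    unfold Far Fr'
    left
    rw [le_abs]
    right
    simp only
    omega
  rw [hpar, h3 _ h5, ← h3 g hg, ← h1, h2] at h4
  rw [zmod2_add_self] at h4
  exact absurd h4 (by decide)

/-! ### Building the cycle -/

/-- the vertex `v` is above the middle line of the row `0` -/
def chi (v : ℤ × ℤ) : ZMod 2 := if 1 ≤ (tv v).2 then 1 else 0

/-- the label is a tile of the row `0` -/
def row0 (l : ℤ × ℤ) : Prop := (tt l).2 = 0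

/-- labels which are not tiles of the left ray -/
def OffL (l : ℤ × ℤ) : Prop := (tt l).2 = 0 → 0 ≤ (tt l).1

/-- labels which are not tiles of the right half row -/
def OffR (l : ℤ × ℤ) : Prop := (tt l).2 = 0 → (tt l).1 < 0

lemma tt_add {b c : ℤ × ℤ} (h : IsUnit4 (c - b)) :
    ((tt (b + c)).2 = 0 ↔ chi b ≠ chi c) ∧ ((b + c).1 + (b + c).2) % 2 = 1 := by
  obtain ⟨b1, b2⟩ := b
  obtain ⟨c1, c2⟩ := c
  have hu := unit_cases h
  simp only at hu
  unfold tt chi tv
  simp only [Prod.mk_add_mk]
  refine ⟨?_, by omega⟩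
  split_ifs <;> simp <;> omega

/-- a path which uses only tiles off the right half row: a chain with the parity of its ends -/
lemma co_cycle_par {ω : Finset (ℤ × ℤ)} {K : ℕ} (hR : ∀ l ∈ ω, OffR l)
    (hK : ∀ l ∈ ω, -(K : ℤ) ≤ (tt l).1) {u v : ℤ × ℤ} (h : Co ω u v) :
    ∃ n : ℤ × ℤ → ZMod 2, (∀ a, n a ≠ 0 → a ∈ ω) ∧ (∀ w, dg n w = id1 u w + id1 v w) ∧
      par n K = chi u + chi v := by
  induction h with
  | refl =>
    refine ⟨fun _ => 0, fun a ha => absurd rfl ha, fun w => by simp [dg, zmod2_add_self], ?_⟩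
    unfold par
    simp [zmod2_add_self]
  | @tail b c _ hbc ih =>
    obtain ⟨n, hn1, hn2, hn3⟩ := ih
    refine ⟨fun a => n a + id1 (b + c) a, fun a ha => ?_, fun w => ?_, ?_⟩
    · by_cases h1 : n a = 0
      · simp only [h1, zero_add] at ha
        unfold id1 at ha
        have h2 : a = b + c := by
          by_contra h3
          rw [if_neg h3] at ha
          exact ha rfl
        rw [h2]; exact hbc.2
      · exact hn1 a h1
    · rw [dg_add, hn2, dg_edge hbc.1]
      generalize id1 u w = a
      generalize id1 b w = b'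
      generalize id1 c w = c'
      revert a b' c'; decide
    · rw [par_add, hn3]
      have key : par (id1 (b + c)) K = chi b + chi c := by
        obtain ⟨h1, h2⟩ := tt_add hbc.1
        unfold par
        by_cases h3 : (tt (b + c)).2 = 0
        · have h4 := hR _ hbc.2 h3
          have h5 := hK _ hbc.2
          have h6 : lt (tt (b + c)) = b + c := lt_tt h2
          have h7 : b + c = lt (-(((-(tt (b + c)).1 - 1).toNat : ℕ) : ℤ) - 1, 0) := by
            conv_lhs => rw [← h6]
            congr 1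
            refine Prod.ext ?_ ?_
            · simp only
              rw [Int.toNat_of_nonneg (by omega)]
              ring
            · exact h3
          rw [sum_eq_single (-(tt (b + c)).1 - 1).toNat]
          · unfold id1
            rw [if_pos h7.symm]
            have h8 := h1.1 h3
            revert h8
            generalize chi b = x
            generalize chi c = y
            revert x y; decide
          · intro k _ hk
            unfold id1
            rw [if_neg]
            intro h8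
            rw [h7] at h8
            have h9 := congrArg Prod.fst (lt_inj h8)
            simp only at h9
            omega
          · intro hk
            exfalso
            apply hk
            rw [mem_range]
            omega
        · have h4 : chi b = chi c := by
            by_contra h5
            exact h3 (h1.2 h5)
          rw [h4, zmod2_add_self]
          refine sum_eq_zero fun k _ => ?_
          unfold id1
          rw [if_neg]
          intro h5
          apply h3
          rw [← h5, tt_lt]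
      rw [key]
      generalize chi u = x
      generalize chi b = y
      generalize chi c = z
      revert x y z; decide

lemma par_off {n : ℤ × ℤ → ZMod 2} {K : ℕ} (h : ∀ l, n l ≠ 0 → OffL l) : par n K = 0 := by
  unfold par
  refine sum_eq_zero fun k _ => ?_
  by_contra h0
  have h1 := h _ h0
  unfold OffL at h1
  rw [tt_lt] at h1
  have := h1 rfl
  simp only at this
  omega

/-- **An open path off the left ray and an open path off the right half row, between a vertex above and
a vertex below the row, exclude dual arms.** -/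
theorem block_arm {ω E A B : Finset (ℤ × ℤ)} {s t : ℤ} (hs : 1 ≤ s) (hst : s < t)
    (hA : ∀ l ∈ A, (l ∈ ω ∧ l ∈ BZ (0, 0) (t - 1) ∧ l ∉ BZ (0, 0) (s + 1)) ∧ OffL l)
    (hB : ∀ l ∈ B, (l ∈ ω ∧ l ∈ BZ (0, 0) (t - 1) ∧ l ∉ BZ (0, 0) (s + 1)) ∧ OffR l)
    {v v' : ℤ × ℤ} (hv : chi v ≠ chi v') (h1 : Co A v v') (h2 : Co B v' v) :
    ¬ OA (0, 0) s t (du E ω) := by
  obtain ⟨n1, a1, a2⟩ := co_cycle h1
  obtain ⟨n2, b1, b2, b3⟩ := co_cycle_par (K := (2 * t).toNat) (fun l hl => (hB l hl).2) (by
    intro l hl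
    have := (hB l hl).1.2.1
    rw [mem_Bx] at this
    simp only at this
    unfold tt
    simp only
    omega) h2
  refine no_dual_arm (n := fun l => n1 l + n2 l) (K := (2 * t).toNat) hs (by omega) hst ?_ ?_ ?_
  · intro l hl
    by_cases h0 : n1 l = 0
    · have h3 : n2 l ≠ 0 := by
        intro h4
        exact hl (by simp only [h0, h4, add_zero])
      exact (hB l (b1 l h3)).1
    · exact (hA l (a1 l h0)).1
  · intro w
    rw [dg_add, a2, b2]
    generalize id1 v w = x
    generalize id1 v' w = y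
    revert x y; decide
  · rw [par_add, b3, par_off fun l hl => (hA l (a1 l hl)).2]
    revert hv
    generalize chi v = x
    generalize chi v' = y
    revert x y; decide

/-! ### Solid rectangles of tiles -/

/-- labels of the tiles of the rectangle `[x1, x2) × [y1, y2)` -/
noncomputable def TR (x1 x2 y1 y2 : ℤ) : Finset (ℤ × ℤ) := ((Ico x1 x2) ×ˢ (Ico y1 y2)).image lt

lemma mem_TR {x1 x2 y1 y2 : ℤ} {l : ℤ × ℤ} : l ∈ TR x1 x2 y1 y2 ↔
    (l.1 + l.2) % 2 = 1 ∧ (x1 ≤ (tt l).1 ∧ (tt l).1 < x2) ∧ y1 ≤ (tt l).2 ∧ (tt l).2 < y2 := by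
  unfold TR
  rw [mem_image]
  constructor
  · rintro ⟨p, hp, rfl⟩
    rw [mem_product, mem_Ico, mem_Ico] at hp
    rw [tt_lt]
    exact ⟨lt_odd p, hp⟩
  · rintro ⟨h1, h2⟩
    exact ⟨tt l, by rw [mem_product, mem_Ico, mem_Ico]; exact h2, lt_tt h1⟩

/-- an end of the label -/
def Ed (l v : ℤ × ℤ) : Prop := v = eu l ∨ v = ev l

lemma ed_co {ω : Finset (ℤ × ℤ)} {l v v' : ℤ × ℤ} (ho : (l.1 + l.2) % 2 = 1) (hl : l ∈ ω)
    (h : Ed l v) (h' : Ed l v') : Co ω v v' := by
  have := co_self (w := ω) (p := tt l) (by rw [lt_tt ho]; exact hl) (x := v) (y := v')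
  rw [lt_tt ho] at this
  exact this h h'

/-- neighbouring tiles -/
lemma tile_step {ω : Finset (ℤ × ℤ)} {p : ℤ × ℤ} {k : ℤ} (h1 : lt p ∈ ω) (h2 : lt (p + dir k) ∈ ω)
    {v v' : ℤ × ℤ} (hv : Ed (lt p) v) (hv' : Ed (lt (p + dir k)) v') : Co ω v v' := by
  obtain ⟨w, hw1, hw2⟩ := share_end p k
  exact (ed_co (lt_odd _) h1 hv hw1).trans (ed_co (lt_odd _) h2 hw2 hv')

/-- **A solid rectangle of open tiles is connected.** -/
theorem rect_co {ω : Finset (ℤ × ℤ)} {x1 x2 y1 y2 : ℤ} (hω : TR x1 x2 y1 y2 ⊆ ω)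
    {l l' : ℤ × ℤ} (hl : l ∈ TR x1 x2 y1 y2) (hl' : l' ∈ TR x1 x2 y1 y2) {v v' : ℤ × ℤ}
    (hv : Ed l v) (hv' : Ed l' v') : Co ω v v' := by
  have hmem : ∀ x y : ℤ, (x1 ≤ x ∧ x < x2) → (y1 ≤ y ∧ y < y2) → lt (x, y) ∈ ω := by
    intro x y hx hy
    exact hω (mem_TR.2 ⟨lt_odd _, by rw [tt_lt]; exact ⟨hx, hy⟩⟩)
  have hor : ∀ y, (y1 ≤ y ∧ y < y2) → ∀ n : ℕ, ∀ x, x1 ≤ x → x + n < x2 →
      Co ω (eu (lt (x, y))) (eu (lt (x + n, y))) := by
    intro y hy n
    induction n with
    | zero => intro x _ _; simp only [Nat.cast_zero, add_zero]; exact Co.refl _ _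
    | succ n ih =>
      intro x h1 h2
      push_cast at h2
      refine (ih x h1 (by omega)).trans ?_
      have h3 := tile_step (ω := ω) (p := (x + n, y)) (k := 0) (hmem _ _ (by omega) hy)
        (by
          have : ((x + n, y) : ℤ × ℤ) + dir 0 = (x + n + 1, y) := by
            rcases dir_cases 0 with ⟨i, e⟩ | ⟨i, e⟩ | ⟨i, e⟩ | ⟨i, e⟩
            · rw [e]; simp
            · exfalso; omega
            · exfalso; omega
            · exfalso; omega
          rw [this]
          exact hmem _ _ (by omega) hy)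
        (v := eu (lt (x + n, y))) (v' := eu (lt ((x + n, y) + dir 0))) (Or.inl rfl) (Or.inl rfl)
      have e : ((x + n, y) : ℤ × ℤ) + dir 0 = (x + ((n + 1 : ℕ) : ℤ), y) := by
        rcases dir_cases 0 with ⟨i, e⟩ | ⟨i, e⟩ | ⟨i, e⟩ | ⟨i, e⟩
        · rw [e]
          refine Prod.ext ?_ ?_ <;> simp; ring
        · exfalso; omega
        · exfalso; omega
        · exfalso; omega
      rw [e] at h3
      exact h3
  have ver : ∀ x, (x1 ≤ x ∧ x < x2) → ∀ n : ℕ, ∀ y, y1 ≤ y → y + n < y2 →
      Co ω (eu (lt (x, y))) (eu (lt (x, y + n))) := by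
    intro x hx n
    induction n with
    | zero => intro y _ _; simp only [Nat.cast_zero, add_zero]; exact Co.refl _ _
    | succ n ih =>
      intro y h1 h2
      push_cast at h2
      refine (ih y h1 (by omega)).trans ?_
      have e : ((x, y + n) : ℤ × ℤ) + dir 1 = (x, y + ((n + 1 : ℕ) : ℤ)) := by
        rcases dir_cases 1 with ⟨i, e⟩ | ⟨i, e⟩ | ⟨i, e⟩ | ⟨i, e⟩
        · exfalso; omega
        · rw [e]
          refine Prod.ext ?_ ?_ <;> simp; ring
        · exfalso; omega
        · exfalso; omega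
      have h3 := tile_step (ω := ω) (p := (x, y + n)) (k := 1) (hmem _ _ hx (by omega))
        (by rw [e]; exact hmem _ _ hx (by push_cast; omega))
        (v := eu (lt (x, y + n))) (v' := eu (lt ((x, y + n) + dir 1))) (Or.inl rfl) (Or.inl rfl)
      rw [e] at h3
      exact h3
  have hor' : ∀ y, (y1 ≤ y ∧ y < y2) → ∀ x x', (x1 ≤ x ∧ x < x2) → (x1 ≤ x' ∧ x' < x2) →
      Co ω (eu (lt (x, y))) (eu (lt (x', y))) := by
    intro y hy x x' hx hx'
    rcases le_total x x' with h | h
    · have := hor y hy (x' - x).toNat x hx.1 (by omega)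
      have e : x + ((x' - x).toNat : ℤ) = x' := by omega
      rwa [e] at this
    · have := hor y hy (x - x').toNat x' hx'.1 (by omega)
      have e : x' + ((x - x').toNat : ℤ) = x := by omega
      rw [e] at this
      exact this.symm
  have ver' : ∀ x, (x1 ≤ x ∧ x < x2) → ∀ y y', (y1 ≤ y ∧ y < y2) → (y1 ≤ y' ∧ y' < y2) →
      Co ω (eu (lt (x, y))) (eu (lt (x, y'))) := by
    intro x hx y y' hy hy'
    rcases le_total y y' with h | h
    · have := ver x hx (y' - y).toNat y hy.1 (by omega)
      have e : y + ((y' - y).toNat : ℤ) = y' := by omega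
      rwa [e] at this
    · have := ver x hx (y - y').toNat y' hy'.1 (by omega)
      have e : y' + ((y - y').toNat : ℤ) = y := by omega
      rw [e] at this
      exact this.symm
  obtain ⟨o1, hx, hy⟩ := mem_TR.1 hl
  obtain ⟨o2, hx', hy'⟩ := mem_TR.1 hl'
  have k1 : Co ω (eu l) (eu l') := by
    have h1 := hor' _ hy _ _ hx hx'
    have h2 := ver' _ hx' _ _ hy hy'
    have e1 : lt ((tt l).1, (tt l).2) = l := lt_tt o1
    have e2 : lt ((tt l').1, (tt l').2) = l' := lt_tt o2
    rw [e1] at h1
    rw [e2] at h2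
    exact h1.trans h2
  exact ((ed_co o1 (hω hl) hv (Or.inl rfl)).trans k1).trans (ed_co o2 (hω hl') (Or.inl rfl) hv')

/-- **An open path off the left ray from the upper to the lower bank of a solid open plate to the left of
the origin excludes dual arms.** `[x1, x2) × [y1, y2)` = the tiles of the plate. -/
theorem block_plate {ω E A : Finset (ℤ × ℤ)} {s t : ℤ} (hs : 1 ≤ s) (hst : s < t)
    (hA : ∀ l ∈ A, (l ∈ ω ∧ l ∈ BZ (0, 0) (t - 1) ∧ l ∉ BZ (0, 0) (s + 1)) ∧ OffL l)
    {x1 x2 y1 y2 : ℤ} (hx2 : x2 ≤ 0)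
    (hP : ∀ l ∈ TR x1 x2 y1 y2, l ∈ ω ∧ l ∈ BZ (0, 0) (t - 1) ∧ l ∉ BZ (0, 0) (s + 1))
    {l l' v v' : ℤ × ℤ} (hl : l ∈ TR x1 x2 y1 y2) (hl' : l' ∈ TR x1 x2 y1 y2) (hv : Ed l v)
    (hv' : Ed l' v') (h1 : 1 ≤ (tv v).2) (h2 : (tv v').2 ≤ 0) (h3 : Co A v v') :
    ¬ OA (0, 0) s t (du E ω) := by
  refine block_arm (A := A) (B := TR x1 x2 y1 y2) hs hst hA ?_ (v := v) (v' := v') ?_ h3
    (rect_co (subset_refl _) hl' hl hv' hv)
  · intro m hm
    refine ⟨hP m hm, fun _ => ?_⟩
    have := (mem_TR.1 hm).2.1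
    omega
  · unfold chi
    rw [if_pos h1, if_neg (by omega)]
    decide

end Pool.Agent.H98.W
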