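import Mathlib
import Pool.Agent.H98.W.EndBlk3
import Pool.Agent.H6.W.JDef

set_option autoImplicit false
open Finset

/-! # A block which changes the boundary partition of a box has an arm (Route W)

`A4_arm` : `A4 B P ω`, `P` near `z`, the boundary vertices of `B` far from `z` ⇒ `OA z ρ R (ω \ P)`.
`A4_sq` : the same for squares of the tile frame, in the form of `RS`. -/

namespace Pool.Agent.H98.W

open Pool.Agent.H75.Perc hiding WL CT hh EE sh PB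
open Pool.Agent.H75.TwoArm Pool.Agent.H75.Four Pool.Agent.H69.Q1 Pool.Agent.Q1
open Pool.Agent.Q1.M4 (Cell)
open Pool.Agent.H60.Q1 Pool.Agent.H20.Q1 Pool.Agent.H33.Q1 Pool.Agent.H69.NC
open Pool.Agent.H58.W Pool.Agent.H50.W Pool.Agent.H6.W Pool.Agent.H41.W

/-- an end of a label of `P` is joined to a boundary vertex of `B` -/
theorem A4_split {B P ω : Finset (ℤ × ℤ)} (h : A4 B P ω) :
    ∃ x p p', Ni B x ∧ Co ((ω ∩ B) \ P) x p ∧ IsUnit4 (p' - p) ∧ p + p' ∈ P := by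
  obtain ⟨x, y, hx, hy, h1, h2⟩ := h
  have h3 : Co (((ω ∩ B) \ P) ∪ P) x y := by
    rw [sdiff_union_self_eq_union]
    exact h1
  rcases co_split h3 with h4 | ⟨p, p', h4, h5, h6⟩
  · exact absurd h4 h2
  · exact ⟨x, p, p', hx, h4, h5, h6⟩

theorem A4_arm {B P ω : Finset (ℤ × ℤ)} {z : ℤ × ℤ} {ρ R : ℤ} (hP : P ⊆ BZ z ρ)
    (hB : ∀ x, Ni B x → Far z R x) (h : A4 B P ω) : OA z ρ R ((ω ∩ B) \ P) := by
  obtain ⟨x, p, p', h1, h2, h3, h4⟩ := A4_split h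
  exact ⟨p, x, (near_of_bz h3 (hP h4)).1, hB x h1, h2.symm⟩

lemma ni_BZ {z : ℤ × ℤ} {R : ℤ} {x : ℤ × ℤ} (hx : Ni (BZ z R) x) : Far z R x := by
  obtain ⟨q, h1, h2⟩ := hx
  have hu := unit_cases h1
  rw [mem_Bx] at h2
  unfold Far
  rw [le_abs, le_abs]
  simp only [Prod.fst_add, Prod.snd_add] at h2
  by_contra hcon
  apply h2
  omega

/-- a vertex and a tile next to it -/
lemma tv_tt {x q : ℤ × ℤ} (h : IsUnit4 (q - x)) :
    ((tv x).1 = (tt (x + q)).1 ∨ (tv x).1 = (tt (x + q)).1 + 1) ∧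
      ((tv x).2 = (tt (x + q)).2 ∨ (tv x).2 = (tt (x + q)).2 + 1) := by
  have hu := unit_cases h
  unfold tv tt
  simp only [Prod.fst_add, Prod.snd_add]
  omega

lemma tt_sq {r : ℕ} {n : ℤ} (hn : 0 < n) {e : ℤ × ℤ} : e ∈ TL (RC (-r) r (-r) r) n ↔
    (e.1 + e.2) % 2 = 1 ∧ (-(r * n) ≤ (tt e).1 ∧ (tt e).1 < r * n) ∧ -(r * n) ≤ (tt e).2 ∧
      (tt e).2 < r * n := by
  rw [mem_TL hn]
  unfold RC ct
  rw [mem_product, mem_Ico, mem_Ico]
  simp only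
  rw [Int.le_ediv_iff_mul_le hn, Int.ediv_lt_iff_lt_mul hn, Int.le_ediv_iff_mul_le hn,
    Int.ediv_lt_iff_lt_mul hn, neg_mul]

/-- **the form of `RS`** -/
theorem A4_sq {n : ℤ} (hn : 0 < n) {r1 r2 : ℕ} {P ω : Finset (ℤ × ℤ)}
    (hP : P ⊆ TL (RC (-r1) r1 (-r1) r1) n) (h : A4 (TL (RC (-r2) r2 (-r2) r2) n) P ω) :
    ArmO n r1 r2 ((ω ∩ TL (RC (-r2) r2 (-r2) r2) n) \ P) := by
  obtain ⟨x, p, p', h1, h2, h3, h4⟩ := A4_split h
  refine ⟨p, x, h2.symm, ?_, ?_⟩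
  · have h5 := ((tt_sq hn).1 (hP h4)).2
    have h6 := tv_tt h3
    rw [abs_le, abs_le]
    omega
  · obtain ⟨q, g1, g2⟩ := h1
    have g3 := tv_tt g1
    rw [tt_sq hn] at g2
    have ho : ((x + q).1 + (x + q).2) % 2 = 1 := by
      have hu := unit_cases g1
      simp only [Prod.fst_add, Prod.snd_add]
      omega
    rw [le_abs, le_abs]
    by_contra hcon
    apply g2
    refine ⟨ho, ?_⟩
    omega

lemma ArmO_mono {n : ℤ} {r1 r2 : ℕ} {ω ω' : Finset (ℤ × ℤ)} (h : ω ⊆ ω') (hA : ArmO n r1 r2 ω) :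
    ArmO n r1 r2 ω' := by
  obtain ⟨u, v, h1, h2, h3⟩ := hA
  exact ⟨u, v, h1.mono h, h2, h3⟩

/-- **End blocks for `A4`, from `RS`**: the block `P` in the square of radius `r1`, the square of radius
`r2`, in a world `E, b` which is the world of `RS` on the labels of the square. -/
theorem PB_A4_le {β : Type*} [DecidableEq β] {n : ℤ} (hn : 0 < n) {r1 r2 R : ℕ} (h2R : r2 ≤ R)
    {E P : Finset (ℤ × ℤ)} {b : ℤ × ℤ → β} {pl : Cell → Option ℕ}
    (hP : P ⊆ TL (RC (-r1) r1 (-r1) r1) n) (hE : TL (RC (-r2) r2 (-r2) r2) n ⊆ E)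
    (hb : ∀ e ∈ TL (RC (-r2) r2 (-r2) r2) n \ P, ∀ e' ∈ TL (RC (-r2) r2 (-r2) r2) n \ P,
      (b e = b e' ↔ bk n pl e = bk n pl e')) :
    PB E b (A4 (TL (RC (-r2) r2 (-r2) r2) n) P) ≤
      PB (TL (RC (-R) R (-R) R) n) (bk n pl) (ArmO n r1 r2) := by
  set B := TL (RC (-r2) r2 (-r2) r2) n with hB
  set F := B \ P with hF
  have hFE : F ⊆ E := sdiff_subset.trans hE
  have hBR : B ⊆ TL (RC (-R) R (-R) R) n := by
    intro e he
    rw [hB, tt_sq hn] at he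
    rw [tt_sq hn]
    have : (r2 : ℤ) * n ≤ R * n := mul_le_mul_of_nonneg_right (by exact_mod_cast h2R) hn.le
    omega
  have e1 : PB E b (A4 B P) ≤ PB E b (fun ω => ArmO n r1 r2 (ω ∩ F)) := by
    refine PB_mono fun ω _ h => ArmO_mono ?_ (A4_sq hn hP h)
    intro l hl
    rw [mem_sdiff, mem_inter] at hl
    rw [mem_inter, hF, mem_sdiff]
    exact ⟨hl.1.1, hl.1.2, hl.2⟩
  rw [PB_restrict hFE, PB_blocks hb] at e1
  refine e1.trans ?_
  rw [← PB_restrict (sdiff_subset.trans hBR : F ⊆ TL (RC (-R) R (-R) R) n)]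
  exact PB_mono fun ω _ h => ArmO_mono inter_subset_left h

end Pool.Agent.H98.W
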