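import Mathlib
import Pool.Agent.H19.RH.Refl
import Pool.Agent.H19.RH.Pw

set_option autoImplicit false

/-! # Behaviour at a boundary mark (Route W)

`D` is analytic and bounded in a half disc above the real point `x`; its boundary values have the
constant phase `α` on the right of `x` and `α + π β` on the left, `β < 1`. Then
`D z = e ^ (i α) (z - x) ^ β R z` with `R` analytic in a full disc and real on the real line. For
`β = 1/3` (Smirnov's phase jump at a mark) `D ^ 6` extends analytically with a zero of order `≥ 2`. -/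

namespace Pool.Agent.H98.W

open Complex Set Metric Filter Topology
open Pool.Agent.H19.RH (UP isOpen_UP nhdsUP_neBot pw pw_analytic pw_ne norm_pw pw_pos pw_neg RX
  rx_of_growth)

open scoped Real

/-- **Factorization at a boundary mark.** -/
theorem mark_factor {D : ℂ → ℂ} {x r C : ℝ} (hr : 0 < r) {α β : ℝ} (hβ : β < 1)
    (hd : DifferentiableOn ℂ D (ball (x : ℂ) r ∩ UP))
    (hb : ∀ z ∈ ball (x : ℂ) r, 0 < z.im → ‖D z‖ ≤ C)
    (hR : ∀ y : ℝ, (y : ℂ) ∈ ball (x : ℂ) r → x < y →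
      ∃ v : ℝ, Tendsto D (𝓝[UP] (y : ℂ)) (𝓝 (v * exp ((α : ℂ) * I))))
    (hL : ∀ y : ℝ, (y : ℂ) ∈ ball (x : ℂ) r → y < x →
      ∃ v : ℝ, Tendsto D (𝓝[UP] (y : ℂ)) (𝓝 (v * exp (((α + π * β : ℝ) : ℂ) * I)))) :
    ∃ ρ > 0, ∃ R : ℂ → ℂ, DifferentiableOn ℂ R (ball (x : ℂ) ρ) ∧
      (∀ y : ℝ, (y : ℂ) ∈ ball (x : ℂ) ρ → (R y).im = 0) ∧
      ∀ z ∈ ball (x : ℂ) ρ, 0 < z.im → D z = exp ((α : ℂ) * I) * pw β (z - x) * R z := by
  set f : ℂ → ℂ := fun z => D z * (exp ((α : ℂ) * I) * pw β (z - x))⁻¹ with hf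
  have hne : ∀ z : ℂ, exp ((α : ℂ) * I) * pw β (z - x) ≠ 0 := fun z =>
    mul_ne_zero (exp_ne_zero _) (pw_ne _ _)
  -- `pw β (z - x)` is continuous at the boundary points `≠ x`
  have hpc : ∀ z : ℂ, 0 ≤ z.im → z ≠ x → ContinuousAt (fun z => pw β (z - (x : ℂ))) z := by
    intro z hz hzx
    have h1 : ContinuousAt (pw β) (z - x) :=
      (pw_analytic β (by simpa using hz) (sub_ne_zero.mpr hzx)).continuousAt
    exact ContinuousAt.comp (f := fun z : ℂ => z - (x : ℂ)) h1 (by fun_prop)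
  have hcast : ∀ y : ℝ, y ≠ x → ((y : ℂ)) ≠ (x : ℂ) := fun y hy h => hy (ofReal_injective h)
  have hrx : RX f x := by
    apply rx_of_growth hr
    · intro z hz
      have h1 : DifferentiableWithinAt ℂ D (ball (x : ℂ) r ∩ UP) z := hd z hz
      have hz0 : z ≠ (x : ℂ) := by
        intro h
        have h2 : 0 < z.im := hz.2
        rw [h] at h2
        simp at h2
      have h2 : DifferentiableAt ℂ (fun z => pw β (z - (x : ℂ))) z := by
        have h3 : DifferentiableAt ℂ (pw β) (z - x) :=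
          (pw_analytic β (by simpa using (le_of_lt hz.2 : (0 : ℝ) ≤ z.im))
            (sub_ne_zero.mpr hz0)).differentiableAt
        exact DifferentiableAt.comp (f := fun z : ℂ => z - (x : ℂ)) z h3 (by fun_prop)
      exact h1.mul ((h2.const_mul _).inv (hne z)).differentiableWithinAt
    · intro y hy hyx
      have hpt : Tendsto (fun z => (exp ((α : ℂ) * I) * pw β (z - x))⁻¹) (𝓝[UP] (y : ℂ))
          (𝓝 (exp ((α : ℂ) * I) * pw β ((y : ℂ) - x))⁻¹) := by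
        have h1 := (hpc (y : ℂ) (by simp) (hcast y hyx)).tendsto.mono_left
          (nhdsWithin_le_nhds (s := UP))
        exact (h1.const_mul _).inv₀ (hne _)
      have hsub : (y : ℂ) - x = ((y - x : ℝ) : ℂ) := by push_cast; ring
      rcases lt_or_gt_of_ne hyx with h | h
      · obtain ⟨v, hv⟩ := hL y hy h
        have h1 := hv.mul hpt
        have hpos : (0 : ℝ) < (-(y - x)) ^ β := Real.rpow_pos_of_pos (by linarith) _
        refine ⟨v * ((-(y - x)) ^ β)⁻¹, ?_⟩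
        convert h1 using 2
        rw [hsub, pw_neg β (by linarith), mul_inv, mul_inv]
        have e1 : exp (((α + π * β : ℝ) : ℂ) * I) = exp ((α : ℂ) * I) * exp (((π * β : ℝ) : ℂ) * I) := by
          rw [← exp_add]
          congr 1
          push_cast
          ring
        rw [e1]
        have n1 : exp ((α : ℂ) * I) ≠ 0 := exp_ne_zero _
        have n2 : exp (((π * β : ℝ) : ℂ) * I) ≠ 0 := exp_ne_zero _
        have n3 : ((((-(y - x)) ^ β : ℝ)) : ℂ) ≠ 0 := ofReal_ne_zero.mpr hpos.ne'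
        push_cast at n2 n3 ⊢
        field_simp
      · obtain ⟨v, hv⟩ := hR y hy h
        have h1 := hv.mul hpt
        have hpos : (0 : ℝ) < (y - x) ^ β := Real.rpow_pos_of_pos (by linarith) _
        refine ⟨v * ((y - x) ^ β)⁻¹, ?_⟩
        convert h1 using 2
        rw [hsub, pw_pos β (by linarith), mul_inv]
        have n1 : exp ((α : ℂ) * I) ≠ 0 := exp_ne_zero _
        have n3 : ((((y - x) ^ β : ℝ)) : ℂ) ≠ 0 := ofReal_ne_zero.mpr hpos.ne'
        push_cast at n3 ⊢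
        field_simp
    · -- growth
      have hC : Tendsto (fun z : ℂ => |C| * ‖z - x‖ ^ (1 - β)) (𝓝[UP] (x : ℂ)) (𝓝 0) := by
        have h1 : Tendsto (fun z : ℂ => ‖z - x‖) (𝓝[UP] (x : ℂ)) (𝓝 0) := by
          have h2 : Continuous fun z : ℂ => ‖z - x‖ := by fun_prop
          have h3 := (h2.tendsto (x : ℂ)).mono_left (nhdsWithin_le_nhds (s := UP))
          simpa using h3
        have h4 := (h1.rpow_const (p := 1 - β) (Or.inr (by linarith))).const_mul |C|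
        rwa [Real.zero_rpow (by linarith), mul_zero] at h4
      apply squeeze_zero_norm' ?_ hC
      have hball : ∀ᶠ z in 𝓝[UP] (x : ℂ), z ∈ ball (x : ℂ) r :=
        mem_nhdsWithin_of_mem_nhds (ball_mem_nhds _ hr)
      filter_upwards [self_mem_nhdsWithin, hball] with z hz hzb
      have hz' : 0 < z.im := hz
      have hz0 : z ≠ (x : ℂ) := by
        intro h
        rw [h] at hz'
        simp at hz'
      have hpos : 0 < ‖z - x‖ := norm_pos_iff.mpr (sub_ne_zero.mpr hz0)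
      have h1 : ‖f z‖ = ‖D z‖ * (‖z - x‖ ^ β)⁻¹ := by
        rw [hf]
        simp only [norm_mul, norm_inv, norm_pw β (sub_ne_zero.mpr hz0), norm_exp_ofReal_mul_I,
          one_mul]
      rw [norm_mul, h1]
      have h2 : ‖D z‖ ≤ |C| := (hb z hzb hz').trans (le_abs_self C)
      have h3 : ‖z - x‖ ^ (1 - β) = ‖z - x‖ * (‖z - x‖ ^ β)⁻¹ := by
        rw [Real.rpow_sub hpos, Real.rpow_one, div_eq_mul_inv]
      rw [h3]
      have h4 : 0 ≤ ‖z - x‖ * (‖z - x‖ ^ β)⁻¹ := by positivity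
      calc ‖z - ↑x‖ * (‖D z‖ * (‖z - ↑x‖ ^ β)⁻¹) = ‖D z‖ * (‖z - x‖ * (‖z - x‖ ^ β)⁻¹) := by ring
        _ ≤ |C| * (‖z - x‖ * (‖z - x‖ ^ β)⁻¹) := mul_le_mul_of_nonneg_right h2 h4
  obtain ⟨ρ, hρ, g, hg1, hg2, hg3⟩ := hrx
  refine ⟨min ρ r, lt_min hρ hr, g, hg1.mono (ball_subset_ball (min_le_left _ _)), ?_, ?_⟩
  · exact fun y hy => hg3 y (ball_subset_ball (min_le_left _ _) hy)
  · intro z hz hz'
    rw [hg2 z (ball_subset_ball (min_le_left _ _) hz) hz']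
    rw [hf]
    simp only
    rw [mul_comm (D z), ← mul_assoc, mul_inv_cancel₀ (hne z), one_mul]

/-- Size at a boundary mark: `|D z| ≤ K |z - x| ^ β`. -/
theorem mark_bound {D : ℂ → ℂ} {x r C : ℝ} (hr : 0 < r) {α β : ℝ} (hβ : β < 1)
    (hd : DifferentiableOn ℂ D (ball (x : ℂ) r ∩ UP))
    (hb : ∀ z ∈ ball (x : ℂ) r, 0 < z.im → ‖D z‖ ≤ C)
    (hR : ∀ y : ℝ, (y : ℂ) ∈ ball (x : ℂ) r → x < y →
      ∃ v : ℝ, Tendsto D (𝓝[UP] (y : ℂ)) (𝓝 (v * exp ((α : ℂ) * I))))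
    (hL : ∀ y : ℝ, (y : ℂ) ∈ ball (x : ℂ) r → y < x →
      ∃ v : ℝ, Tendsto D (𝓝[UP] (y : ℂ)) (𝓝 (v * exp (((α + π * β : ℝ) : ℂ) * I)))) :
    ∃ ρ > 0, ∃ K, ∀ z ∈ ball (x : ℂ) ρ, 0 < z.im → ‖D z‖ ≤ K * ‖z - x‖ ^ β := by
  obtain ⟨ρ, hρ, R, h1, _, h3⟩ := mark_factor hr hβ hd hb hR hL
  have hc : ContinuousOn R (closedBall (x : ℂ) (ρ / 2)) :=
    h1.continuousOn.mono (closedBall_subset_ball (by linarith))
  obtain ⟨K, hK⟩ := (isCompact_closedBall (x : ℂ) (ρ / 2)).exists_bound_of_continuousOn hc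
  refine ⟨ρ / 2, by linarith, K, ?_⟩
  intro z hz hz'
  have hz0 : z ≠ (x : ℂ) := by
    intro h
    rw [h] at hz'
    simp at hz'
  rw [h3 z (ball_subset_ball (by linarith) hz) hz', norm_mul, norm_mul, norm_exp_ofReal_mul_I,
    one_mul, norm_pw β (sub_ne_zero.mpr hz0), mul_comm]
  exact mul_le_mul_of_nonneg_right (hK z (ball_subset_closedBall hz)) (by positivity)

lemma pw_third_pow {z : ℂ} (hz : 0 < z.im) : pw (1 / 3) z ^ 6 = z ^ 2 := by
  unfold pw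
  have h0 : -I * z ≠ 0 := by
    refine mul_ne_zero (neg_ne_zero.mpr I_ne_zero) ?_
    rintro rfl
    simp at hz
  rw [← exp_nat_mul]
  have h1 : ((6 : ℕ) : ℂ) * (((1 / 3 : ℝ) : ℂ) * (log (-I * z) + π / 2 * I)) =
      log (-I * z) + log (-I * z) + π * I := by
    push_cast
    ring
  rw [h1, exp_add, exp_add, exp_log h0, exp_pi_mul_I]
  linear_combination (-z ^ 2) * I_sq

/-- **The sixth power at a mark with phase jump `e ^ (i π / 3)`**: `D ^ 6` extends analytically, and it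
has a zero of order at least two. -/
theorem mark_sixth {D : ℂ → ℂ} {x r C : ℝ} (hr : 0 < r) {α : ℝ}
    (hd : DifferentiableOn ℂ D (ball (x : ℂ) r ∩ UP))
    (hb : ∀ z ∈ ball (x : ℂ) r, 0 < z.im → ‖D z‖ ≤ C)
    (hR : ∀ y : ℝ, (y : ℂ) ∈ ball (x : ℂ) r → x < y →
      ∃ v : ℝ, Tendsto D (𝓝[UP] (y : ℂ)) (𝓝 (v * exp ((α : ℂ) * I))))
    (hL : ∀ y : ℝ, (y : ℂ) ∈ ball (x : ℂ) r → y < x →
      ∃ v : ℝ, Tendsto D (𝓝[UP] (y : ℂ)) (𝓝 (v * exp (((α + π * (1 / 3) : ℝ) : ℂ) * I)))) :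
    ∃ ρ > 0, ∃ R : ℂ → ℂ, DifferentiableOn ℂ R (ball (x : ℂ) ρ) ∧
      (∀ y : ℝ, (y : ℂ) ∈ ball (x : ℂ) ρ → (R y).im = 0) ∧
      ∀ z ∈ ball (x : ℂ) ρ, 0 < z.im →
        D z ^ 6 = exp (((6 * α : ℝ) : ℂ) * I) * (z - x) ^ 2 * R z ^ 6 := by
  obtain ⟨ρ, hρ, R, h1, h2, h3⟩ := mark_factor hr (by norm_num : (1 / 3 : ℝ) < 1) hd hb hR hL
  refine ⟨ρ, hρ, R, h1, h2, ?_⟩
  intro z hz hz'
  rw [h3 z hz hz', mul_pow, mul_pow, pw_third_pow (by simpa using hz'), ← exp_nat_mul]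
  congr 3
  push_cast
  ring

end Pool.Agent.H98.W
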