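import Mathlib

set_option autoImplicit false

/-! # The revealment inequality of O'Donnell–Servedio for cells (Route W)

`reveal_abs` is an abstract form on a finite weighted space: `S n ω` is the set of the cells revealed
after `n` rounds (rounds may reveal several cells at once), `g i` is a centred function of the cell `i`,
`f` is determined by the revealed cells. The only properties used of the independence of the cells are
`hZ` (a function which does not depend on the cell `i` is orthogonal to `g i`) and `hL`.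

`reveal_pi` is the case of a finite product of arbitrary finite probability spaces. -/

namespace Pool.Agent.H98.W

open Finset

section abs

variable {Ω ι : Type*} [DecidableEq ι]

/-- A revealing process (in rounds). `Same i ω ω'` means: `ω` and `ω'` agree off the cell `i`.
* the first set is deterministic;
* the sets increase;
* what is revealed in round `n + 1` does not depend on a cell that is not revealed after `n` rounds. -/
structure Expl (s : Finset Ω) (Same : ι → Ω → Ω → Prop) (I : Finset ι) (S : ℕ → Ω → Finset ι) :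
    Prop where
  zero : ∀ ω ∈ s, ∀ ω' ∈ s, S 0 ω = S 0 ω'
  mono : ∀ n, ∀ ω ∈ s, S n ω ⊆ S (n + 1) ω
  step : ∀ n, ∀ i ∈ I, ∀ ω ∈ s, ∀ ω' ∈ s, Same i ω ω' → i ∉ S n ω → S (n + 1) ω' = S (n + 1) ω

namespace Expl

variable {s : Finset Ω} {Same : ι → Ω → Ω → Prop} {I : Finset ι} {S : ℕ → Ω → Finset ι}

omit [DecidableEq ι] in
lemma mono_le (h : Expl s Same I S) {ω : Ω} (hω : ω ∈ s) {m n : ℕ} (hmn : m ≤ n) :
    S m ω ⊆ S n ω := by
  induction hmn with
  | refl => exact Subset.refl _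
  | step _ ih => exact ih.trans (h.mono _ ω hω)

omit [DecidableEq ι] in
lemma agree (h : Expl s Same I S) {i : ι} (hi : i ∈ I) {ω ω' : Ω} (hω : ω ∈ s) (hω' : ω' ∈ s)
    (hs : Same i ω ω') {n : ℕ} (hn : i ∉ S n ω) {k : ℕ} (hk : k ≤ n + 1) : S k ω' = S k ω := by
  rcases k with _ | k
  · exact h.zero ω' hω' ω hω
  · exact h.step k i hi ω hω ω' hω' hs fun h1 => hn (h.mono_le hω (by omega) h1)

lemma mem_iff (h : Expl s Same I S) (hsym : ∀ i ω ω', Same i ω ω' → Same i ω' ω) {i : ι} (hi : i ∈ I)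
    {ω ω' : Ω} (hω : ω ∈ s) (hω' : ω' ∈ s) (hs : Same i ω ω') (n : ℕ) :
    i ∈ S n ω ↔ i ∈ S n ω' := by
  constructor
  · intro h1
    by_contra h2
    rw [h.agree hi hω' hω (hsym _ _ _ hs) h2 (Nat.le_succ n)] at h1
    exact h2 h1
  · intro h1
    by_contra h2
    rw [h.agree hi hω hω' hs h2 (Nat.le_succ n)] at h1
    exact h2 h1

/-- `j` is revealed before round `N` ends, and `i` is revealed not later than `j` -/
def Bef (S : ℕ → Ω → Finset ι) (N : ℕ) (i j : ι) (ω : Ω) : Prop :=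
  j ∈ S N ω ∧ ∀ n ≤ N, j ∈ S n ω → i ∈ S n ω

/-- `i` is revealed before round `N` ends, and `j` is revealed strictly before `i` -/
def Sbef (S : ℕ → Ω → Finset ι) (N : ℕ) (i j : ι) (ω : Ω) : Prop :=
  i ∈ S N ω ∧ ∃ n ≤ N, j ∈ S n ω ∧ i ∉ S n ω

lemma bef_of (h : Expl s Same I S) (hsym : ∀ i ω ω', Same i ω ω' → Same i ω' ω) {N : ℕ} {i j : ι}
    (hj : j ∈ I) {ω ω' : Ω} (hω : ω ∈ s) (hω' : ω' ∈ s) (hs : Same j ω ω')
    (hb : Bef S N i j ω) : Bef S N i j ω' := by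
  classical
  refine ⟨(h.mem_iff hsym hj hω hω' hs N).mp hb.1, ?_⟩
  intro n hn hjn
  have hex : ∃ m, j ∈ S m ω' := ⟨n, hjn⟩
  have hm1 := Nat.find_spec hex
  have hm2 : Nat.find hex ≤ n := Nat.find_min' hex hjn
  have hm3 : ∀ m < Nat.find hex, j ∉ S m ω' := fun m hm => Nat.find_min hex hm
  generalize Nat.find hex = m at hm1 hm2 hm3
  have h1 : S m ω = S m ω' := by
    rcases m with _ | k
    · exact h.zero ω hω ω' hω'
    · exact h.step k j hj ω' hω' ω hω (hsym _ _ _ hs) (hm3 k (Nat.lt_succ_self k))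
  have h2 : i ∈ S m ω := hb.2 m (hm2.trans hn) (h1 ▸ hm1)
  rw [h1] at h2
  exact h.mono_le hω' hm2 h2

lemma sbef_of (h : Expl s Same I S) (hsym : ∀ i ω ω', Same i ω ω' → Same i ω' ω) {N : ℕ} {i j : ι}
    (hi : i ∈ I) {ω ω' : Ω} (hω : ω ∈ s) (hω' : ω' ∈ s) (hs : Same i ω ω')
    (hb : Sbef S N i j ω) : Sbef S N i j ω' := by
  refine ⟨(h.mem_iff hsym hi hω hω' hs N).mp hb.1, ?_⟩
  obtain ⟨n, hn, h1, h2⟩ := hb.2
  have h3 : S n ω' = S n ω := h.agree hi hω hω' hs h2 (Nat.le_succ n)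
  exact ⟨n, hn, by rw [h3]; exact h1, by rw [h3]; exact h2⟩

lemma mem_and_mem_iff (h : Expl s Same I S) {N : ℕ} {i j : ι} {ω : Ω} (hω : ω ∈ s) :
    (i ∈ S N ω ∧ j ∈ S N ω) ↔ (Bef S N i j ω ∨ Sbef S N i j ω) := by
  constructor
  · rintro ⟨h1, h2⟩
    by_cases h3 : ∀ n ≤ N, j ∈ S n ω → i ∈ S n ω
    · exact Or.inl ⟨h2, h3⟩
    · push Not at h3
      obtain ⟨n, hn, h4, h5⟩ := h3
      exact Or.inr ⟨h1, n, hn, h4, h5⟩
  · rintro (h1 | ⟨h1, n, hn, h4, _⟩)
    · exact ⟨h1.2 N le_rfl h1.1, h1.1⟩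
    · exact ⟨h1, h.mono_le hω hn h4⟩

omit [DecidableEq ι] in
lemma not_bef_of_sbef {N : ℕ} {i j : ι} {ω : Ω} (h1 : Sbef S N i j ω) : ¬ Bef S N i j ω := by
  obtain ⟨n, hn, h2, h3⟩ := h1.2
  exact fun h4 => h3 (h4.2 n hn h2)

end Expl

open Classical in
/-- **Revealment inequality, abstract form.** -/
theorem reveal_abs {s : Finset Ω} {w : Ω → ℝ} (hw : ∀ ω ∈ s, 0 ≤ w ω) {I : Finset ι}
    {Same : ι → Ω → Ω → Prop} (hsym : ∀ i ω ω', Same i ω ω' → Same i ω' ω) {g : ι → Ω → ℝ}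
    (hZ : ∀ i ∈ I, ∀ h : Ω → ℝ, (∀ ω ∈ s, ∀ ω' ∈ s, Same i ω ω' → h ω = h ω') →
      ∑ ω ∈ s, w ω * (h ω * g i ω) = 0)
    (hL : ∀ i ∈ I, ∀ j ∈ I, i ≠ j → ∀ ω ∈ s, ∀ ω' ∈ s, Same i ω ω' → g j ω = g j ω')
    {S : ℕ → Ω → Finset ι} (hS : Expl s Same I S) (N : ℕ) {f : Ω → ℝ}
    (hf : ∀ i ∈ I, ∀ ω ∈ s, ∀ ω' ∈ s, Same i ω ω' → i ∉ S N ω → f ω = f ω') :
    (∑ i ∈ I, ∑ ω ∈ s, w ω * (f ω * g i ω)) ^ 2 ≤
      (∑ ω ∈ s, w ω * f ω ^ 2) *
        ∑ i ∈ I, ∑ ω ∈ s, w ω * (if i ∈ S N ω then g i ω ^ 2 else 0) := by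
  -- the revealed part
  set X : Ω → ℝ := fun ω => ∑ i ∈ I, if i ∈ S N ω then g i ω else 0 with hX
  have h1 : ∑ i ∈ I, ∑ ω ∈ s, w ω * (f ω * g i ω) = ∑ ω ∈ s, w ω * (f ω * X ω) := by
    have h2 : ∀ i ∈ I, ∑ ω ∈ s, w ω * (f ω * g i ω) =
        ∑ ω ∈ s, w ω * (f ω * (if i ∈ S N ω then g i ω else 0)) := by
      intro i hi
      have h3 := hZ i hi (fun ω => if i ∈ S N ω then 0 else f ω) (by
        intro ω hω ω' hω' hs
        have h4 := hS.mem_iff hsym hi hω hω' hs N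
        by_cases h5 : i ∈ S N ω
        · rw [if_pos h5, if_pos (h4.mp h5)]
        · rw [if_neg h5, if_neg (fun h6 => h5 (h4.mpr h6))]
          exact hf i hi ω hω ω' hω' hs h5)
      have h6 : ∑ ω ∈ s, w ω * (f ω * g i ω) =
          ∑ ω ∈ s, w ω * ((if i ∈ S N ω then 0 else f ω) * g i ω) +
          ∑ ω ∈ s, w ω * (f ω * (if i ∈ S N ω then g i ω else 0)) := by
        rw [← sum_add_distrib]
        refine sum_congr rfl fun ω _ => ?_
        split_ifs <;> ring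
      rw [h6, h3, zero_add]
    rw [sum_congr rfl h2, sum_comm]
    refine sum_congr rfl fun ω _ => ?_
    rw [hX]
    simp only [mul_sum]
  have hcross : ∀ i ∈ I, ∀ j ∈ I, i ≠ j → ∑ ω ∈ s, w ω *
      ((if i ∈ S N ω then g i ω else 0) * (if j ∈ S N ω then g j ω else 0)) = 0 := by
    intro i hi j hj hij
    have h3 := hZ j hj (fun ω => if Expl.Bef S N i j ω then g i ω else 0) (by
      intro ω hω ω' hω' hs
      have h4 : Expl.Bef S N i j ω ↔ Expl.Bef S N i j ω' :=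
        ⟨hS.bef_of hsym hj hω hω' hs, hS.bef_of hsym hj hω' hω (hsym _ _ _ hs)⟩
      by_cases h5 : Expl.Bef S N i j ω
      · rw [if_pos h5, if_pos (h4.mp h5)]
        exact hL j hj i hi hij.symm ω hω ω' hω' hs
      · rw [if_neg h5, if_neg (fun h6 => h5 (h4.mpr h6))])
    have h3' := hZ i hi (fun ω => if Expl.Sbef S N i j ω then g j ω else 0) (by
      intro ω hω ω' hω' hs
      have h4 : Expl.Sbef S N i j ω ↔ Expl.Sbef S N i j ω' :=
        ⟨hS.sbef_of hsym hi hω hω' hs, hS.sbef_of hsym hi hω' hω (hsym _ _ _ hs)⟩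
      by_cases h5 : Expl.Sbef S N i j ω
      · rw [if_pos h5, if_pos (h4.mp h5)]
        exact hL i hi j hj hij ω hω ω' hω' hs
      · rw [if_neg h5, if_neg (fun h6 => h5 (h4.mpr h6))])
    have h4 : ∑ ω ∈ s, w ω *
      ((if i ∈ S N ω then g i ω else 0) * (if j ∈ S N ω then g j ω else 0)) =
        ∑ ω ∈ s, w ω * ((if Expl.Bef S N i j ω then g i ω else 0) * g j ω) +
        ∑ ω ∈ s, w ω * ((if Expl.Sbef S N i j ω then g j ω else 0) * g i ω) := by
      rw [← sum_add_distrib]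
      refine sum_congr rfl fun ω hω => ?_
      rw [← mul_add]
      congr 1
      have h5 := hS.mem_and_mem_iff (N := N) (i := i) (j := j) hω
      by_cases h6 : Expl.Bef S N i j ω
      · have h7 : ¬ Expl.Sbef S N i j ω := fun h => Expl.not_bef_of_sbef h h6
        have h8 := h5.mpr (Or.inl h6)
        rw [if_pos h8.1, if_pos h8.2, if_pos h6, if_neg h7]
        ring
      · by_cases h7 : Expl.Sbef S N i j ω
        · have h8 := h5.mpr (Or.inr h7)
          rw [if_pos h8.1, if_pos h8.2, if_neg h6, if_pos h7]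
          ring
        · rw [if_neg h6, if_neg h7]
          have h8 : ¬ (i ∈ S N ω ∧ j ∈ S N ω) := fun h => (h5.mp h).elim h6 h7
          by_cases h9 : i ∈ S N ω
          · rw [if_neg (fun h => h8 ⟨h9, h⟩)]
            ring
          · rw [if_neg h9]
            ring
    rw [h4, h3, h3', add_zero]
  have h2 : ∑ ω ∈ s, w ω * X ω ^ 2 =
      ∑ i ∈ I, ∑ ω ∈ s, w ω * (if i ∈ S N ω then g i ω ^ 2 else 0) := by
    have h3 : ∀ ω, w ω * X ω ^ 2 = ∑ i ∈ I, ∑ j ∈ I, w ω *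
        ((if i ∈ S N ω then g i ω else 0) * (if j ∈ S N ω then g j ω else 0)) := by
      intro ω
      rw [hX]
      simp only [sq]
      rw [sum_mul_sum, mul_sum]
      exact sum_congr rfl fun i _ => by rw [mul_sum]
    rw [sum_congr rfl fun ω _ => h3 ω, sum_comm]
    refine sum_congr rfl fun i hi => ?_
    rw [sum_comm, sum_eq_single i]
    · refine sum_congr rfl fun ω _ => ?_
      split_ifs
      · rw [sq]
      · rw [mul_zero]
    · intro j hj hji
      exact hcross i hi j hj (Ne.symm hji)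
    · intro h4
      exact absurd hi h4
  rw [h1, ← h2]
  have h4 := Finset.sum_mul_sq_le_sq_mul_sq s (fun ω => Real.sqrt (w ω) * f ω)
    (fun ω => Real.sqrt (w ω) * X ω)
  refine (le_of_eq ?_).trans (h4.trans (le_of_eq ?_))
  · congr 1
    refine sum_congr rfl fun ω hω => ?_
    have := Real.mul_self_sqrt (hw ω hω)
    linear_combination (-(f ω * X ω)) * this
  · congr 1
    · refine sum_congr rfl fun ω hω => ?_
      rw [mul_pow, Real.sq_sqrt (hw ω hω)]
    · refine sum_congr rfl fun ω hω => ?_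
      rw [mul_pow, Real.sq_sqrt (hw ω hω)]

open Classical in
/-- **Revealment inequality, abstract form**, for functions bounded by one. -/
theorem reveal_abs' {s : Finset Ω} {w : Ω → ℝ} (hw : ∀ ω ∈ s, 0 ≤ w ω) (hw1 : ∑ ω ∈ s, w ω = 1)
    {I : Finset ι}
    {Same : ι → Ω → Ω → Prop} (hsym : ∀ i ω ω', Same i ω ω' → Same i ω' ω) {g : ι → Ω → ℝ}
    (hZ : ∀ i ∈ I, ∀ h : Ω → ℝ, (∀ ω ∈ s, ∀ ω' ∈ s, Same i ω ω' → h ω = h ω') →
      ∑ ω ∈ s, w ω * (h ω * g i ω) = 0)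
    (hL : ∀ i ∈ I, ∀ j ∈ I, i ≠ j → ∀ ω ∈ s, ∀ ω' ∈ s, Same i ω ω' → g j ω = g j ω')
    {S : ℕ → Ω → Finset ι} (hS : Expl s Same I S) (N : ℕ) {f : Ω → ℝ}
    (hf : ∀ i ∈ I, ∀ ω ∈ s, ∀ ω' ∈ s, Same i ω ω' → i ∉ S N ω → f ω = f ω')
    (hf1 : ∀ ω ∈ s, |f ω| ≤ 1) (hg1 : ∀ i ∈ I, ∀ ω ∈ s, |g i ω| ≤ 1) :
    ∑ i ∈ I, ∑ ω ∈ s, w ω * (f ω * g i ω) ≤
      Real.sqrt (∑ i ∈ I, ∑ ω ∈ s, w ω * (if i ∈ S N ω then 1 else 0)) := by
  apply Real.le_sqrt_of_sq_le
  refine (reveal_abs hw hsym hZ hL hS N hf).trans ?_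
  have h1 : ∑ ω ∈ s, w ω * f ω ^ 2 ≤ 1 := by
    rw [← hw1]
    refine sum_le_sum fun ω hω => ?_
    have h2 : f ω ^ 2 ≤ 1 := (sq_le_one_iff_abs_le_one _).mpr (hf1 ω hω)
    nlinarith [hw ω hω]
  have h3 : ∀ i ∈ I, ∀ ω ∈ s, w ω * (if i ∈ S N ω then g i ω ^ 2 else 0) ≤
      w ω * (if i ∈ S N ω then 1 else 0) := by
    intro i hi ω hω
    refine mul_le_mul_of_nonneg_left ?_ (hw ω hω)
    split_ifs
    · exact (sq_le_one_iff_abs_le_one _).mpr (hg1 i hi ω hω)
    · exact le_rfl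
  have h4 : 0 ≤ ∑ i ∈ I, ∑ ω ∈ s, w ω * (if i ∈ S N ω then g i ω ^ 2 else 0) := by
    refine sum_nonneg fun i _ => sum_nonneg fun ω hω => mul_nonneg (hw ω hω) ?_
    split_ifs
    · exact sq_nonneg _
    · exact le_rfl
  calc (∑ ω ∈ s, w ω * f ω ^ 2) * ∑ i ∈ I, ∑ ω ∈ s, w ω * (if i ∈ S N ω then g i ω ^ 2 else 0)
      ≤ 1 * ∑ i ∈ I, ∑ ω ∈ s, w ω * (if i ∈ S N ω then g i ω ^ 2 else 0) :=
        mul_le_mul_of_nonneg_right h1 h4
    _ ≤ ∑ i ∈ I, ∑ ω ∈ s, w ω * (if i ∈ S N ω then 1 else 0) := by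
        rw [one_mul]
        exact sum_le_sum fun i hi => sum_le_sum fun ω hω => h3 i hi ω hω

end abs

section pi

variable {ι : Type*} [Fintype ι] [DecidableEq ι] {Ω : ι → Type*} [∀ i, Fintype (Ω i)]

/-- expectation for a finite product of finite probability spaces -/
noncomputable def exPi (p : ∀ i, Ω i → ℝ) (F : (∀ i, Ω i) → ℝ) : ℝ :=
  ∑ ω : ∀ i, Ω i, (∏ i, p i (ω i)) * F ω

lemma exPi_one {p : ∀ i, Ω i → ℝ} (h1 : ∀ i, ∑ x, p i x = 1) : exPi p (fun _ => 1) = 1 := by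
  unfold exPi
  simp only [mul_one]
  have h2 := Finset.prod_univ_sum (fun i : ι => (Finset.univ : Finset (Ω i))) p
  rw [Fintype.piFinset_univ] at h2
  rw [← h2]
  exact Finset.prod_eq_one fun i _ => h1 i

/-- A function that does not depend on the cell `i` is orthogonal to a centred function of the cell. -/
lemma exPi_mul_eq_zero {p : ∀ i, Ω i → ℝ} (i : ι) {G : Ω i → ℝ} (hG : ∑ x, p i x * G x = 0)
    {h : (∀ i, Ω i) → ℝ} (hh : ∀ ω ω' : ∀ i, Ω i, (∀ j, j ≠ i → ω j = ω' j) → h ω = h ω') :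
    exPi p (fun ω => h ω * G (ω i)) = 0 := by
  unfold exPi
  rw [← (Equiv.piSplitAt i Ω).symm.sum_comp, Fintype.sum_prod_type_right]
  refine Finset.sum_eq_zero fun y _ => ?_
  -- everything but `p i x * G x` does not depend on `x`
  set e := (Equiv.piSplitAt i Ω).symm with he
  have hi : ∀ x, e (x, y) i = x := fun x => by
    rw [he]
    simp [Equiv.piSplitAt]
  have hj : ∀ x, ∀ j, ∀ hj : j ≠ i, e (x, y) j = y ⟨j, hj⟩ := fun x j hj => by
    rw [he]
    simp [Equiv.piSplitAt, hj]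
  have h1 : ∀ x, (∏ j, p j (e (x, y) j)) = p i x * ∏ j ∈ Finset.univ.erase i, p j (e (x, y) j) := by
    intro x
    rw [← Finset.mul_prod_erase Finset.univ _ (Finset.mem_univ i), hi]
  rcases isEmpty_or_nonempty (Ω i) with hem | ⟨⟨x0⟩⟩
  · exact Finset.sum_eq_zero fun x _ => (hem.false x).elim
  · have h2 : ∀ x, ∏ j ∈ Finset.univ.erase i, p j (e (x, y) j) =
        ∏ j ∈ Finset.univ.erase i, p j (e (x0, y) j) := by
      intro x
      refine Finset.prod_congr rfl fun j hj' => ?_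
      rw [hj x j (Finset.mem_erase.mp hj').1, hj x0 j (Finset.mem_erase.mp hj').1]
    have h3 : ∀ x, h (e (x, y)) = h (e (x0, y)) := fun x => hh _ _ fun j hj' => by
      rw [hj x j hj', hj x0 j hj']
    have h4 : ∀ x, (∏ j, p j (e (x, y) j)) * (h (e (x, y)) * G (e (x, y) i)) =
        ((∏ j ∈ Finset.univ.erase i, p j (e (x0, y) j)) * h (e (x0, y))) * (p i x * G x) := by
      intro x
      rw [h1, h2, h3, hi]
      ring
    rw [Finset.sum_congr rfl fun x _ => h4 x, ← Finset.mul_sum, hG, mul_zero]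

/-- Exploration of cells, in rounds: the set revealed after `n + 1` rounds is a function of the contents
of the cells revealed after `n` rounds. -/
structure ExplPi (S : ℕ → (∀ i, Ω i) → Finset ι) : Prop where
  zero : ∀ ω ω', S 0 ω = S 0 ω'
  mono : ∀ n ω, S n ω ⊆ S (n + 1) ω
  adapted : ∀ n ω ω', (∀ i ∈ S n ω, ω i = ω' i) → S (n + 1) ω = S (n + 1) ω'

/-- The exploration given by a rule `T`: reveal the cells of `T S ω`, a set that depends only on the
contents of the cells of `S`. -/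
noncomputable def runPi (T : Finset ι → (∀ i, Ω i) → Finset ι) : ℕ → (∀ i, Ω i) → Finset ι
  | 0, _ => ∅
  | n + 1, ω => runPi T n ω ∪ T (runPi T n ω) ω

omit [Fintype ι] [∀ i, Fintype (Ω i)] in
lemma explPi_run {T : Finset ι → (∀ i, Ω i) → Finset ι}
    (hT : ∀ S ω ω', (∀ i ∈ S, ω i = ω' i) → T S ω = T S ω') : ExplPi (runPi T) := by
  have key : ∀ n ω ω', (∀ i ∈ runPi T n ω, ω i = ω' i) →
      runPi T n ω = runPi T n ω' ∧ runPi T (n + 1) ω = runPi T (n + 1) ω' := by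
    intro n
    induction n with
    | zero =>
      intro ω ω' h
      refine ⟨rfl, ?_⟩
      show runPi T 0 ω ∪ T (runPi T 0 ω) ω = runPi T 0 ω' ∪ T (runPi T 0 ω') ω'
      rw [show runPi T 0 ω' = runPi T 0 ω from rfl, hT _ ω ω' h]
    | succ n ih =>
      intro ω ω' h
      have h1 := (ih ω ω' fun i hi => h i (Finset.mem_union_left _ hi)).2
      refine ⟨h1, ?_⟩
      show runPi T (n + 1) ω ∪ T (runPi T (n + 1) ω) ω =
        runPi T (n + 1) ω' ∪ T (runPi T (n + 1) ω') ω'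
      rw [← h1, hT _ ω ω' h]
  exact ⟨fun _ _ => rfl, fun n ω => Finset.subset_union_left, fun n ω ω' h => (key n ω ω' h).2⟩

open Classical in
/-- **Revealment inequality for a finite product of finite probability spaces**
(O'Donnell–Servedio; block form). `f` is determined by the revealed cells; `g i` is a centred function
of the cell `i`. -/
theorem reveal_pi_sq {p : ∀ i, Ω i → ℝ} (h0 : ∀ i x, 0 ≤ p i x)
    {S : ℕ → (∀ i, Ω i) → Finset ι} (hS : ExplPi S) (N : ℕ) {f : (∀ i, Ω i) → ℝ}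
    (hf : ∀ ω ω', (∀ i ∈ S N ω, ω i = ω' i) → f ω = f ω') {g : ∀ i, Ω i → ℝ}
    (hg : ∀ i, ∑ x, p i x * g i x = 0) :
    (∑ i, exPi p (fun ω => f ω * g i (ω i))) ^ 2 ≤
      exPi p (fun ω => f ω ^ 2) *
        ∑ i, exPi p (fun ω => if i ∈ S N ω then g i (ω i) ^ 2 else 0) := by
  have hE : Expl (Finset.univ : Finset (∀ i, Ω i)) (fun i ω ω' => ∀ j, j ≠ i → ω j = ω' j)
      Finset.univ S := by
    refine ⟨fun ω _ ω' _ => hS.zero ω ω', fun n ω _ => hS.mono n ω, ?_⟩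
    intro n i _ ω _ ω' _ hs hi
    symm
    apply hS.adapted
    intro j hj
    exact hs j fun h => hi (h ▸ hj)
  exact reveal_abs (s := (Finset.univ : Finset (∀ i, Ω i))) (w := fun ω => ∏ i, p i (ω i))
    (I := Finset.univ) (Same := fun i ω ω' => ∀ j, j ≠ i → ω j = ω' j) (g := fun i ω => g i (ω i))
    (S := S) (f := f)
    (fun ω _ => Finset.prod_nonneg fun i _ => h0 i (ω i))
    (fun i ω ω' h j hj => (h j hj).symm)
    (fun i _ h hh => exPi_mul_eq_zero i (hg i) fun ω ω' hs =>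
      hh ω (Finset.mem_univ _) ω' (Finset.mem_univ _) hs)
    (fun i _ j _ hij ω _ ω' _ hs => by rw [hs j hij.symm]) hE N
    (fun i _ ω _ ω' _ hs hi => hf ω ω' fun j hj => hs j fun h => hi (h ▸ hj))

open Classical in
/-- **Revealment inequality for a finite product of finite probability spaces**, for functions bounded
by one. -/
theorem reveal_pi {p : ∀ i, Ω i → ℝ} (h0 : ∀ i x, 0 ≤ p i x) (h1 : ∀ i, ∑ x, p i x = 1)
    {S : ℕ → (∀ i, Ω i) → Finset ι} (hS : ExplPi S) (N : ℕ) {f : (∀ i, Ω i) → ℝ}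
    (hf : ∀ ω ω', (∀ i ∈ S N ω, ω i = ω' i) → f ω = f ω') {g : ∀ i, Ω i → ℝ}
    (hg : ∀ i, ∑ x, p i x * g i x = 0) (hf1 : ∀ ω, |f ω| ≤ 1) (hg1 : ∀ i x, |g i x| ≤ 1) :
    ∑ i, exPi p (fun ω => f ω * g i (ω i)) ≤
      Real.sqrt (exPi p (fun ω => ((S N ω).card : ℝ))) := by
  have hE : Expl (Finset.univ : Finset (∀ i, Ω i)) (fun i ω ω' => ∀ j, j ≠ i → ω j = ω' j)
      Finset.univ S := by
    refine ⟨fun ω _ ω' _ => hS.zero ω ω', fun n ω _ => hS.mono n ω, ?_⟩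
    intro n i _ ω _ ω' _ hs hi
    symm
    apply hS.adapted
    intro j hj
    exact hs j fun h => hi (h ▸ hj)
  have h2 := reveal_abs' (s := (Finset.univ : Finset (∀ i, Ω i))) (w := fun ω => ∏ i, p i (ω i))
    (I := Finset.univ) (Same := fun i ω ω' => ∀ j, j ≠ i → ω j = ω' j) (g := fun i ω => g i (ω i))
    (S := S) (f := f)
    (fun ω _ => Finset.prod_nonneg fun i _ => h0 i (ω i))
    (by simpa only [exPi, mul_one] using exPi_one h1)
    (fun i ω ω' h j hj => (h j hj).symm)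
    (fun i _ h hh => exPi_mul_eq_zero i (hg i) fun ω ω' hs =>
      hh ω (Finset.mem_univ _) ω' (Finset.mem_univ _) hs)
    (fun i _ j _ hij ω _ ω' _ hs => by rw [hs j hij.symm]) hE N
    (fun i _ ω _ ω' _ hs hi => hf ω ω' fun j hj => hs j fun h => hi (h ▸ hj))
    (fun ω _ => hf1 ω) (fun i _ ω _ => hg1 i (ω i))
  refine h2.trans (le_of_eq ?_)
  congr 1
  unfold exPi
  rw [Finset.sum_comm]
  refine Finset.sum_congr rfl fun ω _ => ?_
  rw [← Finset.mul_sum]
  congr 1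
  simp

end pi

end Pool.Agent.H98.W
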