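import Mathlib
import Pool.Agent.H98.W.Reveal
import Pool.Agent.H69.NC.Osss
import Pool.Agent.H99.NC.Prob

set_option autoImplicit false

/-! # The revealment inequality for blocks of edges, and Garban's bound for pivotal cells (Route W)

Framework of `H69/NC`: configurations are finite sets `ω ⊆ E` of open edges, the edge `e` is open with
probability `q e`; the cell `b` has the edges `blk b`.

* `reveal_blk`, `reveal_blk'`: the revealment inequality for an exploration of cells;
* `reveal_tree`: the same for the decision trees `DT` of `Osss.lean`;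
* `cov_ge`: lower bound for the covariance of an increasing event with an increasing event in a cell;
* `garban`: `∑ P(cell b is well pivotal) ≤ C (∑ P(b revealed))^{1/2}`;
* `closure_explore`: explorations of clusters. -/

namespace Pool.Agent.H98.W

open Finset
open Pool.Agent.H75.Perc Pool.Agent.H69.NC Pool.Agent.H69.NC.Osss84

section blk
variable {α ι : Type*} [DecidableEq α] [DecidableEq ι]

/-- Exploration of the blocks of `J`, in rounds. -/
structure ExplB (E : Finset α) (J : Finset ι) (blk : ι → Finset α) (S : ℕ → Finset α → Finset ι) :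
    Prop where
  zero : ∀ ω ω', ω ⊆ E → ω' ⊆ E → S 0 ω = S 0 ω'
  sub : ∀ n ω, ω ⊆ E → S n ω ⊆ J
  mono : ∀ n ω, ω ⊆ E → S n ω ⊆ S (n + 1) ω
  adapted : ∀ n ω ω', ω ⊆ E → ω' ⊆ E → (∀ b ∈ S n ω, ω ∩ blk b = ω' ∩ blk b) →
    S (n + 1) ω = S (n + 1) ω'

/-- A function that does not depend on the block `B` is orthogonal to a centred function of `B`. -/
lemma ex_mul_eq_zero {q : α → ℝ} {E B : Finset α} (hB : B ⊆ E) {G : Finset α → ℝ}
    (hGB : ∀ ω, ω ⊆ E → G ω = G (ω ∩ B)) (hG : ex q E G = 0) {h : Finset α → ℝ}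
    (hh : ∀ ω, ω ⊆ E → ∀ ω', ω' ⊆ E → ω \ B = ω' \ B → h ω = h ω') :
    ex q E (fun ω => h ω * G ω) = 0 := by
  have h0 : ex q E (fun ω => h ω * G ω) =
      ex q E (fun ω => (fun x ω => h ((ω ∩ E) \ B) * G x) (ω ∩ B) ω) := by
    apply ex_congr
    intro ω hω
    show h ω * G ω = h ((ω ∩ E) \ B) * G (ω ∩ B)
    rw [← hGB ω hω, inter_eq_left.mpr hω]
    congr 1
    apply hh ω hω _ (sdiff_subset.trans hω)
    rw [Finset.sdiff_idem]
  have h1 : ex q E (fun ω => (fun x ω => h ((ω ∩ E) \ B) * G x) (ω ∩ B) ω) =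
      ex q B (fun x => ex q E (fun ω => h ((ω ∩ E) \ B) * G x)) := by
    refine ex_cond q hB (fun x ω => h ((ω ∩ E) \ B) * G x) ?_
    intro x ω
    show h ((ω ∩ E) \ B) * G x = h (((ω \ B) ∩ E) \ B) * G x
    congr 2
    ext e
    simp only [mem_sdiff, mem_inter]
    tauto
  have h2 : ex q B (fun x => ex q E (fun ω => h ((ω ∩ E) \ B) * G x)) =
      ex q B (fun x => ex q E (fun ω => h ((ω ∩ E) \ B)) * G x) := by
    apply ex_congr
    intro x _
    exact ex_mul_right q E _ _
  have h3 : ex q B (fun x => G x) = 0 := by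
    rw [← hG]
    have h4 : ex q E G = ex q E (fun ω => (fun x _ => G x) (ω ∩ B) ω) := ex_congr hGB
    rw [h4, ex_cond q hB (fun x _ => G x) (fun _ _ => rfl)]
    apply ex_congr
    intro x _
    exact (ex_const q E _).symm
  rw [h0, h1, h2, ex_mul_left, h3, mul_zero]

omit [DecidableEq ι] in
lemma explB_expl {E : Finset α} {J : Finset ι} {blk : ι → Finset α} {S : ℕ → Finset α → Finset ι}
    (hS : ExplB E J blk S) {I : Finset ι}
    (hd : ∀ b ∈ I, ∀ b' ∈ J, b ≠ b' → Disjoint (blk b) (blk b')) :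
    Expl E.powerset (fun b ω ω' => ω \ blk b = ω' \ blk b) I S := by
  refine ⟨?_, ?_, ?_⟩
  · intro ω hω ω' hω'
    exact hS.zero ω ω' (mem_powerset.mp hω) (mem_powerset.mp hω')
  · intro n ω hω
    exact hS.mono n ω (mem_powerset.mp hω)
  · intro n b hb ω hω ω' hω' hs hbn
    rw [mem_powerset] at hω hω'
    symm
    apply hS.adapted n ω ω' hω hω'
    intro b' hb'
    have h1 : Disjoint (blk b) (blk b') :=
      hd b hb b' (hS.sub n ω hω hb') fun h => hbn (h ▸ hb')
    have h2 : ∀ e ∈ blk b', (e ∈ ω ↔ e ∈ ω') := by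
      intro e he
      have h3 : e ∉ blk b := fun h => Finset.disjoint_left.mp h1 h he
      have h4 : e ∈ ω \ blk b ↔ e ∈ ω' \ blk b := by rw [hs]
      simpa only [mem_sdiff, h3, not_false_eq_true, and_true] using h4
    ext e
    simp only [mem_inter]
    constructor
    · rintro ⟨h3, h4⟩
      exact ⟨(h2 e h4).mp h3, h4⟩
    · rintro ⟨h3, h4⟩
      exact ⟨(h2 e h4).mpr h3, h4⟩

open Classical in
/-- **Revealment inequality for blocks of edges.** -/
theorem reveal_blk_sq {q : α → ℝ} (hq : Wt q) {E : Finset α} {I J : Finset ι} (hIJ : I ⊆ J)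
    {blk : ι → Finset α} (hsub : ∀ b ∈ I, blk b ⊆ E)
    (hd : ∀ b ∈ I, ∀ b' ∈ J, b ≠ b' → Disjoint (blk b) (blk b'))
    {S : ℕ → Finset α → Finset ι} (hS : ExplB E J blk S) (N : ℕ) {f : Finset α → ℝ}
    (hf : ∀ ω ω', ω ⊆ E → ω' ⊆ E → (∀ b ∈ S N ω, ω ∩ blk b = ω' ∩ blk b) → f ω = f ω')
    {g : ι → Finset α → ℝ} (hgb : ∀ b ∈ I, ∀ ω, ω ⊆ E → g b ω = g b (ω ∩ blk b))
    (hg0 : ∀ b ∈ I, ex q E (g b) = 0) :
    (∑ b ∈ I, ex q E (fun ω => f ω * g b ω)) ^ 2 ≤
      ex q E (fun ω => f ω ^ 2) *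
        ∑ b ∈ I, ex q E (fun ω => if b ∈ S N ω then g b ω ^ 2 else 0) := by
  have hE := explB_expl hS hd
  refine reveal_abs (s := E.powerset) (w := W q E) (I := I)
    (Same := fun b ω ω' => ω \ blk b = ω' \ blk b) (g := g) (S := S) (f := f)
    (fun ω _ => W_nonneg hq E ω) (fun b ω ω' h => h.symm) ?_ ?_ hE N ?_
  · intro b hb h hh
    exact ex_mul_eq_zero (hsub b hb) (hgb b hb) (hg0 b hb) fun ω hω ω' hω' hs =>
      hh ω (mem_powerset.mpr hω) ω' (mem_powerset.mpr hω') hs
  · intro b hb b' hb' hne ω hω ω' hω' hs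
    rw [mem_powerset] at hω hω'
    rw [hgb b' hb' ω hω, hgb b' hb' ω' hω']
    congr 1
    have h1 : Disjoint (blk b) (blk b') := hd b hb b' (hIJ hb') hne
    ext e
    simp only [mem_inter]
    have h4 : e ∈ ω \ blk b ↔ e ∈ ω' \ blk b := by rw [hs]
    simp only [mem_sdiff] at h4
    have h3 : e ∈ blk b' → e ∉ blk b := fun h h' => Finset.disjoint_left.mp h1 h' h
    tauto
  · intro b hb ω hω ω' hω' hs hbn
    rw [mem_powerset] at hω hω'
    apply hf ω ω' hω hω'
    intro b' hb'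
    have h1 : Disjoint (blk b) (blk b') :=
      hd b hb b' (hS.sub N ω hω hb') fun h => hbn (h ▸ hb')
    ext e
    simp only [mem_inter]
    have h4 : e ∈ ω \ blk b ↔ e ∈ ω' \ blk b := by rw [hs]
    simp only [mem_sdiff] at h4
    have h3 : e ∈ blk b' → e ∉ blk b := fun h h' => Finset.disjoint_left.mp h1 h' h
    tauto

/-- **Revealment inequality for blocks of edges**, for functions bounded by one. -/
theorem reveal_blk {q : α → ℝ} (hq : Wt q) {E : Finset α} {I J : Finset ι} (hIJ : I ⊆ J)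
    {blk : ι → Finset α} (hsub : ∀ b ∈ I, blk b ⊆ E)
    (hd : ∀ b ∈ I, ∀ b' ∈ J, b ≠ b' → Disjoint (blk b) (blk b'))
    {S : ℕ → Finset α → Finset ι} (hS : ExplB E J blk S) (N : ℕ) {f : Finset α → ℝ}
    (hf : ∀ ω ω', ω ⊆ E → ω' ⊆ E → (∀ b ∈ S N ω, ω ∩ blk b = ω' ∩ blk b) → f ω = f ω')
    {g : ι → Finset α → ℝ} (hgb : ∀ b ∈ I, ∀ ω, ω ⊆ E → g b ω = g b (ω ∩ blk b))
    (hg0 : ∀ b ∈ I, ex q E (g b) = 0) (hf1 : ∀ ω, ω ⊆ E → |f ω| ≤ 1)
    (hg1 : ∀ b ∈ I, ∀ ω, ω ⊆ E → |g b ω| ≤ 1) :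
    ∑ b ∈ I, ex q E (fun ω => f ω * g b ω) ≤
      Real.sqrt (∑ b ∈ I, PQ q E (fun ω => b ∈ S N ω)) := by
  classical
  apply Real.le_sqrt_of_sq_le
  refine (reveal_blk_sq hq hIJ hsub hd hS N hf hgb hg0).trans ?_
  have h1 : ex q E (fun ω => f ω ^ 2) ≤ 1 := by
    rw [← ex_one q E]
    exact ex_mono hq fun ω hω => (sq_le_one_iff_abs_le_one _).mpr (hf1 ω hω)
  have h3 : ∀ b ∈ I, ex q E (fun ω => if b ∈ S N ω then g b ω ^ 2 else 0) ≤
      PQ q E (fun ω => b ∈ S N ω) := by
    intro b hb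
    rw [PQ_eq_ex]
    refine ex_mono hq fun ω hω => ?_
    split_ifs
    · exact (sq_le_one_iff_abs_le_one _).mpr (hg1 b hb ω hω)
    · exact le_rfl
  have h4 : 0 ≤ ∑ b ∈ I, ex q E (fun ω => if b ∈ S N ω then g b ω ^ 2 else 0) := by
    refine sum_nonneg fun b _ => ex_nonneg hq fun ω _ => ?_
    split_ifs
    · exact sq_nonneg _
    · exact le_rfl
  calc ex q E (fun ω => f ω ^ 2) *
        ∑ b ∈ I, ex q E (fun ω => if b ∈ S N ω then g b ω ^ 2 else 0)
      ≤ 1 * ∑ b ∈ I, ex q E (fun ω => if b ∈ S N ω then g b ω ^ 2 else 0) :=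
        mul_le_mul_of_nonneg_right h1 h4
    _ ≤ ∑ b ∈ I, PQ q E (fun ω => b ∈ S N ω) := by
        rw [one_mul]
        exact sum_le_sum h3

/-! ### Decision trees -/

/-- the blocks revealed by the first `n` steps of a decision tree -/
def revN (blk : ι → Finset α) : ℕ → DT ι (Finset α) → Finset α → Finset ι
  | 0, _, _ => ∅
  | _ + 1, .leaf, _ => ∅
  | n + 1, .node b ch, ω => insert b (revN blk n (ch (ω ∩ blk b)) ω)

lemma revN_mem (blk : ι → Finset α) (n : ℕ) : ∀ (T : DT ι (Finset α)) {b : ι} {ω : Finset α},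
    b ∈ revN blk n T ω → T.Mem b := by
  induction n with
  | zero => intro T b ω h; exact absurd h (Finset.notMem_empty b)
  | succ n ih =>
    intro T b ω h
    cases T with
    | leaf => exact absurd h (Finset.notMem_empty b)
    | node b' ch =>
      rw [revN, mem_insert] at h
      rcases h with h | h
      · exact Or.inl h
      · exact Or.inr ⟨_, ih _ h⟩

lemma revN_mono (blk : ι → Finset α) (n : ℕ) : ∀ (T : DT ι (Finset α)) (ω : Finset α),
    revN blk n T ω ⊆ revN blk (n + 1) T ω := by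
  induction n with
  | zero => intro T ω; exact Finset.empty_subset _
  | succ n ih =>
    intro T ω
    cases T with
    | leaf => exact Subset.refl _
    | node b' ch =>
      rw [revN, revN]
      exact insert_subset_insert _ (ih _ ω)

lemma revN_congr (blk : ι → Finset α) (n : ℕ) : ∀ (T : DT ι (Finset α)) (ω ω' : Finset α),
    (∀ b ∈ revN blk n T ω, ω ∩ blk b = ω' ∩ blk b) →
      revN blk n T ω = revN blk n T ω' ∧ revN blk (n + 1) T ω = revN blk (n + 1) T ω' := by
  induction n with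
  | zero =>
    intro T ω ω' _
    refine ⟨rfl, ?_⟩
    cases T with
    | leaf => rfl
    | node b ch => rfl
  | succ n ih =>
    intro T ω ω' h
    cases T with
    | leaf => exact ⟨rfl, rfl⟩
    | node b ch =>
      have h1 : ω ∩ blk b = ω' ∩ blk b := h b (by rw [revN]; exact mem_insert_self _ _)
      have h2 := ih (ch (ω ∩ blk b)) ω ω' fun b' hb' => h b' (by
        rw [revN]; exact mem_insert_of_mem hb')
      constructor
      · rw [revN, revN, ← h1, h2.1]
      · rw [revN, revN, ← h1, h2.2]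

lemma revN_eq (blk : ι → Finset α) : ∀ (n : ℕ) (T : DT ι (Finset α)) (J : Finset ι), T.Simple →
    (∀ b, T.Mem b → b ∈ J) → J.card ≤ n → ∀ ω, revN blk n T ω = T.rev blk ω := by
  intro n
  induction n with
  | zero =>
    intro T J _ hJ hc ω
    cases T with
    | leaf => rfl
    | node b ch =>
      have h1 : b ∈ J := hJ b (Or.inl rfl)
      rw [Nat.le_zero, card_eq_zero] at hc
      rw [hc] at h1
      exact absurd h1 (Finset.notMem_empty b)
  | succ n ih =>
    intro T J hs hJ hc ω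
    cases T with
    | leaf => rfl
    | node b ch =>
      rw [revN, DT.rev]
      congr 1
      apply ih _ (J.erase b) (hs _).2
      · intro b' hb'
        rw [mem_erase]
        refine ⟨?_, hJ b' (Or.inr ⟨_, hb'⟩)⟩
        rintro rfl
        exact (hs _).1 hb'
      · have h1 : b ∈ J := hJ b (Or.inl rfl)
        rw [card_erase_of_mem h1]
        omega

/-- A decision tree without repetitions, whose blocks are in `J`, is an exploration. -/
theorem explB_tree (E : Finset α) {J : Finset ι} (blk : ι → Finset α) (T : DT ι (Finset α))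
    (hJ : ∀ b, T.Mem b → b ∈ J) : ExplB E J blk (fun n => revN blk n T) :=
  ⟨fun _ _ _ _ => rfl, fun _ _ _ _ hb => hJ _ (revN_mem blk _ T hb), fun n ω _ => revN_mono blk n T ω,
    fun n ω ω' _ _ h => (revN_congr blk n T ω ω' h).2⟩

/-- **Revealment inequality for decision trees.** -/
theorem reveal_tree {q : α → ℝ} (hq : Wt q) {E : Finset α} {I J : Finset ι} (hIJ : I ⊆ J)
    {blk : ι → Finset α} (hsub : ∀ b ∈ I, blk b ⊆ E)
    (hd : ∀ b ∈ I, ∀ b' ∈ J, b ≠ b' → Disjoint (blk b) (blk b'))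
    (T : DT ι (Finset α)) (hs : T.Simple) (hJ : ∀ b, T.Mem b → b ∈ J) {f : Finset α → ℝ}
    (hf : ∀ ω ω', ω ⊆ E → ω' ⊆ E → (∀ b ∈ T.rev blk ω, ω ∩ blk b = ω' ∩ blk b) → f ω = f ω')
    {g : ι → Finset α → ℝ} (hgb : ∀ b ∈ I, ∀ ω, ω ⊆ E → g b ω = g b (ω ∩ blk b))
    (hg0 : ∀ b ∈ I, ex q E (g b) = 0) (hf1 : ∀ ω, ω ⊆ E → |f ω| ≤ 1)
    (hg1 : ∀ b ∈ I, ∀ ω, ω ⊆ E → |g b ω| ≤ 1) :
    ∑ b ∈ I, ex q E (fun ω => f ω * g b ω) ≤
      Real.sqrt (∑ b ∈ I, PQ q E (fun ω => b ∈ T.rev blk ω)) := by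
  have h1 : ∀ ω, revN blk J.card T ω = T.rev blk ω := revN_eq blk J.card T J hs hJ le_rfl
  have h2 := reveal_blk hq hIJ hsub hd (explB_tree E blk T hJ) J.card (f := f)
    (fun ω ω' hω hω' h => hf ω ω' hω hω' fun b hb => h b (by
      show b ∈ revN blk J.card T ω
      rw [h1]; exact hb)) hgb hg0 hf1 hg1
  refine h2.trans (le_of_eq ?_)
  congr 1
  refine sum_congr rfl fun b _ => PQ_congr fun ω _ => ?_
  show b ∈ revN blk J.card T ω ↔ _
  rw [h1]

/-! ### Lower bound for the covariance with a cell -/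

/-- **A well pivotal cell.** `A` increasing; `U` increasing, `V` any event, both read in the block `B`;
`G` an event off `B` under which `U` forces `A` and `V` forces `¬ A`. -/
theorem cov_ge {q : α → ℝ} (hq : Wt q) {E B : Finset α} (hB : B ⊆ E) {A U V G : Finset α → Prop}
    (hA : Inc A) (hU : Inc U)
    (hG1 : ∀ y ⊆ E \ B, G y → ∀ x ⊆ B, U x → A (x ∪ y))
    (hG2 : ∀ y ⊆ E \ B, G y → ∀ x ⊆ B, V x → ¬ A (x ∪ y)) :
    PQ q B U * PQ q B V * PQ q E (fun ω => G (ω \ B)) ≤
      PQ q E (fun ω => A ω ∧ U (ω ∩ B)) - PQ q E A * PQ q B U := by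
  classical
  have e1 : PQ q E (fun ω => A ω ∧ U (ω ∩ B)) =
      ex q (E \ B) (fun y => PQ q B (fun x => A (x ∪ y) ∧ U x)) := by
    rw [PQ_eq_ex, ex_split q (sdiff_subset : E \ B ⊆ E)]
    have hEB : E \ (E \ B) = B := by
      rw [sdiff_sdiff_right_self]
      exact inf_eq_right.mpr hB
    rw [hEB]
    refine ex_congr fun y hy => ?_
    rw [PQ_eq_ex]
    refine ex_congr fun x hx => ?_
    have h1 : (y ∪ x) ∩ B = x := by
      ext e
      simp only [mem_inter, mem_union]
      constructor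
      · rintro ⟨h | h, h'⟩
        · exact absurd h' (mem_sdiff.mp (hy h)).2
        · exact h
      · intro h
        exact ⟨Or.inr h, hx h⟩
    rw [h1, union_comm y x]
  have e2 : PQ q E A = ex q (E \ B) (fun y => PQ q B (fun x => A (x ∪ y))) := by
    rw [PQ_eq_ex, ex_split q (sdiff_subset : E \ B ⊆ E)]
    have hEB : E \ (E \ B) = B := by
      rw [sdiff_sdiff_right_self]
      exact inf_eq_right.mpr hB
    rw [hEB]
    refine ex_congr fun y hy => ?_
    rw [PQ_eq_ex]
    refine ex_congr fun x hx => ?_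
    rw [union_comm y x]
  have e3 : PQ q E (fun ω => G (ω \ B)) = ex q (E \ B) (fun y => if G y then 1 else 0) := by
    rw [PQ_eq_ex]
    refine (ex_sdiff q hB (fun ω => if G (ω \ B) then (1 : ℝ) else 0) (fun ω => ?_)).trans ?_
    · rw [Finset.sdiff_idem]
    · refine ex_congr fun y hy => ?_
      have : y \ B = y := by
        rw [Finset.sdiff_eq_self_iff_disjoint]
        exact (disjoint_sdiff.mono_right hy).symm
      rw [this]
  rw [e1, e2, e3, ← ex_mul_right, ← ex_mul_left]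
  have h1 : ∀ y, y ⊆ E \ B → PQ q B U * PQ q B V * (if G y then 1 else 0) +
      PQ q B (fun x => A (x ∪ y)) * PQ q B U ≤ PQ q B (fun x => A (x ∪ y) ∧ U x) := by
    intro y hy
    have hAy : Inc (fun x => A (x ∪ y)) := fun x x' h1 h2 =>
      hA _ _ (union_subset_union_left h1) h2
    by_cases hg : G y
    · rw [if_pos hg, mul_one]
      have h2 : PQ q B (fun x => A (x ∪ y) ∧ U x) = PQ q B U :=
        PQ_congr fun x hx => ⟨fun h => h.2, fun h => ⟨hG1 y hy hg x hx h, h⟩⟩
      have h3 : PQ q B (fun x => A (x ∪ y)) ≤ 1 - PQ q B V := by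
        rw [← PQ_not]
        exact PQ_mono hq fun x hx h hv => hG2 y hy hg x hx hv h
      rw [h2]
      have h4 := PQ_nonneg hq B U
      nlinarith
    · rw [if_neg hg, mul_zero, zero_add]
      exact PQ_harris hq B hAy hU
  have h2 : ex q (E \ B) (fun y => PQ q B U * PQ q B V * (if G y then 1 else 0) +
      PQ q B (fun x => A (x ∪ y)) * PQ q B U) ≤
      ex q (E \ B) (fun y => PQ q B (fun x => A (x ∪ y) ∧ U x)) := ex_mono hq h1
  rw [ex_add] at h2
  linarith

/-- **Garban's bound for cells.** `A` an increasing event determined by an exploration of the cells of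
`J`; for the cells `b ∈ I`, `U b` is an increasing and `V b` any event in the block, both of probability
at least `c`, and `G b` is an event off the block under which `U b` forces `A` and `V b` forces `¬ A`.
Then the sum of the probabilities of the events `G b` is at most
`c ^ (-2) * (sum of the revealment probabilities) ^ (1/2)`. -/
theorem garban {q : α → ℝ} (hq : Wt q) {E : Finset α} {I J : Finset ι} (hIJ : I ⊆ J)
    {blk : ι → Finset α} (hsub : ∀ b ∈ I, blk b ⊆ E)
    (hd : ∀ b ∈ I, ∀ b' ∈ J, b ≠ b' → Disjoint (blk b) (blk b'))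
    {S : ℕ → Finset α → Finset ι} (hS : ExplB E J blk S) (N : ℕ) {A : Finset α → Prop}
    (hA : Inc A)
    (hf : ∀ ω ω', ω ⊆ E → ω' ⊆ E → (∀ b ∈ S N ω, ω ∩ blk b = ω' ∩ blk b) → (A ω → A ω'))
    {U V G : ι → Finset α → Prop} (hU : ∀ b ∈ I, Inc (U b)) {c : ℝ} (hc : 0 ≤ c)
    (hUc : ∀ b ∈ I, c ≤ PQ q (blk b) (U b)) (hVc : ∀ b ∈ I, c ≤ PQ q (blk b) (V b))
    (hG1 : ∀ b ∈ I, ∀ y ⊆ E \ blk b, G b y → ∀ x ⊆ blk b, U b x → A (x ∪ y))
    (hG2 : ∀ b ∈ I, ∀ y ⊆ E \ blk b, G b y → ∀ x ⊆ blk b, V b x → ¬ A (x ∪ y)) :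
    c ^ 2 * ∑ b ∈ I, PQ q E (fun ω => G b (ω \ blk b)) ≤
      Real.sqrt (∑ b ∈ I, PQ q E (fun ω => b ∈ S N ω)) := by
  classical
  set f : Finset α → ℝ := fun ω => if A ω then 1 else 0 with hfdef
  set g : ι → Finset α → ℝ := fun b ω => (if U b (ω ∩ blk b) then 1 else 0) - PQ q (blk b) (U b)
    with hgdef
  -- `f` is determined by the revealed cells
  have hcl : ∀ n ω ω', ω ⊆ E → ω' ⊆ E → (∀ b ∈ S n ω, ω ∩ blk b = ω' ∩ blk b) →
      S n ω = S n ω' := by
    intro n ω ω' hω hω' h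
    rcases n with _ | n
    · exact hS.zero ω ω' hω hω'
    · exact hS.adapted n ω ω' hω hω' fun b hb => h b (hS.mono n ω hω hb)
  have hf' : ∀ ω ω', ω ⊆ E → ω' ⊆ E → (∀ b ∈ S N ω, ω ∩ blk b = ω' ∩ blk b) → f ω = f ω' := by
    intro ω ω' hω hω' h
    have h1 := hf ω ω' hω hω' h
    have h2 := hf ω' ω hω' hω (by
      rw [← hcl N ω ω' hω hω' h]
      exact fun b hb => (h b hb).symm)
    by_cases h3 : A ω
    · rw [hfdef]
      simp only [if_pos h3, if_pos (h1 h3)]
    · rw [hfdef]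
      simp only [if_neg h3, if_neg (fun h4 => h3 (h2 h4))]
  have hgb : ∀ b ∈ I, ∀ ω, ω ⊆ E → g b ω = g b (ω ∩ blk b) := by
    intro b _ ω _
    rw [hgdef]
    simp only [inter_assoc, inter_self]
  have hPU : ∀ b ∈ I, ex q E (fun ω => if U b (ω ∩ blk b) then (1 : ℝ) else 0) =
      PQ q (blk b) (U b) := by
    intro b hb
    rw [← PQ_eq_ex, PQ_restrict (hsub b hb)]
  have hg0 : ∀ b ∈ I, ex q E (g b) = 0 := by
    intro b hb
    have h1 : ex q E (g b) = ex q E (fun ω => (if U b (ω ∩ blk b) then (1 : ℝ) else 0) +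
        -PQ q (blk b) (U b)) := ex_congr fun ω _ => by rw [hgdef]; ring
    rw [h1, ex_add, ex_const, hPU b hb, add_neg_cancel]
  have hg1 : ∀ b ∈ I, ∀ ω, ω ⊆ E → |g b ω| ≤ 1 := by
    intro b _ ω _
    have h1 := PQ_nonneg hq (blk b) (U b)
    have h2 := PQ_le_one hq (blk b) (U b)
    rw [hgdef, abs_le]
    simp only
    split_ifs <;> constructor <;> linarith
  have hf1 : ∀ ω, ω ⊆ E → |f ω| ≤ 1 := by
    intro ω _
    rw [hfdef]
    simp only
    split_ifs <;> norm_num
  refine le_trans ?_ (reveal_blk hq hIJ hsub hd hS N hf' hgb hg0 hf1 hg1)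
  rw [mul_sum]
  refine sum_le_sum fun b hb => ?_
  have h1 : ex q E (fun ω => f ω * g b ω) =
      PQ q E (fun ω => A ω ∧ U b (ω ∩ blk b)) - PQ q E A * PQ q (blk b) (U b) := by
    have h2 : ex q E (fun ω => f ω * g b ω) =
        ex q E (fun ω => (if A ω ∧ U b (ω ∩ blk b) then (1 : ℝ) else 0) +
          (if A ω then (1 : ℝ) else 0) * -PQ q (blk b) (U b)) := by
      refine ex_congr fun ω _ => ?_
      rw [hfdef, hgdef]
      simp only
      by_cases h3 : A ω
      · by_cases h4 : U b (ω ∩ blk b)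
        · rw [if_pos h3, if_pos h4, if_pos ⟨h3, h4⟩]
          ring
        · rw [if_pos h3, if_neg h4, if_neg (fun h => h4 h.2)]
          ring
      · have h5 : ¬ (A ω ∧ U b (ω ∩ blk b)) := fun h => h3 h.1
        rw [if_neg h3, if_neg h5]
        ring
    rw [h2, ex_add, ex_mul_right, ← PQ_eq_ex, ← PQ_eq_ex]
    ring
  rw [h1]
  refine le_trans ?_ (cov_ge hq (hsub b hb) hA (hU b hb) (hG1 b hb) (hG2 b hb))
  refine mul_le_mul_of_nonneg_right ?_ (PQ_nonneg hq _ _)
  rw [sq]
  exact mul_le_mul (hUc b hb) (hVc b hb) hc (hc.trans (hUc b hb))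

/-! ### Explorations of clusters -/

/-- Explore: reveal the blocks of `J` touched, `Tch ζ` being the set of blocks touched by the
configuration `ζ` seen so far. -/
noncomputable def runB (blk : ι → Finset α) (Tch : Finset α → Finset ι) :
    ℕ → Finset α → Finset ι
  | 0, _ => ∅
  | n + 1, ω => runB blk Tch n ω ∪ Tch (ω ∩ (runB blk Tch n ω).biUnion blk)

omit [DecidableEq ι] in
lemma inter_biUnion_congr {blk : ι → Finset α} {R : Finset ι} {ω ω' : Finset α}
    (h : ∀ b ∈ R, ω ∩ blk b = ω' ∩ blk b) : ω ∩ R.biUnion blk = ω' ∩ R.biUnion blk := by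
  ext e
  simp only [mem_inter, mem_biUnion]
  constructor
  · rintro ⟨h1, b, hb, h2⟩
    have h3 : e ∈ ω ∩ blk b := mem_inter.mpr ⟨h1, h2⟩
    rw [h b hb] at h3
    exact ⟨(mem_inter.mp h3).1, b, hb, h2⟩
  · rintro ⟨h1, b, hb, h2⟩
    have h3 : e ∈ ω' ∩ blk b := mem_inter.mpr ⟨h1, h2⟩
    rw [← h b hb] at h3
    exact ⟨(mem_inter.mp h3).1, b, hb, h2⟩

theorem explB_run (E : Finset α) {J : Finset ι} (blk : ι → Finset α) {Tch : Finset α → Finset ι}
    (hJ : ∀ ζ, Tch ζ ⊆ J) : ExplB E J blk (runB blk Tch) := by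
  have key : ∀ n ω ω', (∀ b ∈ runB blk Tch n ω, ω ∩ blk b = ω' ∩ blk b) →
      runB blk Tch n ω = runB blk Tch n ω' ∧
        runB blk Tch (n + 1) ω = runB blk Tch (n + 1) ω' := by
    intro n
    induction n with
    | zero =>
      intro ω ω' _
      refine ⟨rfl, ?_⟩
      show (∅ : Finset ι) ∪ Tch (ω ∩ (∅ : Finset ι).biUnion blk) =
        ∅ ∪ Tch (ω' ∩ (∅ : Finset ι).biUnion blk)
      rw [biUnion_empty, inter_empty, inter_empty]
    | succ n ih =>
      intro ω ω' h
      have h1 := (ih ω ω' fun b hb => h b (mem_union_left _ hb)).2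
      refine ⟨h1, ?_⟩
      show runB blk Tch (n + 1) ω ∪ Tch (ω ∩ (runB blk Tch (n + 1) ω).biUnion blk) =
        runB blk Tch (n + 1) ω' ∪ Tch (ω' ∩ (runB blk Tch (n + 1) ω').biUnion blk)
      rw [← h1, inter_biUnion_congr h]
  refine ⟨fun _ _ _ _ => rfl, ?_, fun n ω _ => subset_union_left,
    fun n ω ω' _ _ h => (key n ω ω' h).2⟩
  intro n
  induction n with
  | zero => exact fun ω _ => empty_subset _
  | succ n ih => exact fun ω hω => union_subset (ih ω hω) (hJ _)

/-- The exploration stops after `J.card` rounds: the final set `R` contains all the blocks touched by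
what has been revealed. -/
theorem run_closed {J : Finset ι} (blk : ι → Finset α) {Tch : Finset α → Finset ι}
    (hJ : ∀ ζ, Tch ζ ⊆ J) (ω : Finset α) :
    Tch (ω ∩ (runB blk Tch J.card ω).biUnion blk) ⊆ runB blk Tch J.card ω := by
  -- either the set has at least `n` elements after `n` rounds, or it is closed
  have hsub : ∀ n, runB blk Tch n ω ⊆ J := by
    intro n
    induction n with
    | zero => exact empty_subset _
    | succ n ih => exact union_subset ih (hJ _)
  have hcl : ∀ n, Tch (ω ∩ (runB blk Tch n ω).biUnion blk) ⊆ runB blk Tch n ω ∨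
      n + 1 ≤ (runB blk Tch (n + 1) ω).card := by
    intro n
    induction n with
    | zero =>
      by_cases h : Tch (ω ∩ (runB blk Tch 0 ω).biUnion blk) ⊆ runB blk Tch 0 ω
      · exact Or.inl h
      · right
        rw [Nat.zero_add, Nat.succ_le_iff, card_pos]
        obtain ⟨b, hb, _⟩ := not_subset.mp h
        exact ⟨b, mem_union_right _ hb⟩
    | succ n ih =>
      rcases ih with ih | ih
      · left
        have h1 : runB blk Tch (n + 1) ω = runB blk Tch n ω := by
          show runB blk Tch n ω ∪ Tch (ω ∩ (runB blk Tch n ω).biUnion blk) = _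
          exact union_eq_left.mpr ih
        rw [h1]
        exact ih
      · by_cases h : Tch (ω ∩ (runB blk Tch (n + 1) ω).biUnion blk) ⊆ runB blk Tch (n + 1) ω
        · exact Or.inl h
        · right
          obtain ⟨b, hb, hb'⟩ := not_subset.mp h
          have h0 : runB blk Tch (n + 1) ω ⊆ runB blk Tch (n + 2) ω := subset_union_left
          have h1 : runB blk Tch (n + 1) ω ⊂ runB blk Tch (n + 2) ω := by
            rw [Finset.ssubset_iff_of_subset h0]
            exact ⟨b, mem_union_right _ hb, hb'⟩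
          have h2 := card_lt_card h1
          show n + 2 ≤ (runB blk Tch (n + 2) ω).card
          omega
  rcases hcl J.card with h | h
  · exact h
  · have := card_le_card (hsub (J.card + 1))
    omega

/-- Exploration of a cluster: if `Tch` is increasing and *local* (when all the blocks touched inside the
blocks of `X` belong to `X`, nothing else is touched), the final set is `Tch ω`. -/
theorem run_eq {J : Finset ι} (blk : ι → Finset α) {Tch : Finset α → Finset ι}
    (hJ : ∀ ζ, Tch ζ ⊆ J) (hmono : ∀ ζ ζ', ζ ⊆ ζ' → Tch ζ ⊆ Tch ζ') (ω : Finset α)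
    (hloc : ∀ X ⊆ J, Tch (ω ∩ X.biUnion blk) ⊆ X → Tch ω = Tch (ω ∩ X.biUnion blk)) :
    runB blk Tch J.card ω = Tch ω := by
  have hsub : ∀ n, runB blk Tch n ω ⊆ J ∧ runB blk Tch n ω ⊆ Tch ω := by
    intro n
    induction n with
    | zero => exact ⟨empty_subset _, empty_subset _⟩
    | succ n ih =>
      exact ⟨union_subset ih.1 (hJ _), union_subset ih.2 (hmono _ _ inter_subset_left)⟩
  apply Subset.antisymm (hsub _).2
  rw [hloc _ (hsub _).1 (run_closed blk hJ ω)]
  exact run_closed blk hJ ω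

end blk

end Pool.Agent.H98.W
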